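import Pool.Agent.Lib.Pbbea99G.E12.Data

/-!
# MP_bbea99_co: bounds of the outer level
-/

namespace MPbbea99G.E12

open MPbbea99S MPbbea99T MPbbea99G Finset

theorem tu13 : ∀ j, j < 26 → ∀ β, β < 1 → chkU P Q 1 β (84 + j) = true := by decide +kernel

end MPbbea99G.E12
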