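import Pool.Agent.Lib.Pbbea99G.E12.Tok
import Pool.Agent.Lib.Pbbea99G.E12.Grp
import Pool.Agent.Lib.Pbbea99G.E12.TabO00
import Pool.Agent.Lib.Pbbea99G.E12.TabO01
import Pool.Agent.Lib.Pbbea99G.E12.TabO02
import Pool.Agent.Lib.Pbbea99G.E12.TabO03
import Pool.Agent.Lib.Pbbea99G.E12.TabO10
import Pool.Agent.Lib.Pbbea99G.E12.TabO11
import Pool.Agent.Lib.Pbbea99G.E12.TabO12
import Pool.Agent.Lib.Pbbea99G.E12.TabO13

/-!
# MP_bbea99_co: the outer hypotheses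
-/

namespace MPbbea99G.E12

open MPbbea99S MPbbea99T MPbbea99G Finset

theorem o_U0 : ∀ ro, ro < 2 → ∀ κ, κ < T.γ → ∀ β, β < 1 → chkU P Q ro β κ = true := by
  intro ro hro κ hκ
  have hγ : T.γ = 110 := rfl
  rw [hγ] at hκ
  obtain rfl | rfl : ro = 0 ∨ ro = 1 := by omega
  · rcases (by omega : κ < 28 ∨ (28 ≤ κ ∧ κ < 56) ∨ (56 ≤ κ ∧ κ < 84) ∨ (84 ≤ κ)) with h | h | h | h
    · have := tu00 (κ - 0) (by omega)
      rwa [show 0 + (κ - 0) = κ by omega] at this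
    · have := tu01 (κ - 28) (by omega)
      rwa [show 28 + (κ - 28) = κ by omega] at this
    · have := tu02 (κ - 56) (by omega)
      rwa [show 56 + (κ - 56) = κ by omega] at this
    · have := tu03 (κ - 84) (by omega)
      rwa [show 84 + (κ - 84) = κ by omega] at this
  · rcases (by omega : κ < 28 ∨ (28 ≤ κ ∧ κ < 56) ∨ (56 ≤ κ ∧ κ < 84) ∨ (84 ≤ κ)) with h | h | h | h
    · have := tu10 (κ - 0) (by omega)
      rwa [show 0 + (κ - 0) = κ by omega] at this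
    · have := tu11 (κ - 28) (by omega)
      rwa [show 28 + (κ - 28) = κ by omega] at this
    · have := tu12 (κ - 56) (by omega)
      rwa [show 56 + (κ - 56) = κ by omega] at this
    · have := tu13 (κ - 84) (by omega)
      rwa [show 84 + (κ - 84) = κ by omega] at this

theorem o_U : ∀ ro, ro < 2 → ∀ β, β < S.nb → ∀ κ, κ < T.γ → chkU P Q ro β κ = true := by
  intro ro hro β hβ κ hκ
  exact o_U0 ro hro κ hκ β hβ

mutual

theorem b_bf : ∀ i, i < T.M → bf Q i < S.nb := by decide +kernel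

theorem b_x : ∀ β, β < S.nb → ∀ r, r < Q.m → S.XB β r < T.n := by decide +kernel

theorem b_0 : ∀ β, β < S.nb → ∀ x, x < T.n → cnt Q T.n β x 0 = 0 := by decide +kernel

theorem b_1 : ∀ β, β < S.nb → ∀ x, x < T.n → ∀ r, r < Q.m - 1 →
    cnt Q T.n β x (r + 1) = cnt Q T.n β x r + if S.XB β r = x then 1 else 0 := by decide +kernel

theorem b_2 : ∀ β, β < S.nb → ∀ x, x < T.n →
    cnt Q T.n β x (Q.m - 1) + (if S.XB β (Q.m - 1) = x then 1 else 0) = S.tvf x := by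
  decide +kernel

theorem b_F : ∀ β, β < S.nb → ∀ x, x < T.n →
    nthL Q.cF (T.n * β + x) = pkR Q.F (fun r => cnt Q T.n β x r) Q.m := by decide +kernel

theorem b_G : ∀ β, β < S.nb → ∀ x, x < T.n →
    nthL Q.cG (T.n * β + x) = pkR Q.W (fun r => cnt Q T.n β x r) Q.m := by decide +kernel

theorem b_ch : Q.chT = pkR Q.W (fun i => pkR 16 (fun f => chv T S (Nat.div i T.n) (Nat.mod i T.n) f)
    156) (2 * T.n) := by decide +kernel

theorem b_NA : Q.NA = pkR Q.W (fun r => pkR 16 (fun _ => Nat.mul (Nat.mul S.sc T.cx)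
    (Nat.sub Q.m r)) 156) Q.m := by decide +kernel

end

theorem blk : Blk T P Q S 16 156 where
  O := tok
  hLo := by decide +kernel
  en := rfl
  eγ := rfl
  eM := rfl
  ea := rfl
  hm := by decide +kernel
  hF := by decide +kernel
  hMF := by decide +kernel
  hbf := b_bf
  hx := b_x
  c0 := b_0
  c1 := b_1
  c2 := b_2
  cF := b_F
  cG := b_G
  hsc := by decide +kernel
  hd := by decide +kernel
  hWo := by decide +kernel
  hQW := by decide +kernel
  hMW := by decide +kernel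
  hch := b_ch
  hNA := b_NA
  hb := by decide +kernel

mutual

theorem o_HO : Q.HO = pkR 16 (fun _ => 2 ^ (16 - 1)) 156 := by decide +kernel

theorem o_eT : ∀ ro, ro < 2 → ∀ κ, κ < T.γ → arE P Q ro κ = pkR 16 (eOf T Q S ro κ) 156 := by
  decide +kernel

theorem o_be_p0 : ∀ j, j < 8 → ∀ ro, ro < 2 → ∀ f, f < 156 → eOf T Q S ro (0 + j) f ≤ 6560 := by decide +kernel

theorem o_be_p1 : ∀ j, j < 8 → ∀ ro, ro < 2 → ∀ f, f < 156 → eOf T Q S ro (8 + j) f ≤ 6560 := by decide +kernel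

theorem o_be_p2 : ∀ j, j < 8 → ∀ ro, ro < 2 → ∀ f, f < 156 → eOf T Q S ro (16 + j) f ≤ 6560 := by decide +kernel

theorem o_be_p3 : ∀ j, j < 8 → ∀ ro, ro < 2 → ∀ f, f < 156 → eOf T Q S ro (24 + j) f ≤ 6560 := by decide +kernel

theorem o_be_p4 : ∀ j, j < 8 → ∀ ro, ro < 2 → ∀ f, f < 156 → eOf T Q S ro (32 + j) f ≤ 6560 := by decide +kernel

theorem o_be_p5 : ∀ j, j < 8 → ∀ ro, ro < 2 → ∀ f, f < 156 → eOf T Q S ro (40 + j) f ≤ 6560 := by decide +kernel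

theorem o_be_p6 : ∀ j, j < 8 → ∀ ro, ro < 2 → ∀ f, f < 156 → eOf T Q S ro (48 + j) f ≤ 6560 := by decide +kernel

theorem o_be_p7 : ∀ j, j < 8 → ∀ ro, ro < 2 → ∀ f, f < 156 → eOf T Q S ro (56 + j) f ≤ 6560 := by decide +kernel

theorem o_be_p8 : ∀ j, j < 8 → ∀ ro, ro < 2 → ∀ f, f < 156 → eOf T Q S ro (64 + j) f ≤ 6560 := by decide +kernel

theorem o_be_p9 : ∀ j, j < 8 → ∀ ro, ro < 2 → ∀ f, f < 156 → eOf T Q S ro (72 + j) f ≤ 6560 := by decide +kernel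

theorem o_be_p10 : ∀ j, j < 8 → ∀ ro, ro < 2 → ∀ f, f < 156 → eOf T Q S ro (80 + j) f ≤ 6560 := by decide +kernel

theorem o_be_p11 : ∀ j, j < 8 → ∀ ro, ro < 2 → ∀ f, f < 156 → eOf T Q S ro (88 + j) f ≤ 6560 := by decide +kernel

theorem o_be_p12 : ∀ j, j < 8 → ∀ ro, ro < 2 → ∀ f, f < 156 → eOf T Q S ro (96 + j) f ≤ 6560 := by decide +kernel

theorem o_be_p13 : ∀ j, j < 6 → ∀ ro, ro < 2 → ∀ f, f < 156 → eOf T Q S ro (104 + j) f ≤ 6560 := by decide +kernel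

end

theorem o_be : ∀ ro, ro < 2 → ∀ κ, κ < T.γ → ∀ f, f < 156 → eOf T Q S ro κ f ≤ 6560 :=
  fun ro hro κ hκ => rngP_cons (p := fun κ => ∀ ro, ro < 2 → ∀ f, f < 156 → eOf T Q S ro κ f ≤ 6560) o_be_p0 rfl (rngP_cons o_be_p1 rfl (rngP_cons o_be_p2 rfl (rngP_cons o_be_p3 rfl (rngP_cons o_be_p4 rfl (rngP_cons o_be_p5 rfl (rngP_cons o_be_p6 rfl (rngP_cons o_be_p7 rfl (rngP_cons o_be_p8 rfl (rngP_cons o_be_p9 rfl (rngP_cons o_be_p10 rfl (rngP_cons o_be_p11 rfl (rngP_cons o_be_p12 rfl (rngP_cons o_be_p13 rfl (rngP_end (Nat.le_of_eq rfl))))))))))))))) κ (Nat.zero_le _) hκ ro hro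

theorem o_be' : ∀ ro, ro < 2 → ∀ κ, κ < T.γ → ∀ f, f < 156 → eOf T Q S ro κ f < 2 ^ (16 - 1) := by
  intro ro hro κ hκ f hf
  exact (o_be ro hro κ hκ f hf).trans_lt (by norm_num)

theorem o_T : ∀ κ, κ < T.γ → ∀ k, k < T.n → T.n * (S.sc * sumN (fun x =>
    Nat.mul (S.tvf x) (bn (Nat.beq (T.ac κ x) k))) T.n) + T.n * S.d * T.v0 =
      S.sc * Q.m + T.n * S.d * T.vn κ k := by decide +kernel

theorem ocert : OCert Q.m P.M P.γ 156 T.ac (fun i r => S.XB (bf Q i) r) T.χ T.th T.U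
    (fun f i κ r => RS T.ac (fun i r => S.XB (bf Q i) r) (T.χ f) i κ r) S.sc S.d :=
  blk.ocert o_HO o_eT o_be' o_U o_T

mutual

theorem o_L1 : Q.L1 = pkR Q.F (fun k => fd Q.F Q.MF Q.L1 k) T.n := by decide +kernel

theorem o_lO : ∀ k, k < T.n → ((fd Q.F Q.MF Q.L1 k : ℕ) : ℤ) = (31944328 : ℕ) + S.d * phi k := by
  decide +kernel

theorem o_BO : ∀ k, k < T.n → fd Q.F Q.MF Q.L1 k ≤ 63821186 := by decide +kernel

theorem o_C1 : Q.C1 + T.h * sumN (fun k => fd Q.F Q.MF Q.L1 k) T.n = 2299991616 := by decide +kernel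

theorem o_Φ : ∀ y, y < T.n → (phn Q y : ℤ) = S.sc * phi y + Q.kT := by decide +kernel

theorem o_Φz : ∑ k ∈ range T.n, phi k = 0 := by decide +kernel

theorem o_PM : ∀ y, y < T.n → phn Q y ≤ 31910593 := by decide +kernel

theorem o_L2 : Q.L2 = pkR Q.W (fun k => pkR 16 (fun f => Nat.mul S.d (T.chn f k)) 156) T.n := by
  decide +kernel

theorem o_C2 : Q.C2 = pkR 16 (fun f => Nat.sub 7424
    (Nat.mul T.h (sumN (fun k => Nat.mul S.d (T.chn f k)) T.n))) 156 := by decide +kernel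

theorem o_C4 : ∀ f, f < 156 → T.h * sumN (fun k => Nat.mul S.d (T.chn f k)) T.n ≤ 7424 := by
  decide +kernel

end

theorem ohyp : OHyp P Q 156 T.mul T.ac (fun i r => S.XB (bf Q i) r) T.vc T.χ T.th T.U
    (fun f i κ r => RS T.ac (fun i r => S.XB (bf Q i) r) (T.χ f) i κ r) phi S.sc S.d T.h 16384
    (fun k => fd Q.F Q.MF Q.L1 k) (hO T Q) 31944328 2299991616 63821186 (31910593 * Q.m) 16
    (fun k f => S.d * T.chn f k)
    (fun f => 7424 - T.h * ∑ k ∈ range T.n, S.d * T.chn f k)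
    (gOf T Q S) (eOf T Q S) (S.d * T.cx) (S.sc * T.cx * Q.m) 7424 (S.d * (2 * T.cx)) 7424 6560 :=
  blk.ohyp (hL1 := o_L1) (hlO := o_lO) (hBO := o_BO) (hC1 := o_C1) (hΦ := o_Φ) (hT := o_T)
    (hΦz := o_Φz) (hPM := o_PM) (hTF := by decide +kernel) (hb1 := by decide +kernel)
    (hb2 := by decide +kernel) (hON := by decide +kernel) (hKO := by decide +kernel)
    (hGO := by decide +kernel) (hL2 := o_L2) (hC2 := o_C2) (hC4 := o_C4)
    (hbias := by decide +kernel) (hHO := o_HO) (heT := o_eT) (hbe := o_be) (hU := o_U)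
    (hBGF := by decide +kernel) (hbdF := by decide +kernel)

theorem vok' : VOK VO 16 156 Q.m :=
  mkVOK (by decide +kernel) (by decide +kernel) (by decide +kernel) (by decide +kernel)
    (by decide +kernel) (by decide +kernel) (by decide +kernel) (by decide +kernel)
    (by decide +kernel) (by decide +kernel) (by decide +kernel)

theorem act : Act P.n Q.m P.M P.γ T.mul T.ac (fun i r => S.XB (bf Q i) r) := blk.act g_mul

end MPbbea99G.E12
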