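import Pool.Agent.Lib.Pbbea99G.E12.Hyp
import Pool.Agent.Lib.Pbbea99G.E12.Out
import Pool.Agent.Lib.Pbbea99G.E12.C00
import Pool.Agent.Lib.Pbbea99G.E12.C01
import Pool.Agent.Lib.Pbbea99G.E12.C02
import Pool.Agent.Lib.Pbbea99G.E12.C03
import Pool.Agent.Lib.Pbbea99G.E12.C04
import Pool.Agent.Lib.Pbbea99G.E12.C05
import Pool.Agent.Lib.Pbbea99G.E12.C06
import Pool.Agent.Lib.Pbbea99G.E12.C07
import Pool.Agent.Lib.Pbbea99G.E12.C08
import Pool.Agent.Lib.Pbbea99G.E12.C09
import Pool.Agent.Lib.Pbbea99G.E12.C10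
import Pool.Agent.Lib.Pbbea99G.E12.C11
import Pool.Agent.Lib.Pbbea99G.E12.C12
import Pool.Agent.Lib.Pbbea99G.E12.C13
import Pool.Agent.Lib.Pbbea99G.E12.C14
import Pool.Agent.Lib.Pbbea99G.E12.C15
import Pool.Agent.Lib.Pbbea99G.E12.C16
import Pool.Agent.Lib.Pbbea99G.E12.C17
import Pool.Agent.Lib.Pbbea99G.E12.C18
import Pool.Agent.Lib.Pbbea99G.E12.C19
import Pool.Agent.Lib.Pbbea99G.E12.C20
import Pool.Agent.Lib.Pbbea99G.E12.C21
import Pool.Agent.Lib.Pbbea99G.E12.C22
import Pool.Agent.Lib.Pbbea99G.E12.O00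
import Pool.Agent.Lib.Pbbea99G.E12.O01
import Pool.Agent.Lib.Pbbea99G.E12.O02
import Pool.Agent.Lib.Pbbea99G.E12.O03
import Pool.Agent.Lib.Pbbea99G.E12.O04
import Pool.Agent.Lib.Pbbea99G.E12.O05
import Pool.Agent.Lib.Pbbea99G.E12.O06
import Pool.Agent.Lib.Pbbea99G.E12.O07
import Pool.Agent.Lib.Pbbea99G.E12.O08
import Pool.Agent.Lib.Pbbea99G.E12.O09
import Pool.Agent.Lib.Pbbea99G.E12.O10
import Pool.Agent.Lib.Pbbea99G.E12.O11
import Pool.Agent.Lib.Pbbea99G.E12.O12
import Pool.Agent.Lib.Pbbea99G.E12.O13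
import Pool.Agent.Lib.Pbbea99G.E12.O14
import Pool.Agent.Lib.Pbbea99G.E12.O15
import Pool.Agent.Lib.Pbbea99G.E12.O16
import Pool.Agent.Lib.Pbbea99G.E12.O17
import Pool.Agent.Lib.Pbbea99G.E12.O18
import Pool.Agent.Lib.Pbbea99G.E12.O19
import Pool.Agent.Lib.Pbbea99G.E12.O20
import Pool.Agent.Lib.Pbbea99G.E12.O21
import Pool.Agent.Lib.Pbbea99G.E12.O22

/-!
# MP_bbea99_co: the word on 12 letters
-/

namespace MPbbea99G.E12

open MPbbea99S MPbbea99T MPbbea99G Finset

theorem c_1733_1735 : allTr (chkV P V lk) tr_1733_1735 = true := allTr_mk ck_1734 c_1733_1734 rfl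

theorem c_1908_1910 : allTr (chkV P V lk) tr_1908_1910 = true := allTr_mk ck_1909 c_1908_1909 rfl

theorem c_1957_1959 : allTr (chkV P V lk) tr_1957_1959 = true := allTr_mk ck_1958 c_1957_1958 rfl

theorem c_2053_2055 : allTr (chkV P V lk) tr_2053_2055 = true := allTr_mk ck_2054 c_2053_2054 rfl

theorem c_2056_2058 : allTr (chkV P V lk) tr_2056_2058 = true := allTr_mk ck_2057 c_2056_2057 rfl

theorem c_2062_2064 : allTr (chkV P V lk) tr_2062_2064 = true := allTr_mk ck_2063 c_2062_2063 rfl

theorem c_2065_2067 : allTr (chkV P V lk) tr_2065_2067 = true := allTr_mk ck_2066 c_2065_2066 rfl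

theorem c_2068_2070 : allTr (chkV P V lk) tr_2068_2070 = true := allTr_mk ck_2069 c_2068_2069 rfl

theorem c_2078_2080 : allTr (chkV P V lk) tr_2078_2080 = true := allTr_mk ck_2079 c_2078_2079 rfl

theorem c_2081_2083 : allTr (chkV P V lk) tr_2081_2083 = true := allTr_mk ck_2082 c_2081_2082 rfl

theorem c_2084_2086 : allTr (chkV P V lk) tr_2084_2086 = true := allTr_mk ck_2085 c_2084_2085 rfl

theorem c_2087_2089 : allTr (chkV P V lk) tr_2087_2089 = true := allTr_mk ck_2088 c_2087_2088 rfl

theorem c_2090_2092 : allTr (chkV P V lk) tr_2090_2092 = true := allTr_mk ck_2091 c_2090_2091 rfl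

theorem c_2093_2095 : allTr (chkV P V lk) tr_2093_2095 = true := allTr_mk ck_2094 c_2093_2094 rfl

theorem c_2096_2098 : allTr (chkV P V lk) tr_2096_2098 = true := allTr_mk ck_2097 c_2096_2097 rfl

theorem c_2099_2101 : allTr (chkV P V lk) tr_2099_2101 = true := allTr_mk ck_2100 c_2099_2100 rfl

theorem c_2102_2104 : allTr (chkV P V lk) tr_2102_2104 = true := allTr_mk ck_2103 c_2102_2103 rfl

theorem c_2111_2113 : allTr (chkV P V lk) tr_2111_2113 = true := allTr_mk ck_2112 c_2111_2112 rfl

theorem c_2114_2116 : allTr (chkV P V lk) tr_2114_2116 = true := allTr_mk ck_2115 c_2114_2115 rfl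

theorem c_2117_2119 : allTr (chkV P V lk) tr_2117_2119 = true := allTr_mk ck_2118 c_2117_2118 rfl

theorem c_2130_2132 : allTr (chkV P V lk) tr_2130_2132 = true := allTr_mk ck_2131 c_2130_2131 rfl

theorem c_2133_2135 : allTr (chkV P V lk) tr_2133_2135 = true := allTr_mk ck_2134 c_2133_2134 rfl

theorem c_2136_2138 : allTr (chkV P V lk) tr_2136_2138 = true := allTr_mk ck_2137 c_2136_2137 rfl

theorem c_2148_2150 : allTr (chkV P V lk) tr_2148_2150 = true := allTr_mk ck_2149 c_2148_2149 rfl

theorem c_2160_2162 : allTr (chkV P V lk) tr_2160_2162 = true := allTr_mk ck_2161 c_2160_2161 rfl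

theorem c_2166_2168 : allTr (chkV P V lk) tr_2166_2168 = true := allTr_mk ck_2167 c_2166_2167 rfl

theorem c_2176_2178 : allTr (chkV P V lk) tr_2176_2178 = true := allTr_mk ck_2177 c_2176_2177 rfl

theorem c_2179_2181 : allTr (chkV P V lk) tr_2179_2181 = true := allTr_mk ck_2180 c_2179_2180 rfl

theorem c_2182_2184 : allTr (chkV P V lk) tr_2182_2184 = true := allTr_mk ck_2183 c_2182_2183 rfl

theorem c_2191_2193 : allTr (chkV P V lk) tr_2191_2193 = true := allTr_mk ck_2192 c_2191_2192 rfl

theorem c_2198_2200 : allTr (chkV P V lk) tr_2198_2200 = true := allTr_mk ck_2199 c_2198_2199 rfl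

theorem c_2204_2206 : allTr (chkV P V lk) tr_2204_2206 = true := allTr_mk ck_2205 c_2204_2205 rfl

theorem c_2207_2209 : allTr (chkV P V lk) tr_2207_2209 = true := allTr_mk ck_2208 c_2207_2208 rfl

theorem c_2213_2215 : allTr (chkV P V lk) tr_2213_2215 = true := allTr_mk ck_2214 c_2213_2214 rfl

theorem c_2223_2225 : allTr (chkV P V lk) tr_2223_2225 = true := allTr_mk ck_2224 c_2223_2224 rfl

theorem c_2226_2228 : allTr (chkV P V lk) tr_2226_2228 = true := allTr_mk ck_2227 c_2226_2227 rfl

theorem c_2229_2231 : allTr (chkV P V lk) tr_2229_2231 = true := allTr_mk ck_2230 c_2229_2230 rfl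

theorem c_2232_2234 : allTr (chkV P V lk) tr_2232_2234 = true := allTr_mk ck_2233 c_2232_2233 rfl

theorem c_2238_2240 : allTr (chkV P V lk) tr_2238_2240 = true := allTr_mk ck_2239 c_2238_2239 rfl

theorem c_2241_2243 : allTr (chkV P V lk) tr_2241_2243 = true := allTr_mk ck_2242 c_2241_2242 rfl

theorem c_2244_2246 : allTr (chkV P V lk) tr_2244_2246 = true := allTr_mk ck_2245 c_2244_2245 rfl

theorem c_2250_2252 : allTr (chkV P V lk) tr_2250_2252 = true := allTr_mk ck_2251 c_2250_2251 rfl

theorem c_2253_2255 : allTr (chkV P V lk) tr_2253_2255 = true := allTr_mk ck_2254 c_2253_2254 rfl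

theorem c_2265_2267 : allTr (chkV P V lk) tr_2265_2267 = true := allTr_mk ck_2266 c_2265_2266 rfl

theorem c_2272_2274 : allTr (chkV P V lk) tr_2272_2274 = true := allTr_mk ck_2273 c_2272_2273 rfl

theorem c_2299_2301 : allTr (chkV P V lk) tr_2299_2301 = true := allTr_mk ck_2300 c_2299_2300 rfl

theorem c_2302_2304 : allTr (chkV P V lk) tr_2302_2304 = true := allTr_mk ck_2303 c_2302_2303 rfl

theorem c_2305_2307 : allTr (chkV P V lk) tr_2305_2307 = true := allTr_mk ck_2306 c_2305_2306 rfl

theorem c_2308_2310 : allTr (chkV P V lk) tr_2308_2310 = true := allTr_mk ck_2309 c_2308_2309 rfl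

theorem c_2311_2313 : allTr (chkV P V lk) tr_2311_2313 = true := allTr_mk ck_2312 c_2311_2312 rfl

theorem c_2321_2323 : allTr (chkV P V lk) tr_2321_2323 = true := allTr_mk ck_2322 c_2321_2322 rfl

theorem c_2324_2326 : allTr (chkV P V lk) tr_2324_2326 = true := allTr_mk ck_2325 c_2324_2325 rfl

theorem c_2327_2329 : allTr (chkV P V lk) tr_2327_2329 = true := allTr_mk ck_2328 c_2327_2328 rfl

theorem c_2330_2332 : allTr (chkV P V lk) tr_2330_2332 = true := allTr_mk ck_2331 c_2330_2331 rfl

theorem c_2333_2335 : allTr (chkV P V lk) tr_2333_2335 = true := allTr_mk ck_2334 c_2333_2334 rfl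

theorem c_2336_2338 : allTr (chkV P V lk) tr_2336_2338 = true := allTr_mk ck_2337 c_2336_2337 rfl

theorem c_2342_2344 : allTr (chkV P V lk) tr_2342_2344 = true := allTr_mk ck_2343 c_2342_2343 rfl

theorem c_2345_2347 : allTr (chkV P V lk) tr_2345_2347 = true := allTr_mk ck_2346 c_2345_2346 rfl

theorem c_2351_2353 : allTr (chkV P V lk) tr_2351_2353 = true := allTr_mk ck_2352 c_2351_2352 rfl

theorem c_2354_2356 : allTr (chkV P V lk) tr_2354_2356 = true := allTr_mk ck_2355 c_2354_2355 rfl

theorem c_2357_2359 : allTr (chkV P V lk) tr_2357_2359 = true := allTr_mk ck_2358 c_2357_2358 rfl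

theorem c_2360_2362 : allTr (chkV P V lk) tr_2360_2362 = true := allTr_mk ck_2361 c_2360_2361 rfl

theorem c_2370_2372 : allTr (chkV P V lk) tr_2370_2372 = true := allTr_mk ck_2371 c_2370_2371 rfl

theorem c_2379_2381 : allTr (chkV P V lk) tr_2379_2381 = true := allTr_mk ck_2380 c_2379_2380 rfl

theorem c_2382_2384 : allTr (chkV P V lk) tr_2382_2384 = true := allTr_mk ck_2383 c_2382_2383 rfl

theorem c_2385_2387 : allTr (chkV P V lk) tr_2385_2387 = true := allTr_mk ck_2386 c_2385_2386 rfl

theorem c_2388_2390 : allTr (chkV P V lk) tr_2388_2390 = true := allTr_mk ck_2389 c_2388_2389 rfl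

theorem c_2395_2397 : allTr (chkV P V lk) tr_2395_2397 = true := allTr_mk ck_2396 c_2395_2396 rfl

theorem c_2398_2400 : allTr (chkV P V lk) tr_2398_2400 = true := allTr_mk ck_2399 c_2398_2399 rfl

theorem c_2401_2403 : allTr (chkV P V lk) tr_2401_2403 = true := allTr_mk ck_2402 c_2401_2402 rfl

theorem c_2407_2409 : allTr (chkV P V lk) tr_2407_2409 = true := allTr_mk ck_2408 c_2407_2408 rfl

theorem c_2413_2415 : allTr (chkV P V lk) tr_2413_2415 = true := allTr_mk ck_2414 c_2413_2414 rfl

theorem c_2423_2425 : allTr (chkV P V lk) tr_2423_2425 = true := allTr_mk ck_2424 c_2423_2424 rfl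

theorem c_2426_2428 : allTr (chkV P V lk) tr_2426_2428 = true := allTr_mk ck_2427 c_2426_2427 rfl

theorem c_2429_2431 : allTr (chkV P V lk) tr_2429_2431 = true := allTr_mk ck_2430 c_2429_2430 rfl

theorem c_2435_2437 : allTr (chkV P V lk) tr_2435_2437 = true := allTr_mk ck_2436 c_2435_2436 rfl

theorem c_2438_2440 : allTr (chkV P V lk) tr_2438_2440 = true := allTr_mk ck_2439 c_2438_2439 rfl

theorem c_2441_2443 : allTr (chkV P V lk) tr_2441_2443 = true := allTr_mk ck_2442 c_2441_2442 rfl

theorem c_2444_2446 : allTr (chkV P V lk) tr_2444_2446 = true := allTr_mk ck_2445 c_2444_2445 rfl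

theorem c_2447_2449 : allTr (chkV P V lk) tr_2447_2449 = true := allTr_mk ck_2448 c_2447_2448 rfl

theorem c_2450_2452 : allTr (chkV P V lk) tr_2450_2452 = true := allTr_mk ck_2451 c_2450_2451 rfl

theorem c_2453_2455 : allTr (chkV P V lk) tr_2453_2455 = true := allTr_mk ck_2454 c_2453_2454 rfl

theorem c_2462_2464 : allTr (chkV P V lk) tr_2462_2464 = true := allTr_mk ck_2463 c_2462_2463 rfl

theorem c_2475_2477 : allTr (chkV P V lk) tr_2475_2477 = true := allTr_mk ck_2476 c_2475_2476 rfl

theorem c_2478_2480 : allTr (chkV P V lk) tr_2478_2480 = true := allTr_mk ck_2479 c_2478_2479 rfl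

theorem c_2481_2483 : allTr (chkV P V lk) tr_2481_2483 = true := allTr_mk ck_2482 c_2481_2482 rfl

theorem c_2487_2489 : allTr (chkV P V lk) tr_2487_2489 = true := allTr_mk ck_2488 c_2487_2488 rfl

theorem c_2496_2498 : allTr (chkV P V lk) tr_2496_2498 = true := allTr_mk ck_2497 c_2496_2497 rfl

theorem c_2499_2501 : allTr (chkV P V lk) tr_2499_2501 = true := allTr_mk ck_2500 c_2499_2500 rfl

theorem c_2505_2507 : allTr (chkV P V lk) tr_2505_2507 = true := allTr_mk ck_2506 c_2505_2506 rfl

theorem c_2508_2510 : allTr (chkV P V lk) tr_2508_2510 = true := allTr_mk ck_2509 c_2508_2509 rfl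

theorem c_2511_2513 : allTr (chkV P V lk) tr_2511_2513 = true := allTr_mk ck_2512 c_2511_2512 rfl

theorem c_2518_2520 : allTr (chkV P V lk) tr_2518_2520 = true := allTr_mk ck_2519 c_2518_2519 rfl

theorem c_2527_2529 : allTr (chkV P V lk) tr_2527_2529 = true := allTr_mk ck_2528 c_2527_2528 rfl

theorem c_2530_2532 : allTr (chkV P V lk) tr_2530_2532 = true := allTr_mk ck_2531 c_2530_2531 rfl

theorem c_2533_2535 : allTr (chkV P V lk) tr_2533_2535 = true := allTr_mk ck_2534 c_2533_2534 rfl

theorem c_2542_2544 : allTr (chkV P V lk) tr_2542_2544 = true := allTr_mk ck_2543 c_2542_2543 rfl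

theorem c_2545_2547 : allTr (chkV P V lk) tr_2545_2547 = true := allTr_mk ck_2546 c_2545_2546 rfl

theorem c_2551_2553 : allTr (chkV P V lk) tr_2551_2553 = true := allTr_mk ck_2552 c_2551_2552 rfl

theorem c_2557_2559 : allTr (chkV P V lk) tr_2557_2559 = true := allTr_mk ck_2558 c_2557_2558 rfl

theorem c_2560_2562 : allTr (chkV P V lk) tr_2560_2562 = true := allTr_mk ck_2561 c_2560_2561 rfl

theorem c_2570_2572 : allTr (chkV P V lk) tr_2570_2572 = true := allTr_mk ck_2571 c_2570_2571 rfl

theorem c_2576_2578 : allTr (chkV P V lk) tr_2576_2578 = true := allTr_mk ck_2577 c_2576_2577 rfl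

theorem c_2582_2584 : allTr (chkV P V lk) tr_2582_2584 = true := allTr_mk ck_2583 c_2582_2583 rfl

theorem c_2595_2597 : allTr (chkV P V lk) tr_2595_2597 = true := allTr_mk ck_2596 c_2595_2596 rfl

theorem c_2598_2600 : allTr (chkV P V lk) tr_2598_2600 = true := allTr_mk ck_2599 c_2598_2599 rfl

theorem c_2607_2609 : allTr (chkV P V lk) tr_2607_2609 = true := allTr_mk ck_2608 c_2607_2608 rfl

theorem c_2610_2612 : allTr (chkV P V lk) tr_2610_2612 = true := allTr_mk ck_2611 c_2610_2611 rfl

theorem c_2629_2631 : allTr (chkV P V lk) tr_2629_2631 = true := allTr_mk ck_2630 c_2629_2630 rfl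

theorem c_2632_2634 : allTr (chkV P V lk) tr_2632_2634 = true := allTr_mk ck_2633 c_2632_2633 rfl

theorem c_2635_2637 : allTr (chkV P V lk) tr_2635_2637 = true := allTr_mk ck_2636 c_2635_2636 rfl

theorem c_2638_2640 : allTr (chkV P V lk) tr_2638_2640 = true := allTr_mk ck_2639 c_2638_2639 rfl

theorem c_2641_2643 : allTr (chkV P V lk) tr_2641_2643 = true := allTr_mk ck_2642 c_2641_2642 rfl

theorem c_2644_2646 : allTr (chkV P V lk) tr_2644_2646 = true := allTr_mk ck_2645 c_2644_2645 rfl

theorem c_2647_2649 : allTr (chkV P V lk) tr_2647_2649 = true := allTr_mk ck_2648 c_2647_2648 rfl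

theorem c_2656_2658 : allTr (chkV P V lk) tr_2656_2658 = true := allTr_mk ck_2657 c_2656_2657 rfl

theorem c_2659_2661 : allTr (chkV P V lk) tr_2659_2661 = true := allTr_mk ck_2660 c_2659_2660 rfl

theorem c_2666_2668 : allTr (chkV P V lk) tr_2666_2668 = true := allTr_mk ck_2667 c_2666_2667 rfl

theorem c_2669_2671 : allTr (chkV P V lk) tr_2669_2671 = true := allTr_mk ck_2670 c_2669_2670 rfl

theorem c_2678_2680 : allTr (chkV P V lk) tr_2678_2680 = true := allTr_mk ck_2679 c_2678_2679 rfl

theorem c_2681_2683 : allTr (chkV P V lk) tr_2681_2683 = true := allTr_mk ck_2682 c_2681_2682 rfl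

theorem c_2687_2689 : allTr (chkV P V lk) tr_2687_2689 = true := allTr_mk ck_2688 c_2687_2688 rfl

theorem c_2693_2695 : allTr (chkV P V lk) tr_2693_2695 = true := allTr_mk ck_2694 c_2693_2694 rfl

theorem c_2696_2698 : allTr (chkV P V lk) tr_2696_2698 = true := allTr_mk ck_2697 c_2696_2697 rfl

theorem c_2699_2701 : allTr (chkV P V lk) tr_2699_2701 = true := allTr_mk ck_2700 c_2699_2700 rfl

theorem c_2705_2707 : allTr (chkV P V lk) tr_2705_2707 = true := allTr_mk ck_2706 c_2705_2706 rfl

theorem c_2708_2710 : allTr (chkV P V lk) tr_2708_2710 = true := allTr_mk ck_2709 c_2708_2709 rfl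

theorem c_2715_2717 : allTr (chkV P V lk) tr_2715_2717 = true := allTr_mk ck_2716 c_2715_2716 rfl

theorem c_2718_2720 : allTr (chkV P V lk) tr_2718_2720 = true := allTr_mk ck_2719 c_2718_2719 rfl

theorem c_2721_2723 : allTr (chkV P V lk) tr_2721_2723 = true := allTr_mk ck_2722 c_2721_2722 rfl

theorem c_2724_2726 : allTr (chkV P V lk) tr_2724_2726 = true := allTr_mk ck_2725 c_2724_2725 rfl

theorem c_2730_2732 : allTr (chkV P V lk) tr_2730_2732 = true := allTr_mk ck_2731 c_2730_2731 rfl

theorem c_2733_2735 : allTr (chkV P V lk) tr_2733_2735 = true := allTr_mk ck_2734 c_2733_2734 rfl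

theorem c_2736_2738 : allTr (chkV P V lk) tr_2736_2738 = true := allTr_mk ck_2737 c_2736_2737 rfl

theorem c_2739_2741 : allTr (chkV P V lk) tr_2739_2741 = true := allTr_mk ck_2740 c_2739_2740 rfl

theorem c_2745_2747 : allTr (chkV P V lk) tr_2745_2747 = true := allTr_mk ck_2746 c_2745_2746 rfl

theorem c_2748_2750 : allTr (chkV P V lk) tr_2748_2750 = true := allTr_mk ck_2749 c_2748_2749 rfl

theorem c_2751_2753 : allTr (chkV P V lk) tr_2751_2753 = true := allTr_mk ck_2752 c_2751_2752 rfl

theorem c_2754_2756 : allTr (chkV P V lk) tr_2754_2756 = true := allTr_mk ck_2755 c_2754_2755 rfl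

theorem c_2757_2759 : allTr (chkV P V lk) tr_2757_2759 = true := allTr_mk ck_2758 c_2757_2758 rfl

theorem c_2764_2766 : allTr (chkV P V lk) tr_2764_2766 = true := allTr_mk ck_2765 c_2764_2765 rfl

theorem c_2773_2775 : allTr (chkV P V lk) tr_2773_2775 = true := allTr_mk ck_2774 c_2773_2774 rfl

theorem c_2776_2778 : allTr (chkV P V lk) tr_2776_2778 = true := allTr_mk ck_2777 c_2776_2777 rfl

theorem c_2779_2781 : allTr (chkV P V lk) tr_2779_2781 = true := allTr_mk ck_2780 c_2779_2780 rfl

theorem c_2782_2784 : allTr (chkV P V lk) tr_2782_2784 = true := allTr_mk ck_2783 c_2782_2783 rfl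

theorem c_2789_2791 : allTr (chkV P V lk) tr_2789_2791 = true := allTr_mk ck_2790 c_2789_2790 rfl

theorem c_2792_2794 : allTr (chkV P V lk) tr_2792_2794 = true := allTr_mk ck_2793 c_2792_2793 rfl

theorem c_2795_2797 : allTr (chkV P V lk) tr_2795_2797 = true := allTr_mk ck_2796 c_2795_2796 rfl

theorem c_2798_2800 : allTr (chkV P V lk) tr_2798_2800 = true := allTr_mk ck_2799 c_2798_2799 rfl

theorem c_2801_2803 : allTr (chkV P V lk) tr_2801_2803 = true := allTr_mk ck_2802 c_2801_2802 rfl

theorem c_2804_2806 : allTr (chkV P V lk) tr_2804_2806 = true := allTr_mk ck_2805 c_2804_2805 rfl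

theorem c_2807_2809 : allTr (chkV P V lk) tr_2807_2809 = true := allTr_mk ck_2808 c_2807_2808 rfl

theorem c_2814_2816 : allTr (chkV P V lk) tr_2814_2816 = true := allTr_mk ck_2815 c_2814_2815 rfl

theorem c_2817_2819 : allTr (chkV P V lk) tr_2817_2819 = true := allTr_mk ck_2818 c_2817_2818 rfl

theorem c_2820_2822 : allTr (chkV P V lk) tr_2820_2822 = true := allTr_mk ck_2821 c_2820_2821 rfl

theorem c_2826_2828 : allTr (chkV P V lk) tr_2826_2828 = true := allTr_mk ck_2827 c_2826_2827 rfl

theorem c_2829_2831 : allTr (chkV P V lk) tr_2829_2831 = true := allTr_mk ck_2830 c_2829_2830 rfl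

theorem c_2841_2843 : allTr (chkV P V lk) tr_2841_2843 = true := allTr_mk ck_2842 c_2841_2842 rfl

theorem c_2847_2849 : allTr (chkV P V lk) tr_2847_2849 = true := allTr_mk ck_2848 c_2847_2848 rfl

theorem c_2853_2855 : allTr (chkV P V lk) tr_2853_2855 = true := allTr_mk ck_2854 c_2853_2854 rfl

theorem c_2866_2868 : allTr (chkV P V lk) tr_2866_2868 = true := allTr_mk ck_2867 c_2866_2867 rfl

theorem c_2872_2874 : allTr (chkV P V lk) tr_2872_2874 = true := allTr_mk ck_2873 c_2872_2873 rfl

theorem c_2878_2880 : allTr (chkV P V lk) tr_2878_2880 = true := allTr_mk ck_2879 c_2878_2879 rfl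

theorem c_2884_2886 : allTr (chkV P V lk) tr_2884_2886 = true := allTr_mk ck_2885 c_2884_2885 rfl

theorem c_2887_2889 : allTr (chkV P V lk) tr_2887_2889 = true := allTr_mk ck_2888 c_2887_2888 rfl

theorem c_2890_2892 : allTr (chkV P V lk) tr_2890_2892 = true := allTr_mk ck_2891 c_2890_2891 rfl

theorem c_2893_2895 : allTr (chkV P V lk) tr_2893_2895 = true := allTr_mk ck_2894 c_2893_2894 rfl

theorem c_2899_2901 : allTr (chkV P V lk) tr_2899_2901 = true := allTr_mk ck_2900 c_2899_2900 rfl

theorem c_2905_2907 : allTr (chkV P V lk) tr_2905_2907 = true := allTr_mk ck_2906 c_2905_2906 rfl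

theorem c_2912_2914 : allTr (chkV P V lk) tr_2912_2914 = true := allTr_mk ck_2913 c_2912_2913 rfl

theorem c_2915_2917 : allTr (chkV P V lk) tr_2915_2917 = true := allTr_mk ck_2916 c_2915_2916 rfl

theorem c_2918_2920 : allTr (chkV P V lk) tr_2918_2920 = true := allTr_mk ck_2919 c_2918_2919 rfl

theorem c_2924_2926 : allTr (chkV P V lk) tr_2924_2926 = true := allTr_mk ck_2925 c_2924_2925 rfl

theorem c_2927_2929 : allTr (chkV P V lk) tr_2927_2929 = true := allTr_mk ck_2928 c_2927_2928 rfl

theorem c_2930_2932 : allTr (chkV P V lk) tr_2930_2932 = true := allTr_mk ck_2931 c_2930_2931 rfl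

theorem c_2933_2935 : allTr (chkV P V lk) tr_2933_2935 = true := allTr_mk ck_2934 c_2933_2934 rfl

theorem c_2936_2938 : allTr (chkV P V lk) tr_2936_2938 = true := allTr_mk ck_2937 c_2936_2937 rfl

theorem c_2942_2944 : allTr (chkV P V lk) tr_2942_2944 = true := allTr_mk ck_2943 c_2942_2943 rfl

theorem c_2948_2950 : allTr (chkV P V lk) tr_2948_2950 = true := allTr_mk ck_2949 c_2948_2949 rfl

theorem c_2954_2956 : allTr (chkV P V lk) tr_2954_2956 = true := allTr_mk ck_2955 c_2954_2955 rfl

theorem c_2961_2963 : allTr (chkV P V lk) tr_2961_2963 = true := allTr_mk ck_2962 c_2961_2962 rfl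

theorem c_2964_2966 : allTr (chkV P V lk) tr_2964_2966 = true := allTr_mk ck_2965 c_2964_2965 rfl

theorem c_2970_2972 : allTr (chkV P V lk) tr_2970_2972 = true := allTr_mk ck_2971 c_2970_2971 rfl

theorem c_2976_2978 : allTr (chkV P V lk) tr_2976_2978 = true := allTr_mk ck_2977 c_2976_2977 rfl

theorem c_2979_2981 : allTr (chkV P V lk) tr_2979_2981 = true := allTr_mk ck_2980 c_2979_2980 rfl

theorem c_2986_2988 : allTr (chkV P V lk) tr_2986_2988 = true := allTr_mk ck_2987 c_2986_2987 rfl

theorem c_2992_2994 : allTr (chkV P V lk) tr_2992_2994 = true := allTr_mk ck_2993 c_2992_2993 rfl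

theorem c_2995_2997 : allTr (chkV P V lk) tr_2995_2997 = true := allTr_mk ck_2996 c_2995_2996 rfl

theorem c_3001_3003 : allTr (chkV P V lk) tr_3001_3003 = true := allTr_mk ck_3002 c_3001_3002 rfl

theorem c_3011_3013 : allTr (chkV P V lk) tr_3011_3013 = true := allTr_mk ck_3012 c_3011_3012 rfl

theorem c_3014_3016 : allTr (chkV P V lk) tr_3014_3016 = true := allTr_mk ck_3015 c_3014_3015 rfl

theorem c_3017_3019 : allTr (chkV P V lk) tr_3017_3019 = true := allTr_mk ck_3018 c_3017_3018 rfl

theorem c_3020_3022 : allTr (chkV P V lk) tr_3020_3022 = true := allTr_mk ck_3021 c_3020_3021 rfl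

theorem c_3023_3025 : allTr (chkV P V lk) tr_3023_3025 = true := allTr_mk ck_3024 c_3023_3024 rfl

theorem c_3026_3028 : allTr (chkV P V lk) tr_3026_3028 = true := allTr_mk ck_3027 c_3026_3027 rfl

theorem c_3029_3031 : allTr (chkV P V lk) tr_3029_3031 = true := allTr_mk ck_3030 c_3029_3030 rfl

theorem c_3032_3034 : allTr (chkV P V lk) tr_3032_3034 = true := allTr_mk ck_3033 c_3032_3033 rfl

theorem c_3035_3037 : allTr (chkV P V lk) tr_3035_3037 = true := allTr_mk ck_3036 c_3035_3036 rfl

theorem c_3038_3040 : allTr (chkV P V lk) tr_3038_3040 = true := allTr_mk ck_3039 c_3038_3039 rfl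

theorem c_3041_3043 : allTr (chkV P V lk) tr_3041_3043 = true := allTr_mk ck_3042 c_3041_3042 rfl

theorem c_3044_3046 : allTr (chkV P V lk) tr_3044_3046 = true := allTr_mk ck_3045 c_3044_3045 rfl

theorem c_3047_3049 : allTr (chkV P V lk) tr_3047_3049 = true := allTr_mk ck_3048 c_3047_3048 rfl

theorem c_3050_3052 : allTr (chkV P V lk) tr_3050_3052 = true := allTr_mk ck_3051 c_3050_3051 rfl

theorem c_3053_3055 : allTr (chkV P V lk) tr_3053_3055 = true := allTr_mk ck_3054 c_3053_3054 rfl

theorem c_3060_3062 : allTr (chkV P V lk) tr_3060_3062 = true := allTr_mk ck_3061 c_3060_3061 rfl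

theorem c_3063_3065 : allTr (chkV P V lk) tr_3063_3065 = true := allTr_mk ck_3064 c_3063_3064 rfl

theorem c_3066_3068 : allTr (chkV P V lk) tr_3066_3068 = true := allTr_mk ck_3067 c_3066_3067 rfl

theorem c_3069_3071 : allTr (chkV P V lk) tr_3069_3071 = true := allTr_mk ck_3070 c_3069_3070 rfl

theorem c_3072_3074 : allTr (chkV P V lk) tr_3072_3074 = true := allTr_mk ck_3073 c_3072_3073 rfl

theorem c_3075_3077 : allTr (chkV P V lk) tr_3075_3077 = true := allTr_mk ck_3076 c_3075_3076 rfl

theorem c_3078_3080 : allTr (chkV P V lk) tr_3078_3080 = true := allTr_mk ck_3079 c_3078_3079 rfl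

theorem c_3081_3083 : allTr (chkV P V lk) tr_3081_3083 = true := allTr_mk ck_3082 c_3081_3082 rfl

theorem c_3084_3086 : allTr (chkV P V lk) tr_3084_3086 = true := allTr_mk ck_3085 c_3084_3085 rfl

theorem c_3087_3089 : allTr (chkV P V lk) tr_3087_3089 = true := allTr_mk ck_3088 c_3087_3088 rfl

theorem c_3090_3092 : allTr (chkV P V lk) tr_3090_3092 = true := allTr_mk ck_3091 c_3090_3091 rfl

theorem c_3093_3095 : allTr (chkV P V lk) tr_3093_3095 = true := allTr_mk ck_3094 c_3093_3094 rfl

theorem c_3096_3098 : allTr (chkV P V lk) tr_3096_3098 = true := allTr_mk ck_3097 c_3096_3097 rfl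

theorem c_3099_3101 : allTr (chkV P V lk) tr_3099_3101 = true := allTr_mk ck_3100 c_3099_3100 rfl

theorem c_3102_3104 : allTr (chkV P V lk) tr_3102_3104 = true := allTr_mk ck_3103 c_3102_3103 rfl

theorem c_3109_3111 : allTr (chkV P V lk) tr_3109_3111 = true := allTr_mk ck_3110 c_3109_3110 rfl

theorem c_3112_3114 : allTr (chkV P V lk) tr_3112_3114 = true := allTr_mk ck_3113 c_3112_3113 rfl

theorem c_3115_3117 : allTr (chkV P V lk) tr_3115_3117 = true := allTr_mk ck_3116 c_3115_3116 rfl

theorem c_3118_3120 : allTr (chkV P V lk) tr_3118_3120 = true := allTr_mk ck_3119 c_3118_3119 rfl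

theorem c_3121_3123 : allTr (chkV P V lk) tr_3121_3123 = true := allTr_mk ck_3122 c_3121_3122 rfl

theorem c_3124_3126 : allTr (chkV P V lk) tr_3124_3126 = true := allTr_mk ck_3125 c_3124_3125 rfl

theorem c_3127_3129 : allTr (chkV P V lk) tr_3127_3129 = true := allTr_mk ck_3128 c_3127_3128 rfl

theorem c_3130_3132 : allTr (chkV P V lk) tr_3130_3132 = true := allTr_mk ck_3131 c_3130_3131 rfl

theorem c_3133_3135 : allTr (chkV P V lk) tr_3133_3135 = true := allTr_mk ck_3134 c_3133_3134 rfl

theorem c_3136_3138 : allTr (chkV P V lk) tr_3136_3138 = true := allTr_mk ck_3137 c_3136_3137 rfl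

theorem c_3139_3141 : allTr (chkV P V lk) tr_3139_3141 = true := allTr_mk ck_3140 c_3139_3140 rfl

theorem c_3142_3144 : allTr (chkV P V lk) tr_3142_3144 = true := allTr_mk ck_3143 c_3142_3143 rfl

theorem c_3145_3147 : allTr (chkV P V lk) tr_3145_3147 = true := allTr_mk ck_3146 c_3145_3146 rfl

theorem c_3148_3150 : allTr (chkV P V lk) tr_3148_3150 = true := allTr_mk ck_3149 c_3148_3149 rfl

theorem c_3151_3153 : allTr (chkV P V lk) tr_3151_3153 = true := allTr_mk ck_3152 c_3151_3152 rfl

theorem c_2071_2074 : allTr (chkV P V lk) tr_2071_2074 = true := allTr_mk ck_2072 c_2071_2072 c_2073_2074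

theorem c_2120_2123 : allTr (chkV P V lk) tr_2120_2123 = true := allTr_mk ck_2121 c_2120_2121 c_2122_2123

theorem c_2169_2172 : allTr (chkV P V lk) tr_2169_2172 = true := allTr_mk ck_2170 c_2169_2170 c_2171_2172

theorem c_2194_2197 : allTr (chkV P V lk) tr_2194_2197 = true := allTr_mk ck_2195 c_2194_2195 c_2196_2197

theorem c_2219_2222 : allTr (chkV P V lk) tr_2219_2222 = true := allTr_mk ck_2220 c_2219_2220 c_2221_2222

theorem c_2268_2271 : allTr (chkV P V lk) tr_2268_2271 = true := allTr_mk ck_2269 c_2268_2269 c_2270_2271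

theorem c_2317_2320 : allTr (chkV P V lk) tr_2317_2320 = true := allTr_mk ck_2318 c_2317_2318 c_2319_2320

theorem c_2366_2369 : allTr (chkV P V lk) tr_2366_2369 = true := allTr_mk ck_2367 c_2366_2367 c_2368_2369

theorem c_2391_2394 : allTr (chkV P V lk) tr_2391_2394 = true := allTr_mk ck_2392 c_2391_2392 c_2393_2394

theorem c_2416_2419 : allTr (chkV P V lk) tr_2416_2419 = true := allTr_mk ck_2417 c_2416_2417 c_2418_2419

theorem c_2465_2468 : allTr (chkV P V lk) tr_2465_2468 = true := allTr_mk ck_2466 c_2465_2466 c_2467_2468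

theorem c_2514_2517 : allTr (chkV P V lk) tr_2514_2517 = true := allTr_mk ck_2515 c_2514_2515 c_2516_2517

theorem c_2563_2566 : allTr (chkV P V lk) tr_2563_2566 = true := allTr_mk ck_2564 c_2563_2564 c_2565_2566

theorem c_2588_2591 : allTr (chkV P V lk) tr_2588_2591 = true := allTr_mk ck_2589 c_2588_2589 c_2590_2591

theorem c_2613_2616 : allTr (chkV P V lk) tr_2613_2616 = true := allTr_mk ck_2614 c_2613_2614 c_2615_2616

theorem c_2662_2665 : allTr (chkV P V lk) tr_2662_2665 = true := allTr_mk ck_2663 c_2662_2663 c_2664_2665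

theorem c_2711_2714 : allTr (chkV P V lk) tr_2711_2714 = true := allTr_mk ck_2712 c_2711_2712 c_2713_2714

theorem c_2760_2763 : allTr (chkV P V lk) tr_2760_2763 = true := allTr_mk ck_2761 c_2760_2761 c_2762_2763

theorem c_2785_2788 : allTr (chkV P V lk) tr_2785_2788 = true := allTr_mk ck_2786 c_2785_2786 c_2787_2788

theorem c_2810_2813 : allTr (chkV P V lk) tr_2810_2813 = true := allTr_mk ck_2811 c_2810_2811 c_2812_2813

theorem c_2859_2862 : allTr (chkV P V lk) tr_2859_2862 = true := allTr_mk ck_2860 c_2859_2860 c_2861_2862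

theorem c_2908_2911 : allTr (chkV P V lk) tr_2908_2911 = true := allTr_mk ck_2909 c_2908_2909 c_2910_2911

theorem c_2957_2960 : allTr (chkV P V lk) tr_2957_2960 = true := allTr_mk ck_2958 c_2957_2958 c_2959_2960

theorem c_2982_2985 : allTr (chkV P V lk) tr_2982_2985 = true := allTr_mk ck_2983 c_2982_2983 c_2984_2985

theorem c_3007_3010 : allTr (chkV P V lk) tr_3007_3010 = true := allTr_mk ck_3008 c_3007_3008 c_3009_3010

theorem c_3056_3059 : allTr (chkV P V lk) tr_3056_3059 = true := allTr_mk ck_3057 c_3056_3057 c_3058_3059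

theorem c_3105_3108 : allTr (chkV P V lk) tr_3105_3108 = true := allTr_mk ck_3106 c_3105_3106 c_3107_3108

theorem c_310_315 : allTr (chkV P V lk) tr_310_315 = true := allTr_mk ck_312 c_310_312 c_313_315

theorem c_322_327 : allTr (chkV P V lk) tr_322_327 = true := allTr_mk ck_324 c_322_324 c_325_327

theorem c_1621_1626 : allTr (chkV P V lk) tr_1621_1626 = true := allTr_mk ck_1623 c_1621_1623 c_1624_1626

theorem c_1634_1639 : allTr (chkV P V lk) tr_1634_1639 = true := allTr_mk ck_1636 c_1634_1636 c_1637_1639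

theorem c_1733_1738 : allTr (chkV P V lk) tr_1733_1738 = true := allTr_mk ck_1735 c_1733_1735 c_1736_1738

theorem c_1832_1837 : allTr (chkV P V lk) tr_1832_1837 = true := allTr_mk ck_1834 c_1832_1834 c_1835_1837

theorem c_1905_1910 : allTr (chkV P V lk) tr_1905_1910 = true := allTr_mk ck_1907 c_1905_1907 c_1908_1910

theorem c_1954_1959 : allTr (chkV P V lk) tr_1954_1959 = true := allTr_mk ck_1956 c_1954_1956 c_1957_1959

theorem c_2010_2015 : allTr (chkV P V lk) tr_2010_2015 = true := allTr_mk ck_2012 c_2010_2012 c_2013_2015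

theorem c_2053_2058 : allTr (chkV P V lk) tr_2053_2058 = true := allTr_mk ck_2055 c_2053_2055 c_2056_2058

theorem c_2059_2064 : allTr (chkV P V lk) tr_2059_2064 = true := allTr_mk ck_2061 c_2059_2061 c_2062_2064

theorem c_2065_2070 : allTr (chkV P V lk) tr_2065_2070 = true := allTr_mk ck_2067 c_2065_2067 c_2068_2070

theorem c_2078_2083 : allTr (chkV P V lk) tr_2078_2083 = true := allTr_mk ck_2080 c_2078_2080 c_2081_2083

theorem c_2084_2089 : allTr (chkV P V lk) tr_2084_2089 = true := allTr_mk ck_2086 c_2084_2086 c_2087_2089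

theorem c_2090_2095 : allTr (chkV P V lk) tr_2090_2095 = true := allTr_mk ck_2092 c_2090_2092 c_2093_2095

theorem c_2096_2101 : allTr (chkV P V lk) tr_2096_2101 = true := allTr_mk ck_2098 c_2096_2098 c_2099_2101

theorem c_2102_2107 : allTr (chkV P V lk) tr_2102_2107 = true := allTr_mk ck_2104 c_2102_2104 c_2105_2107

theorem c_2108_2113 : allTr (chkV P V lk) tr_2108_2113 = true := allTr_mk ck_2110 c_2108_2110 c_2111_2113

theorem c_2114_2119 : allTr (chkV P V lk) tr_2114_2119 = true := allTr_mk ck_2116 c_2114_2116 c_2117_2119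

theorem c_2127_2132 : allTr (chkV P V lk) tr_2127_2132 = true := allTr_mk ck_2129 c_2127_2129 c_2130_2132

theorem c_2133_2138 : allTr (chkV P V lk) tr_2133_2138 = true := allTr_mk ck_2135 c_2133_2135 c_2136_2138

theorem c_2139_2144 : allTr (chkV P V lk) tr_2139_2144 = true := allTr_mk ck_2141 c_2139_2141 c_2142_2144

theorem c_2145_2150 : allTr (chkV P V lk) tr_2145_2150 = true := allTr_mk ck_2147 c_2145_2147 c_2148_2150

theorem c_2151_2156 : allTr (chkV P V lk) tr_2151_2156 = true := allTr_mk ck_2153 c_2151_2153 c_2154_2156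

theorem c_2157_2162 : allTr (chkV P V lk) tr_2157_2162 = true := allTr_mk ck_2159 c_2157_2159 c_2160_2162

theorem c_2163_2168 : allTr (chkV P V lk) tr_2163_2168 = true := allTr_mk ck_2165 c_2163_2165 c_2166_2168

theorem c_2176_2181 : allTr (chkV P V lk) tr_2176_2181 = true := allTr_mk ck_2178 c_2176_2178 c_2179_2181

theorem c_2182_2187 : allTr (chkV P V lk) tr_2182_2187 = true := allTr_mk ck_2184 c_2182_2184 c_2185_2187

theorem c_2188_2193 : allTr (chkV P V lk) tr_2188_2193 = true := allTr_mk ck_2190 c_2188_2190 c_2191_2193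

theorem c_2201_2206 : allTr (chkV P V lk) tr_2201_2206 = true := allTr_mk ck_2203 c_2201_2203 c_2204_2206

theorem c_2207_2212 : allTr (chkV P V lk) tr_2207_2212 = true := allTr_mk ck_2209 c_2207_2209 c_2210_2212

theorem c_2213_2218 : allTr (chkV P V lk) tr_2213_2218 = true := allTr_mk ck_2215 c_2213_2215 c_2216_2218

theorem c_2226_2231 : allTr (chkV P V lk) tr_2226_2231 = true := allTr_mk ck_2228 c_2226_2228 c_2229_2231

theorem c_2232_2237 : allTr (chkV P V lk) tr_2232_2237 = true := allTr_mk ck_2234 c_2232_2234 c_2235_2237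

theorem c_2238_2243 : allTr (chkV P V lk) tr_2238_2243 = true := allTr_mk ck_2240 c_2238_2240 c_2241_2243

theorem c_2244_2249 : allTr (chkV P V lk) tr_2244_2249 = true := allTr_mk ck_2246 c_2244_2246 c_2247_2249

theorem c_2250_2255 : allTr (chkV P V lk) tr_2250_2255 = true := allTr_mk ck_2252 c_2250_2252 c_2253_2255

theorem c_2256_2261 : allTr (chkV P V lk) tr_2256_2261 = true := allTr_mk ck_2258 c_2256_2258 c_2259_2261

theorem c_2262_2267 : allTr (chkV P V lk) tr_2262_2267 = true := allTr_mk ck_2264 c_2262_2264 c_2265_2267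

theorem c_2275_2280 : allTr (chkV P V lk) tr_2275_2280 = true := allTr_mk ck_2277 c_2275_2277 c_2278_2280

theorem c_2299_2304 : allTr (chkV P V lk) tr_2299_2304 = true := allTr_mk ck_2301 c_2299_2301 c_2302_2304

theorem c_2305_2310 : allTr (chkV P V lk) tr_2305_2310 = true := allTr_mk ck_2307 c_2305_2307 c_2308_2310

theorem c_2311_2316 : allTr (chkV P V lk) tr_2311_2316 = true := allTr_mk ck_2313 c_2311_2313 c_2314_2316

theorem c_2324_2329 : allTr (chkV P V lk) tr_2324_2329 = true := allTr_mk ck_2326 c_2324_2326 c_2327_2329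

theorem c_2330_2335 : allTr (chkV P V lk) tr_2330_2335 = true := allTr_mk ck_2332 c_2330_2332 c_2333_2335

theorem c_2336_2341 : allTr (chkV P V lk) tr_2336_2341 = true := allTr_mk ck_2338 c_2336_2338 c_2339_2341

theorem c_2342_2347 : allTr (chkV P V lk) tr_2342_2347 = true := allTr_mk ck_2344 c_2342_2344 c_2345_2347

theorem c_2348_2353 : allTr (chkV P V lk) tr_2348_2353 = true := allTr_mk ck_2350 c_2348_2350 c_2351_2353

theorem c_2354_2359 : allTr (chkV P V lk) tr_2354_2359 = true := allTr_mk ck_2356 c_2354_2356 c_2357_2359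

theorem c_2360_2365 : allTr (chkV P V lk) tr_2360_2365 = true := allTr_mk ck_2362 c_2360_2362 c_2363_2365

theorem c_2373_2378 : allTr (chkV P V lk) tr_2373_2378 = true := allTr_mk ck_2375 c_2373_2375 c_2376_2378

theorem c_2379_2384 : allTr (chkV P V lk) tr_2379_2384 = true := allTr_mk ck_2381 c_2379_2381 c_2382_2384

theorem c_2385_2390 : allTr (chkV P V lk) tr_2385_2390 = true := allTr_mk ck_2387 c_2385_2387 c_2388_2390

theorem c_2398_2403 : allTr (chkV P V lk) tr_2398_2403 = true := allTr_mk ck_2400 c_2398_2400 c_2401_2403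

theorem c_2404_2409 : allTr (chkV P V lk) tr_2404_2409 = true := allTr_mk ck_2406 c_2404_2406 c_2407_2409

theorem c_2410_2415 : allTr (chkV P V lk) tr_2410_2415 = true := allTr_mk ck_2412 c_2410_2412 c_2413_2415

theorem c_2423_2428 : allTr (chkV P V lk) tr_2423_2428 = true := allTr_mk ck_2425 c_2423_2425 c_2426_2428

theorem c_2429_2434 : allTr (chkV P V lk) tr_2429_2434 = true := allTr_mk ck_2431 c_2429_2431 c_2432_2434

theorem c_2435_2440 : allTr (chkV P V lk) tr_2435_2440 = true := allTr_mk ck_2437 c_2435_2437 c_2438_2440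

theorem c_2441_2446 : allTr (chkV P V lk) tr_2441_2446 = true := allTr_mk ck_2443 c_2441_2443 c_2444_2446

theorem c_2447_2452 : allTr (chkV P V lk) tr_2447_2452 = true := allTr_mk ck_2449 c_2447_2449 c_2450_2452

theorem c_2453_2458 : allTr (chkV P V lk) tr_2453_2458 = true := allTr_mk ck_2455 c_2453_2455 c_2456_2458

theorem c_2459_2464 : allTr (chkV P V lk) tr_2459_2464 = true := allTr_mk ck_2461 c_2459_2461 c_2462_2464

theorem c_2472_2477 : allTr (chkV P V lk) tr_2472_2477 = true := allTr_mk ck_2474 c_2472_2474 c_2475_2477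

theorem c_2478_2483 : allTr (chkV P V lk) tr_2478_2483 = true := allTr_mk ck_2480 c_2478_2480 c_2481_2483

theorem c_2484_2489 : allTr (chkV P V lk) tr_2484_2489 = true := allTr_mk ck_2486 c_2484_2486 c_2487_2489

theorem c_2490_2495 : allTr (chkV P V lk) tr_2490_2495 = true := allTr_mk ck_2492 c_2490_2492 c_2493_2495

theorem c_2496_2501 : allTr (chkV P V lk) tr_2496_2501 = true := allTr_mk ck_2498 c_2496_2498 c_2499_2501

theorem c_2502_2507 : allTr (chkV P V lk) tr_2502_2507 = true := allTr_mk ck_2504 c_2502_2504 c_2505_2507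

theorem c_2508_2513 : allTr (chkV P V lk) tr_2508_2513 = true := allTr_mk ck_2510 c_2508_2510 c_2511_2513

theorem c_2521_2526 : allTr (chkV P V lk) tr_2521_2526 = true := allTr_mk ck_2523 c_2521_2523 c_2524_2526

theorem c_2527_2532 : allTr (chkV P V lk) tr_2527_2532 = true := allTr_mk ck_2529 c_2527_2529 c_2530_2532

theorem c_2533_2538 : allTr (chkV P V lk) tr_2533_2538 = true := allTr_mk ck_2535 c_2533_2535 c_2536_2538

theorem c_2539_2544 : allTr (chkV P V lk) tr_2539_2544 = true := allTr_mk ck_2541 c_2539_2541 c_2542_2544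

theorem c_2545_2550 : allTr (chkV P V lk) tr_2545_2550 = true := allTr_mk ck_2547 c_2545_2547 c_2548_2550

theorem c_2551_2556 : allTr (chkV P V lk) tr_2551_2556 = true := allTr_mk ck_2553 c_2551_2553 c_2554_2556

theorem c_2557_2562 : allTr (chkV P V lk) tr_2557_2562 = true := allTr_mk ck_2559 c_2557_2559 c_2560_2562

theorem c_2570_2575 : allTr (chkV P V lk) tr_2570_2575 = true := allTr_mk ck_2572 c_2570_2572 c_2573_2575

theorem c_2576_2581 : allTr (chkV P V lk) tr_2576_2581 = true := allTr_mk ck_2578 c_2576_2578 c_2579_2581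

theorem c_2582_2587 : allTr (chkV P V lk) tr_2582_2587 = true := allTr_mk ck_2584 c_2582_2584 c_2585_2587

theorem c_2595_2600 : allTr (chkV P V lk) tr_2595_2600 = true := allTr_mk ck_2597 c_2595_2597 c_2598_2600

theorem c_2601_2606 : allTr (chkV P V lk) tr_2601_2606 = true := allTr_mk ck_2603 c_2601_2603 c_2604_2606

theorem c_2607_2612 : allTr (chkV P V lk) tr_2607_2612 = true := allTr_mk ck_2609 c_2607_2609 c_2610_2612

theorem c_2620_2625 : allTr (chkV P V lk) tr_2620_2625 = true := allTr_mk ck_2622 c_2620_2622 c_2623_2625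

theorem c_2626_2631 : allTr (chkV P V lk) tr_2626_2631 = true := allTr_mk ck_2628 c_2626_2628 c_2629_2631

theorem c_2632_2637 : allTr (chkV P V lk) tr_2632_2637 = true := allTr_mk ck_2634 c_2632_2634 c_2635_2637

theorem c_2638_2643 : allTr (chkV P V lk) tr_2638_2643 = true := allTr_mk ck_2640 c_2638_2640 c_2641_2643

theorem c_2644_2649 : allTr (chkV P V lk) tr_2644_2649 = true := allTr_mk ck_2646 c_2644_2646 c_2647_2649

theorem c_2650_2655 : allTr (chkV P V lk) tr_2650_2655 = true := allTr_mk ck_2652 c_2650_2652 c_2653_2655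

theorem c_2656_2661 : allTr (chkV P V lk) tr_2656_2661 = true := allTr_mk ck_2658 c_2656_2658 c_2659_2661

theorem c_2669_2674 : allTr (chkV P V lk) tr_2669_2674 = true := allTr_mk ck_2671 c_2669_2671 c_2672_2674

theorem c_2675_2680 : allTr (chkV P V lk) tr_2675_2680 = true := allTr_mk ck_2677 c_2675_2677 c_2678_2680

theorem c_2681_2686 : allTr (chkV P V lk) tr_2681_2686 = true := allTr_mk ck_2683 c_2681_2683 c_2684_2686

theorem c_2687_2692 : allTr (chkV P V lk) tr_2687_2692 = true := allTr_mk ck_2689 c_2687_2689 c_2690_2692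

theorem c_2693_2698 : allTr (chkV P V lk) tr_2693_2698 = true := allTr_mk ck_2695 c_2693_2695 c_2696_2698

theorem c_2699_2704 : allTr (chkV P V lk) tr_2699_2704 = true := allTr_mk ck_2701 c_2699_2701 c_2702_2704

theorem c_2705_2710 : allTr (chkV P V lk) tr_2705_2710 = true := allTr_mk ck_2707 c_2705_2707 c_2708_2710

theorem c_2718_2723 : allTr (chkV P V lk) tr_2718_2723 = true := allTr_mk ck_2720 c_2718_2720 c_2721_2723

theorem c_2724_2729 : allTr (chkV P V lk) tr_2724_2729 = true := allTr_mk ck_2726 c_2724_2726 c_2727_2729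

theorem c_2730_2735 : allTr (chkV P V lk) tr_2730_2735 = true := allTr_mk ck_2732 c_2730_2732 c_2733_2735

theorem c_2736_2741 : allTr (chkV P V lk) tr_2736_2741 = true := allTr_mk ck_2738 c_2736_2738 c_2739_2741

theorem c_2742_2747 : allTr (chkV P V lk) tr_2742_2747 = true := allTr_mk ck_2744 c_2742_2744 c_2745_2747

theorem c_2748_2753 : allTr (chkV P V lk) tr_2748_2753 = true := allTr_mk ck_2750 c_2748_2750 c_2751_2753

theorem c_2754_2759 : allTr (chkV P V lk) tr_2754_2759 = true := allTr_mk ck_2756 c_2754_2756 c_2757_2759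

theorem c_2767_2772 : allTr (chkV P V lk) tr_2767_2772 = true := allTr_mk ck_2769 c_2767_2769 c_2770_2772

theorem c_2773_2778 : allTr (chkV P V lk) tr_2773_2778 = true := allTr_mk ck_2775 c_2773_2775 c_2776_2778

theorem c_2779_2784 : allTr (chkV P V lk) tr_2779_2784 = true := allTr_mk ck_2781 c_2779_2781 c_2782_2784

theorem c_2792_2797 : allTr (chkV P V lk) tr_2792_2797 = true := allTr_mk ck_2794 c_2792_2794 c_2795_2797

theorem c_2798_2803 : allTr (chkV P V lk) tr_2798_2803 = true := allTr_mk ck_2800 c_2798_2800 c_2801_2803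

theorem c_2804_2809 : allTr (chkV P V lk) tr_2804_2809 = true := allTr_mk ck_2806 c_2804_2806 c_2807_2809

theorem c_2817_2822 : allTr (chkV P V lk) tr_2817_2822 = true := allTr_mk ck_2819 c_2817_2819 c_2820_2822

theorem c_2823_2828 : allTr (chkV P V lk) tr_2823_2828 = true := allTr_mk ck_2825 c_2823_2825 c_2826_2828

theorem c_2829_2834 : allTr (chkV P V lk) tr_2829_2834 = true := allTr_mk ck_2831 c_2829_2831 c_2832_2834

theorem c_2835_2840 : allTr (chkV P V lk) tr_2835_2840 = true := allTr_mk ck_2837 c_2835_2837 c_2838_2840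

theorem c_2841_2846 : allTr (chkV P V lk) tr_2841_2846 = true := allTr_mk ck_2843 c_2841_2843 c_2844_2846

theorem c_2847_2852 : allTr (chkV P V lk) tr_2847_2852 = true := allTr_mk ck_2849 c_2847_2849 c_2850_2852

theorem c_2853_2858 : allTr (chkV P V lk) tr_2853_2858 = true := allTr_mk ck_2855 c_2853_2855 c_2856_2858

theorem c_2866_2871 : allTr (chkV P V lk) tr_2866_2871 = true := allTr_mk ck_2868 c_2866_2868 c_2869_2871

theorem c_2872_2877 : allTr (chkV P V lk) tr_2872_2877 = true := allTr_mk ck_2874 c_2872_2874 c_2875_2877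

theorem c_2878_2883 : allTr (chkV P V lk) tr_2878_2883 = true := allTr_mk ck_2880 c_2878_2880 c_2881_2883

theorem c_2884_2889 : allTr (chkV P V lk) tr_2884_2889 = true := allTr_mk ck_2886 c_2884_2886 c_2887_2889

theorem c_2890_2895 : allTr (chkV P V lk) tr_2890_2895 = true := allTr_mk ck_2892 c_2890_2892 c_2893_2895

theorem c_2896_2901 : allTr (chkV P V lk) tr_2896_2901 = true := allTr_mk ck_2898 c_2896_2898 c_2899_2901

theorem c_2902_2907 : allTr (chkV P V lk) tr_2902_2907 = true := allTr_mk ck_2904 c_2902_2904 c_2905_2907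

theorem c_2915_2920 : allTr (chkV P V lk) tr_2915_2920 = true := allTr_mk ck_2917 c_2915_2917 c_2918_2920

theorem c_2921_2926 : allTr (chkV P V lk) tr_2921_2926 = true := allTr_mk ck_2923 c_2921_2923 c_2924_2926

theorem c_2927_2932 : allTr (chkV P V lk) tr_2927_2932 = true := allTr_mk ck_2929 c_2927_2929 c_2930_2932

theorem c_2933_2938 : allTr (chkV P V lk) tr_2933_2938 = true := allTr_mk ck_2935 c_2933_2935 c_2936_2938

theorem c_2939_2944 : allTr (chkV P V lk) tr_2939_2944 = true := allTr_mk ck_2941 c_2939_2941 c_2942_2944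

theorem c_2945_2950 : allTr (chkV P V lk) tr_2945_2950 = true := allTr_mk ck_2947 c_2945_2947 c_2948_2950

theorem c_2951_2956 : allTr (chkV P V lk) tr_2951_2956 = true := allTr_mk ck_2953 c_2951_2953 c_2954_2956

theorem c_2964_2969 : allTr (chkV P V lk) tr_2964_2969 = true := allTr_mk ck_2966 c_2964_2966 c_2967_2969

theorem c_2970_2975 : allTr (chkV P V lk) tr_2970_2975 = true := allTr_mk ck_2972 c_2970_2972 c_2973_2975

theorem c_2976_2981 : allTr (chkV P V lk) tr_2976_2981 = true := allTr_mk ck_2978 c_2976_2978 c_2979_2981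

theorem c_2989_2994 : allTr (chkV P V lk) tr_2989_2994 = true := allTr_mk ck_2991 c_2989_2991 c_2992_2994

theorem c_2995_3000 : allTr (chkV P V lk) tr_2995_3000 = true := allTr_mk ck_2997 c_2995_2997 c_2998_3000

theorem c_3001_3006 : allTr (chkV P V lk) tr_3001_3006 = true := allTr_mk ck_3003 c_3001_3003 c_3004_3006

theorem c_3014_3019 : allTr (chkV P V lk) tr_3014_3019 = true := allTr_mk ck_3016 c_3014_3016 c_3017_3019

theorem c_3020_3025 : allTr (chkV P V lk) tr_3020_3025 = true := allTr_mk ck_3022 c_3020_3022 c_3023_3025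

theorem c_3026_3031 : allTr (chkV P V lk) tr_3026_3031 = true := allTr_mk ck_3028 c_3026_3028 c_3029_3031

theorem c_3032_3037 : allTr (chkV P V lk) tr_3032_3037 = true := allTr_mk ck_3034 c_3032_3034 c_3035_3037

theorem c_3038_3043 : allTr (chkV P V lk) tr_3038_3043 = true := allTr_mk ck_3040 c_3038_3040 c_3041_3043

theorem c_3044_3049 : allTr (chkV P V lk) tr_3044_3049 = true := allTr_mk ck_3046 c_3044_3046 c_3047_3049

theorem c_3050_3055 : allTr (chkV P V lk) tr_3050_3055 = true := allTr_mk ck_3052 c_3050_3052 c_3053_3055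

theorem c_3063_3068 : allTr (chkV P V lk) tr_3063_3068 = true := allTr_mk ck_3065 c_3063_3065 c_3066_3068

theorem c_3069_3074 : allTr (chkV P V lk) tr_3069_3074 = true := allTr_mk ck_3071 c_3069_3071 c_3072_3074

theorem c_3075_3080 : allTr (chkV P V lk) tr_3075_3080 = true := allTr_mk ck_3077 c_3075_3077 c_3078_3080

theorem c_3081_3086 : allTr (chkV P V lk) tr_3081_3086 = true := allTr_mk ck_3083 c_3081_3083 c_3084_3086

theorem c_3087_3092 : allTr (chkV P V lk) tr_3087_3092 = true := allTr_mk ck_3089 c_3087_3089 c_3090_3092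

theorem c_3093_3098 : allTr (chkV P V lk) tr_3093_3098 = true := allTr_mk ck_3095 c_3093_3095 c_3096_3098

theorem c_3099_3104 : allTr (chkV P V lk) tr_3099_3104 = true := allTr_mk ck_3101 c_3099_3101 c_3102_3104

theorem c_3112_3117 : allTr (chkV P V lk) tr_3112_3117 = true := allTr_mk ck_3114 c_3112_3114 c_3115_3117

theorem c_3118_3123 : allTr (chkV P V lk) tr_3118_3123 = true := allTr_mk ck_3120 c_3118_3120 c_3121_3123

theorem c_3124_3129 : allTr (chkV P V lk) tr_3124_3129 = true := allTr_mk ck_3126 c_3124_3126 c_3127_3129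

theorem c_3130_3135 : allTr (chkV P V lk) tr_3130_3135 = true := allTr_mk ck_3132 c_3130_3132 c_3133_3135

theorem c_3136_3141 : allTr (chkV P V lk) tr_3136_3141 = true := allTr_mk ck_3138 c_3136_3138 c_3139_3141

theorem c_3142_3147 : allTr (chkV P V lk) tr_3142_3147 = true := allTr_mk ck_3144 c_3142_3144 c_3145_3147

theorem c_3148_3153 : allTr (chkV P V lk) tr_3148_3153 = true := allTr_mk ck_3150 c_3148_3150 c_3151_3153

theorem c_1577_1583 : allTr (chkV P V lk) tr_1577_1583 = true := allTr_mk ck_1580 c_1577_1580 c_1581_1583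

theorem c_1800_1806 : allTr (chkV P V lk) tr_1800_1806 = true := allTr_mk ck_1803 c_1800_1803 c_1804_1806

theorem c_2071_2077 : allTr (chkV P V lk) tr_2071_2077 = true := allTr_mk ck_2074 c_2071_2074 c_2075_2077

theorem c_2120_2126 : allTr (chkV P V lk) tr_2120_2126 = true := allTr_mk ck_2123 c_2120_2123 c_2124_2126

theorem c_2169_2175 : allTr (chkV P V lk) tr_2169_2175 = true := allTr_mk ck_2172 c_2169_2172 c_2173_2175

theorem c_2194_2200 : allTr (chkV P V lk) tr_2194_2200 = true := allTr_mk ck_2197 c_2194_2197 c_2198_2200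

theorem c_2219_2225 : allTr (chkV P V lk) tr_2219_2225 = true := allTr_mk ck_2222 c_2219_2222 c_2223_2225

theorem c_2268_2274 : allTr (chkV P V lk) tr_2268_2274 = true := allTr_mk ck_2271 c_2268_2271 c_2272_2274

theorem c_2317_2323 : allTr (chkV P V lk) tr_2317_2323 = true := allTr_mk ck_2320 c_2317_2320 c_2321_2323

theorem c_2366_2372 : allTr (chkV P V lk) tr_2366_2372 = true := allTr_mk ck_2369 c_2366_2369 c_2370_2372

theorem c_2391_2397 : allTr (chkV P V lk) tr_2391_2397 = true := allTr_mk ck_2394 c_2391_2394 c_2395_2397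

theorem c_2416_2422 : allTr (chkV P V lk) tr_2416_2422 = true := allTr_mk ck_2419 c_2416_2419 c_2420_2422

theorem c_2465_2471 : allTr (chkV P V lk) tr_2465_2471 = true := allTr_mk ck_2468 c_2465_2468 c_2469_2471

theorem c_2514_2520 : allTr (chkV P V lk) tr_2514_2520 = true := allTr_mk ck_2517 c_2514_2517 c_2518_2520

theorem c_2563_2569 : allTr (chkV P V lk) tr_2563_2569 = true := allTr_mk ck_2566 c_2563_2566 c_2567_2569

theorem c_2588_2594 : allTr (chkV P V lk) tr_2588_2594 = true := allTr_mk ck_2591 c_2588_2591 c_2592_2594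

theorem c_2613_2619 : allTr (chkV P V lk) tr_2613_2619 = true := allTr_mk ck_2616 c_2613_2616 c_2617_2619

theorem c_2662_2668 : allTr (chkV P V lk) tr_2662_2668 = true := allTr_mk ck_2665 c_2662_2665 c_2666_2668

theorem c_2711_2717 : allTr (chkV P V lk) tr_2711_2717 = true := allTr_mk ck_2714 c_2711_2714 c_2715_2717

theorem c_2760_2766 : allTr (chkV P V lk) tr_2760_2766 = true := allTr_mk ck_2763 c_2760_2763 c_2764_2766

theorem c_2785_2791 : allTr (chkV P V lk) tr_2785_2791 = true := allTr_mk ck_2788 c_2785_2788 c_2789_2791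

theorem c_2810_2816 : allTr (chkV P V lk) tr_2810_2816 = true := allTr_mk ck_2813 c_2810_2813 c_2814_2816

theorem c_2859_2865 : allTr (chkV P V lk) tr_2859_2865 = true := allTr_mk ck_2862 c_2859_2862 c_2863_2865

theorem c_2908_2914 : allTr (chkV P V lk) tr_2908_2914 = true := allTr_mk ck_2911 c_2908_2911 c_2912_2914

theorem c_2957_2963 : allTr (chkV P V lk) tr_2957_2963 = true := allTr_mk ck_2960 c_2957_2960 c_2961_2963

theorem c_2982_2988 : allTr (chkV P V lk) tr_2982_2988 = true := allTr_mk ck_2985 c_2982_2985 c_2986_2988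

theorem c_3007_3013 : allTr (chkV P V lk) tr_3007_3013 = true := allTr_mk ck_3010 c_3007_3010 c_3011_3013

theorem c_3056_3062 : allTr (chkV P V lk) tr_3056_3062 = true := allTr_mk ck_3059 c_3056_3059 c_3060_3062

theorem c_3105_3111 : allTr (chkV P V lk) tr_3105_3111 = true := allTr_mk ck_3108 c_3105_3108 c_3109_3111

theorem c_236_247 : allTr (chkV P V lk) tr_236_247 = true := allTr_mk ck_241 c_236_241 c_242_247

theorem c_310_321 : allTr (chkV P V lk) tr_310_321 = true := allTr_mk ck_315 c_310_315 c_316_321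

theorem c_322_333 : allTr (chkV P V lk) tr_322_333 = true := allTr_mk ck_327 c_322_327 c_328_333

theorem c_433_444 : allTr (chkV P V lk) tr_433_444 = true := allTr_mk ck_438 c_433_438 c_439_444

theorem c_568_579 : allTr (chkV P V lk) tr_568_579 = true := allTr_mk ck_573 c_568_573 c_574_579

theorem c_655_666 : allTr (chkV P V lk) tr_655_666 = true := allTr_mk ck_660 c_655_660 c_661_666

theorem c_667_678 : allTr (chkV P V lk) tr_667_678 = true := allTr_mk ck_672 c_667_672 c_673_678

theorem c_679_690 : allTr (chkV P V lk) tr_679_690 = true := allTr_mk ck_684 c_679_684 c_685_690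

theorem c_827_838 : allTr (chkV P V lk) tr_827_838 = true := allTr_mk ck_832 c_827_832 c_833_838

theorem c_950_961 : allTr (chkV P V lk) tr_950_961 = true := allTr_mk ck_955 c_950_955 c_956_961

theorem c_999_1010 : allTr (chkV P V lk) tr_999_1010 = true := allTr_mk ck_1004 c_999_1004 c_1005_1010

theorem c_1098_1109 : allTr (chkV P V lk) tr_1098_1109 = true := allTr_mk ck_1103 c_1098_1103 c_1104_1109

theorem c_1110_1121 : allTr (chkV P V lk) tr_1110_1121 = true := allTr_mk ck_1115 c_1110_1115 c_1116_1121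

theorem c_1159_1170 : allTr (chkV P V lk) tr_1159_1170 = true := allTr_mk ck_1164 c_1159_1164 c_1165_1170

theorem c_1246_1257 : allTr (chkV P V lk) tr_1246_1257 = true := allTr_mk ck_1251 c_1246_1251 c_1252_1257

theorem c_1258_1269 : allTr (chkV P V lk) tr_1258_1269 = true := allTr_mk ck_1263 c_1258_1263 c_1264_1269

theorem c_1295_1306 : allTr (chkV P V lk) tr_1295_1306 = true := allTr_mk ck_1300 c_1295_1300 c_1301_1306

theorem c_1418_1429 : allTr (chkV P V lk) tr_1418_1429 = true := allTr_mk ck_1423 c_1418_1423 c_1424_1429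

theorem c_1443_1454 : allTr (chkV P V lk) tr_1443_1454 = true := allTr_mk ck_1448 c_1443_1448 c_1449_1454

theorem c_1492_1503 : allTr (chkV P V lk) tr_1492_1503 = true := allTr_mk ck_1497 c_1492_1497 c_1498_1503

theorem c_1615_1626 : allTr (chkV P V lk) tr_1615_1626 = true := allTr_mk ck_1620 c_1615_1620 c_1621_1626

theorem c_1640_1651 : allTr (chkV P V lk) tr_1640_1651 = true := allTr_mk ck_1645 c_1640_1645 c_1646_1651

theorem c_1652_1663 : allTr (chkV P V lk) tr_1652_1663 = true := allTr_mk ck_1657 c_1652_1657 c_1658_1663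

theorem c_1739_1750 : allTr (chkV P V lk) tr_1739_1750 = true := allTr_mk ck_1744 c_1739_1744 c_1745_1750

theorem c_1763_1774 : allTr (chkV P V lk) tr_1763_1774 = true := allTr_mk ck_1768 c_1763_1768 c_1769_1774

theorem c_1788_1799 : allTr (chkV P V lk) tr_1788_1799 = true := allTr_mk ck_1793 c_1788_1793 c_1794_1799

theorem c_1899_1910 : allTr (chkV P V lk) tr_1899_1910 = true := allTr_mk ck_1904 c_1899_1904 c_1905_1910

theorem c_1948_1959 : allTr (chkV P V lk) tr_1948_1959 = true := allTr_mk ck_1953 c_1948_1953 c_1954_1959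

theorem c_1960_1971 : allTr (chkV P V lk) tr_1960_1971 = true := allTr_mk ck_1965 c_1960_1965 c_1966_1971

theorem c_2010_2021 : allTr (chkV P V lk) tr_2010_2021 = true := allTr_mk ck_2015 c_2010_2015 c_2016_2021

theorem c_2047_2058 : allTr (chkV P V lk) tr_2047_2058 = true := allTr_mk ck_2052 c_2047_2052 c_2053_2058

theorem c_2059_2070 : allTr (chkV P V lk) tr_2059_2070 = true := allTr_mk ck_2064 c_2059_2064 c_2065_2070

theorem c_2084_2095 : allTr (chkV P V lk) tr_2084_2095 = true := allTr_mk ck_2089 c_2084_2089 c_2090_2095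

theorem c_2096_2107 : allTr (chkV P V lk) tr_2096_2107 = true := allTr_mk ck_2101 c_2096_2101 c_2102_2107

theorem c_2108_2119 : allTr (chkV P V lk) tr_2108_2119 = true := allTr_mk ck_2113 c_2108_2113 c_2114_2119

theorem c_2133_2144 : allTr (chkV P V lk) tr_2133_2144 = true := allTr_mk ck_2138 c_2133_2138 c_2139_2144

theorem c_2145_2156 : allTr (chkV P V lk) tr_2145_2156 = true := allTr_mk ck_2150 c_2145_2150 c_2151_2156

theorem c_2157_2168 : allTr (chkV P V lk) tr_2157_2168 = true := allTr_mk ck_2162 c_2157_2162 c_2163_2168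

theorem c_2182_2193 : allTr (chkV P V lk) tr_2182_2193 = true := allTr_mk ck_2187 c_2182_2187 c_2188_2193

theorem c_2207_2218 : allTr (chkV P V lk) tr_2207_2218 = true := allTr_mk ck_2212 c_2207_2212 c_2213_2218

theorem c_2232_2243 : allTr (chkV P V lk) tr_2232_2243 = true := allTr_mk ck_2237 c_2232_2237 c_2238_2243

theorem c_2244_2255 : allTr (chkV P V lk) tr_2244_2255 = true := allTr_mk ck_2249 c_2244_2249 c_2250_2255

theorem c_2256_2267 : allTr (chkV P V lk) tr_2256_2267 = true := allTr_mk ck_2261 c_2256_2261 c_2262_2267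

theorem c_2293_2304 : allTr (chkV P V lk) tr_2293_2304 = true := allTr_mk ck_2298 c_2293_2298 c_2299_2304

theorem c_2305_2316 : allTr (chkV P V lk) tr_2305_2316 = true := allTr_mk ck_2310 c_2305_2310 c_2311_2316

theorem c_2330_2341 : allTr (chkV P V lk) tr_2330_2341 = true := allTr_mk ck_2335 c_2330_2335 c_2336_2341

theorem c_2342_2353 : allTr (chkV P V lk) tr_2342_2353 = true := allTr_mk ck_2347 c_2342_2347 c_2348_2353

theorem c_2354_2365 : allTr (chkV P V lk) tr_2354_2365 = true := allTr_mk ck_2359 c_2354_2359 c_2360_2365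

theorem c_2379_2390 : allTr (chkV P V lk) tr_2379_2390 = true := allTr_mk ck_2384 c_2379_2384 c_2385_2390

theorem c_2404_2415 : allTr (chkV P V lk) tr_2404_2415 = true := allTr_mk ck_2409 c_2404_2409 c_2410_2415

theorem c_2429_2440 : allTr (chkV P V lk) tr_2429_2440 = true := allTr_mk ck_2434 c_2429_2434 c_2435_2440

theorem c_2441_2452 : allTr (chkV P V lk) tr_2441_2452 = true := allTr_mk ck_2446 c_2441_2446 c_2447_2452

theorem c_2453_2464 : allTr (chkV P V lk) tr_2453_2464 = true := allTr_mk ck_2458 c_2453_2458 c_2459_2464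

theorem c_2478_2489 : allTr (chkV P V lk) tr_2478_2489 = true := allTr_mk ck_2483 c_2478_2483 c_2484_2489

theorem c_2490_2501 : allTr (chkV P V lk) tr_2490_2501 = true := allTr_mk ck_2495 c_2490_2495 c_2496_2501

theorem c_2502_2513 : allTr (chkV P V lk) tr_2502_2513 = true := allTr_mk ck_2507 c_2502_2507 c_2508_2513

theorem c_2527_2538 : allTr (chkV P V lk) tr_2527_2538 = true := allTr_mk ck_2532 c_2527_2532 c_2533_2538

theorem c_2539_2550 : allTr (chkV P V lk) tr_2539_2550 = true := allTr_mk ck_2544 c_2539_2544 c_2545_2550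

theorem c_2551_2562 : allTr (chkV P V lk) tr_2551_2562 = true := allTr_mk ck_2556 c_2551_2556 c_2557_2562

theorem c_2576_2587 : allTr (chkV P V lk) tr_2576_2587 = true := allTr_mk ck_2581 c_2576_2581 c_2582_2587

theorem c_2601_2612 : allTr (chkV P V lk) tr_2601_2612 = true := allTr_mk ck_2606 c_2601_2606 c_2607_2612

theorem c_2626_2637 : allTr (chkV P V lk) tr_2626_2637 = true := allTr_mk ck_2631 c_2626_2631 c_2632_2637

theorem c_2638_2649 : allTr (chkV P V lk) tr_2638_2649 = true := allTr_mk ck_2643 c_2638_2643 c_2644_2649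

theorem c_2650_2661 : allTr (chkV P V lk) tr_2650_2661 = true := allTr_mk ck_2655 c_2650_2655 c_2656_2661

theorem c_2675_2686 : allTr (chkV P V lk) tr_2675_2686 = true := allTr_mk ck_2680 c_2675_2680 c_2681_2686

theorem c_2687_2698 : allTr (chkV P V lk) tr_2687_2698 = true := allTr_mk ck_2692 c_2687_2692 c_2693_2698

theorem c_2699_2710 : allTr (chkV P V lk) tr_2699_2710 = true := allTr_mk ck_2704 c_2699_2704 c_2705_2710

theorem c_2724_2735 : allTr (chkV P V lk) tr_2724_2735 = true := allTr_mk ck_2729 c_2724_2729 c_2730_2735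

theorem c_2736_2747 : allTr (chkV P V lk) tr_2736_2747 = true := allTr_mk ck_2741 c_2736_2741 c_2742_2747

theorem c_2748_2759 : allTr (chkV P V lk) tr_2748_2759 = true := allTr_mk ck_2753 c_2748_2753 c_2754_2759

theorem c_2773_2784 : allTr (chkV P V lk) tr_2773_2784 = true := allTr_mk ck_2778 c_2773_2778 c_2779_2784

theorem c_2798_2809 : allTr (chkV P V lk) tr_2798_2809 = true := allTr_mk ck_2803 c_2798_2803 c_2804_2809

theorem c_2823_2834 : allTr (chkV P V lk) tr_2823_2834 = true := allTr_mk ck_2828 c_2823_2828 c_2829_2834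

theorem c_2835_2846 : allTr (chkV P V lk) tr_2835_2846 = true := allTr_mk ck_2840 c_2835_2840 c_2841_2846

theorem c_2847_2858 : allTr (chkV P V lk) tr_2847_2858 = true := allTr_mk ck_2852 c_2847_2852 c_2853_2858

theorem c_2872_2883 : allTr (chkV P V lk) tr_2872_2883 = true := allTr_mk ck_2877 c_2872_2877 c_2878_2883

theorem c_2884_2895 : allTr (chkV P V lk) tr_2884_2895 = true := allTr_mk ck_2889 c_2884_2889 c_2890_2895

theorem c_2896_2907 : allTr (chkV P V lk) tr_2896_2907 = true := allTr_mk ck_2901 c_2896_2901 c_2902_2907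

theorem c_2921_2932 : allTr (chkV P V lk) tr_2921_2932 = true := allTr_mk ck_2926 c_2921_2926 c_2927_2932

theorem c_2933_2944 : allTr (chkV P V lk) tr_2933_2944 = true := allTr_mk ck_2938 c_2933_2938 c_2939_2944

theorem c_2945_2956 : allTr (chkV P V lk) tr_2945_2956 = true := allTr_mk ck_2950 c_2945_2950 c_2951_2956

theorem c_2970_2981 : allTr (chkV P V lk) tr_2970_2981 = true := allTr_mk ck_2975 c_2970_2975 c_2976_2981

theorem c_2995_3006 : allTr (chkV P V lk) tr_2995_3006 = true := allTr_mk ck_3000 c_2995_3000 c_3001_3006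

theorem c_3020_3031 : allTr (chkV P V lk) tr_3020_3031 = true := allTr_mk ck_3025 c_3020_3025 c_3026_3031

theorem c_3032_3043 : allTr (chkV P V lk) tr_3032_3043 = true := allTr_mk ck_3037 c_3032_3037 c_3038_3043

theorem c_3044_3055 : allTr (chkV P V lk) tr_3044_3055 = true := allTr_mk ck_3049 c_3044_3049 c_3050_3055

theorem c_3069_3080 : allTr (chkV P V lk) tr_3069_3080 = true := allTr_mk ck_3074 c_3069_3074 c_3075_3080

theorem c_3081_3092 : allTr (chkV P V lk) tr_3081_3092 = true := allTr_mk ck_3086 c_3081_3086 c_3087_3092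

theorem c_3093_3104 : allTr (chkV P V lk) tr_3093_3104 = true := allTr_mk ck_3098 c_3093_3098 c_3099_3104

theorem c_3118_3129 : allTr (chkV P V lk) tr_3118_3129 = true := allTr_mk ck_3123 c_3118_3123 c_3124_3129

theorem c_3130_3141 : allTr (chkV P V lk) tr_3130_3141 = true := allTr_mk ck_3135 c_3130_3135 c_3136_3141

theorem c_3142_3153 : allTr (chkV P V lk) tr_3142_3153 = true := allTr_mk ck_3147 c_3142_3147 c_3148_3153

theorem c_420_432 : allTr (chkV P V lk) tr_420_432 = true := allTr_mk ck_426 c_420_426 c_427_432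

theorem c_445_457 : allTr (chkV P V lk) tr_445_457 = true := allTr_mk ck_451 c_445_451 c_452_457

theorem c_543_555 : allTr (chkV P V lk) tr_543_555 = true := allTr_mk ck_549 c_543_549 c_550_555

theorem c_691_703 : allTr (chkV P V lk) tr_691_703 = true := allTr_mk ck_697 c_691_697 c_698_703

theorem c_814_826 : allTr (chkV P V lk) tr_814_826 = true := allTr_mk ck_820 c_814_820 c_821_826

theorem c_1134_1146 : allTr (chkV P V lk) tr_1134_1146 = true := allTr_mk ck_1140 c_1134_1140 c_1141_1146

theorem c_1282_1294 : allTr (chkV P V lk) tr_1282_1294 = true := allTr_mk ck_1288 c_1282_1288 c_1289_1294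

theorem c_1331_1343 : allTr (chkV P V lk) tr_1331_1343 = true := allTr_mk ck_1337 c_1331_1337 c_1338_1343

theorem c_1430_1442 : allTr (chkV P V lk) tr_1430_1442 = true := allTr_mk ck_1436 c_1430_1436 c_1437_1442

theorem c_1479_1491 : allTr (chkV P V lk) tr_1479_1491 = true := allTr_mk ck_1485 c_1479_1485 c_1486_1491

theorem c_1577_1589 : allTr (chkV P V lk) tr_1577_1589 = true := allTr_mk ck_1583 c_1577_1583 c_1584_1589

theorem c_1627_1639 : allTr (chkV P V lk) tr_1627_1639 = true := allTr_mk ck_1633 c_1627_1633 c_1634_1639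

theorem c_1726_1738 : allTr (chkV P V lk) tr_1726_1738 = true := allTr_mk ck_1732 c_1726_1732 c_1733_1738

theorem c_1800_1812 : allTr (chkV P V lk) tr_1800_1812 = true := allTr_mk ck_1806 c_1800_1806 c_1807_1812

theorem c_1825_1837 : allTr (chkV P V lk) tr_1825_1837 = true := allTr_mk ck_1831 c_1825_1831 c_1832_1837

theorem c_1972_1984 : allTr (chkV P V lk) tr_1972_1984 = true := allTr_mk ck_1978 c_1972_1978 c_1979_1984

theorem c_2071_2083 : allTr (chkV P V lk) tr_2071_2083 = true := allTr_mk ck_2077 c_2071_2077 c_2078_2083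

theorem c_2120_2132 : allTr (chkV P V lk) tr_2120_2132 = true := allTr_mk ck_2126 c_2120_2126 c_2127_2132

theorem c_2169_2181 : allTr (chkV P V lk) tr_2169_2181 = true := allTr_mk ck_2175 c_2169_2175 c_2176_2181

theorem c_2194_2206 : allTr (chkV P V lk) tr_2194_2206 = true := allTr_mk ck_2200 c_2194_2200 c_2201_2206

theorem c_2219_2231 : allTr (chkV P V lk) tr_2219_2231 = true := allTr_mk ck_2225 c_2219_2225 c_2226_2231

theorem c_2268_2280 : allTr (chkV P V lk) tr_2268_2280 = true := allTr_mk ck_2274 c_2268_2274 c_2275_2280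

theorem c_2317_2329 : allTr (chkV P V lk) tr_2317_2329 = true := allTr_mk ck_2323 c_2317_2323 c_2324_2329

theorem c_2366_2378 : allTr (chkV P V lk) tr_2366_2378 = true := allTr_mk ck_2372 c_2366_2372 c_2373_2378

theorem c_2391_2403 : allTr (chkV P V lk) tr_2391_2403 = true := allTr_mk ck_2397 c_2391_2397 c_2398_2403

theorem c_2416_2428 : allTr (chkV P V lk) tr_2416_2428 = true := allTr_mk ck_2422 c_2416_2422 c_2423_2428

theorem c_2465_2477 : allTr (chkV P V lk) tr_2465_2477 = true := allTr_mk ck_2471 c_2465_2471 c_2472_2477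

theorem c_2514_2526 : allTr (chkV P V lk) tr_2514_2526 = true := allTr_mk ck_2520 c_2514_2520 c_2521_2526

theorem c_2563_2575 : allTr (chkV P V lk) tr_2563_2575 = true := allTr_mk ck_2569 c_2563_2569 c_2570_2575

theorem c_2588_2600 : allTr (chkV P V lk) tr_2588_2600 = true := allTr_mk ck_2594 c_2588_2594 c_2595_2600

theorem c_2613_2625 : allTr (chkV P V lk) tr_2613_2625 = true := allTr_mk ck_2619 c_2613_2619 c_2620_2625

theorem c_2662_2674 : allTr (chkV P V lk) tr_2662_2674 = true := allTr_mk ck_2668 c_2662_2668 c_2669_2674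

theorem c_2711_2723 : allTr (chkV P V lk) tr_2711_2723 = true := allTr_mk ck_2717 c_2711_2717 c_2718_2723

theorem c_2760_2772 : allTr (chkV P V lk) tr_2760_2772 = true := allTr_mk ck_2766 c_2760_2766 c_2767_2772

theorem c_2785_2797 : allTr (chkV P V lk) tr_2785_2797 = true := allTr_mk ck_2791 c_2785_2791 c_2792_2797

theorem c_2810_2822 : allTr (chkV P V lk) tr_2810_2822 = true := allTr_mk ck_2816 c_2810_2816 c_2817_2822

theorem c_2859_2871 : allTr (chkV P V lk) tr_2859_2871 = true := allTr_mk ck_2865 c_2859_2865 c_2866_2871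

theorem c_2908_2920 : allTr (chkV P V lk) tr_2908_2920 = true := allTr_mk ck_2914 c_2908_2914 c_2915_2920

theorem c_2957_2969 : allTr (chkV P V lk) tr_2957_2969 = true := allTr_mk ck_2963 c_2957_2963 c_2964_2969

theorem c_2982_2994 : allTr (chkV P V lk) tr_2982_2994 = true := allTr_mk ck_2988 c_2982_2988 c_2989_2994

theorem c_3007_3019 : allTr (chkV P V lk) tr_3007_3019 = true := allTr_mk ck_3013 c_3007_3013 c_3014_3019

theorem c_3056_3068 : allTr (chkV P V lk) tr_3056_3068 = true := allTr_mk ck_3062 c_3056_3062 c_3063_3068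

theorem c_3105_3117 : allTr (chkV P V lk) tr_3105_3117 = true := allTr_mk ck_3111 c_3105_3111 c_3112_3117

theorem c_174_197 : allTr (chkV P V lk) tr_174_197 = true := allTr_mk ck_185 c_174_185 c_186_197

theorem c_322_345 : allTr (chkV P V lk) tr_322_345 = true := allTr_mk ck_333 c_322_333 c_334_345

theorem c_519_542 : allTr (chkV P V lk) tr_519_542 = true := allTr_mk ck_530 c_519_530 c_531_542

theorem c_568_591 : allTr (chkV P V lk) tr_568_591 = true := allTr_mk ck_579 c_568_579 c_580_591

theorem c_667_690 : allTr (chkV P V lk) tr_667_690 = true := allTr_mk ck_678 c_667_678 c_679_690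

theorem c_716_739 : allTr (chkV P V lk) tr_716_739 = true := allTr_mk ck_727 c_716_727 c_728_739

theorem c_864_887 : allTr (chkV P V lk) tr_864_887 = true := allTr_mk ck_875 c_864_875 c_876_887

theorem c_962_985 : allTr (chkV P V lk) tr_962_985 = true := allTr_mk ck_973 c_962_973 c_974_985

theorem c_1110_1133 : allTr (chkV P V lk) tr_1110_1133 = true := allTr_mk ck_1121 c_1110_1121 c_1122_1133

theorem c_1159_1182 : allTr (chkV P V lk) tr_1159_1182 = true := allTr_mk ck_1170 c_1159_1170 c_1171_1182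

theorem c_1258_1281 : allTr (chkV P V lk) tr_1258_1281 = true := allTr_mk ck_1269 c_1258_1269 c_1270_1281

theorem c_1307_1330 : allTr (chkV P V lk) tr_1307_1330 = true := allTr_mk ck_1318 c_1307_1318 c_1319_1330

theorem c_1455_1478 : allTr (chkV P V lk) tr_1455_1478 = true := allTr_mk ck_1466 c_1455_1466 c_1467_1478

theorem c_1652_1675 : allTr (chkV P V lk) tr_1652_1675 = true := allTr_mk ck_1663 c_1652_1663 c_1664_1675

theorem c_1751_1774 : allTr (chkV P V lk) tr_1751_1774 = true := allTr_mk ck_1762 c_1751_1762 c_1763_1774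

theorem c_1899_1922 : allTr (chkV P V lk) tr_1899_1922 = true := allTr_mk ck_1910 c_1899_1910 c_1911_1922

theorem c_1948_1971 : allTr (chkV P V lk) tr_1948_1971 = true := allTr_mk ck_1959 c_1948_1959 c_1960_1971

theorem c_2047_2070 : allTr (chkV P V lk) tr_2047_2070 = true := allTr_mk ck_2058 c_2047_2058 c_2059_2070

theorem c_2096_2119 : allTr (chkV P V lk) tr_2096_2119 = true := allTr_mk ck_2107 c_2096_2107 c_2108_2119

theorem c_2145_2168 : allTr (chkV P V lk) tr_2145_2168 = true := allTr_mk ck_2156 c_2145_2156 c_2157_2168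

theorem c_2244_2267 : allTr (chkV P V lk) tr_2244_2267 = true := allTr_mk ck_2255 c_2244_2255 c_2256_2267

theorem c_2293_2316 : allTr (chkV P V lk) tr_2293_2316 = true := allTr_mk ck_2304 c_2293_2304 c_2305_2316

theorem c_2342_2365 : allTr (chkV P V lk) tr_2342_2365 = true := allTr_mk ck_2353 c_2342_2353 c_2354_2365

theorem c_2441_2464 : allTr (chkV P V lk) tr_2441_2464 = true := allTr_mk ck_2452 c_2441_2452 c_2453_2464

theorem c_2490_2513 : allTr (chkV P V lk) tr_2490_2513 = true := allTr_mk ck_2501 c_2490_2501 c_2502_2513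

theorem c_2539_2562 : allTr (chkV P V lk) tr_2539_2562 = true := allTr_mk ck_2550 c_2539_2550 c_2551_2562

theorem c_2638_2661 : allTr (chkV P V lk) tr_2638_2661 = true := allTr_mk ck_2649 c_2638_2649 c_2650_2661

theorem c_2687_2710 : allTr (chkV P V lk) tr_2687_2710 = true := allTr_mk ck_2698 c_2687_2698 c_2699_2710

theorem c_2736_2759 : allTr (chkV P V lk) tr_2736_2759 = true := allTr_mk ck_2747 c_2736_2747 c_2748_2759

theorem c_2835_2858 : allTr (chkV P V lk) tr_2835_2858 = true := allTr_mk ck_2846 c_2835_2846 c_2847_2858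

theorem c_2884_2907 : allTr (chkV P V lk) tr_2884_2907 = true := allTr_mk ck_2895 c_2884_2895 c_2896_2907

theorem c_2933_2956 : allTr (chkV P V lk) tr_2933_2956 = true := allTr_mk ck_2944 c_2933_2944 c_2945_2956

theorem c_3032_3055 : allTr (chkV P V lk) tr_3032_3055 = true := allTr_mk ck_3043 c_3032_3043 c_3044_3055

theorem c_3081_3104 : allTr (chkV P V lk) tr_3081_3104 = true := allTr_mk ck_3092 c_3081_3092 c_3093_3104

theorem c_3130_3153 : allTr (chkV P V lk) tr_3130_3153 = true := allTr_mk ck_3141 c_3130_3141 c_3142_3153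

theorem c_223_247 : allTr (chkV P V lk) tr_223_247 = true := allTr_mk ck_235 c_223_235 c_236_247

theorem c_248_272 : allTr (chkV P V lk) tr_248_272 = true := allTr_mk ck_260 c_248_260 c_261_272

theorem c_297_321 : allTr (chkV P V lk) tr_297_321 = true := allTr_mk ck_309 c_297_309 c_310_321

theorem c_420_444 : allTr (chkV P V lk) tr_420_444 = true := allTr_mk ck_432 c_420_432 c_433_444

theorem c_445_469 : allTr (chkV P V lk) tr_445_469 = true := allTr_mk ck_457 c_445_457 c_458_469

theorem c_543_567 : allTr (chkV P V lk) tr_543_567 = true := allTr_mk ck_555 c_543_555 c_556_567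

theorem c_642_666 : allTr (chkV P V lk) tr_642_666 = true := allTr_mk ck_654 c_642_654 c_655_666

theorem c_691_715 : allTr (chkV P V lk) tr_691_715 = true := allTr_mk ck_703 c_691_703 c_704_715

theorem c_789_813 : allTr (chkV P V lk) tr_789_813 = true := allTr_mk ck_801 c_789_801 c_802_813

theorem c_814_838 : allTr (chkV P V lk) tr_814_838 = true := allTr_mk ck_826 c_814_826 c_827_838

theorem c_839_863 : allTr (chkV P V lk) tr_839_863 = true := allTr_mk ck_851 c_839_851 c_852_863

theorem c_937_961 : allTr (chkV P V lk) tr_937_961 = true := allTr_mk ck_949 c_937_949 c_950_961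

theorem c_986_1010 : allTr (chkV P V lk) tr_986_1010 = true := allTr_mk ck_998 c_986_998 c_999_1010

theorem c_1011_1035 : allTr (chkV P V lk) tr_1011_1035 = true := allTr_mk ck_1023 c_1011_1023 c_1024_1035

theorem c_1085_1109 : allTr (chkV P V lk) tr_1085_1109 = true := allTr_mk ck_1097 c_1085_1097 c_1098_1109

theorem c_1134_1158 : allTr (chkV P V lk) tr_1134_1158 = true := allTr_mk ck_1146 c_1134_1146 c_1147_1158

theorem c_1233_1257 : allTr (chkV P V lk) tr_1233_1257 = true := allTr_mk ck_1245 c_1233_1245 c_1246_1257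

theorem c_1282_1306 : allTr (chkV P V lk) tr_1282_1306 = true := allTr_mk ck_1294 c_1282_1294 c_1295_1306

theorem c_1331_1355 : allTr (chkV P V lk) tr_1331_1355 = true := allTr_mk ck_1343 c_1331_1343 c_1344_1355

theorem c_1405_1429 : allTr (chkV P V lk) tr_1405_1429 = true := allTr_mk ck_1417 c_1405_1417 c_1418_1429

theorem c_1430_1454 : allTr (chkV P V lk) tr_1430_1454 = true := allTr_mk ck_1442 c_1430_1442 c_1443_1454

theorem c_1479_1503 : allTr (chkV P V lk) tr_1479_1503 = true := allTr_mk ck_1491 c_1479_1491 c_1492_1503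

theorem c_1528_1552 : allTr (chkV P V lk) tr_1528_1552 = true := allTr_mk ck_1540 c_1528_1540 c_1541_1552

theorem c_1577_1601 : allTr (chkV P V lk) tr_1577_1601 = true := allTr_mk ck_1589 c_1577_1589 c_1590_1601

theorem c_1602_1626 : allTr (chkV P V lk) tr_1602_1626 = true := allTr_mk ck_1614 c_1602_1614 c_1615_1626

theorem c_1627_1651 : allTr (chkV P V lk) tr_1627_1651 = true := allTr_mk ck_1639 c_1627_1639 c_1640_1651

theorem c_1726_1750 : allTr (chkV P V lk) tr_1726_1750 = true := allTr_mk ck_1738 c_1726_1738 c_1739_1750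

theorem c_1775_1799 : allTr (chkV P V lk) tr_1775_1799 = true := allTr_mk ck_1787 c_1775_1787 c_1788_1799

theorem c_1800_1824 : allTr (chkV P V lk) tr_1800_1824 = true := allTr_mk ck_1812 c_1800_1812 c_1813_1824

theorem c_1825_1849 : allTr (chkV P V lk) tr_1825_1849 = true := allTr_mk ck_1837 c_1825_1837 c_1838_1849

theorem c_1923_1947 : allTr (chkV P V lk) tr_1923_1947 = true := allTr_mk ck_1935 c_1923_1935 c_1936_1947

theorem c_1972_1996 : allTr (chkV P V lk) tr_1972_1996 = true := allTr_mk ck_1984 c_1972_1984 c_1985_1996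

theorem c_1997_2021 : allTr (chkV P V lk) tr_1997_2021 = true := allTr_mk ck_2009 c_1997_2009 c_2010_2021

theorem c_2071_2095 : allTr (chkV P V lk) tr_2071_2095 = true := allTr_mk ck_2083 c_2071_2083 c_2084_2095

theorem c_2120_2144 : allTr (chkV P V lk) tr_2120_2144 = true := allTr_mk ck_2132 c_2120_2132 c_2133_2144

theorem c_2169_2193 : allTr (chkV P V lk) tr_2169_2193 = true := allTr_mk ck_2181 c_2169_2181 c_2182_2193

theorem c_2194_2218 : allTr (chkV P V lk) tr_2194_2218 = true := allTr_mk ck_2206 c_2194_2206 c_2207_2218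

theorem c_2219_2243 : allTr (chkV P V lk) tr_2219_2243 = true := allTr_mk ck_2231 c_2219_2231 c_2232_2243

theorem c_2268_2292 : allTr (chkV P V lk) tr_2268_2292 = true := allTr_mk ck_2280 c_2268_2280 c_2281_2292

theorem c_2317_2341 : allTr (chkV P V lk) tr_2317_2341 = true := allTr_mk ck_2329 c_2317_2329 c_2330_2341

theorem c_2366_2390 : allTr (chkV P V lk) tr_2366_2390 = true := allTr_mk ck_2378 c_2366_2378 c_2379_2390

theorem c_2391_2415 : allTr (chkV P V lk) tr_2391_2415 = true := allTr_mk ck_2403 c_2391_2403 c_2404_2415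

theorem c_2416_2440 : allTr (chkV P V lk) tr_2416_2440 = true := allTr_mk ck_2428 c_2416_2428 c_2429_2440

theorem c_2465_2489 : allTr (chkV P V lk) tr_2465_2489 = true := allTr_mk ck_2477 c_2465_2477 c_2478_2489

theorem c_2514_2538 : allTr (chkV P V lk) tr_2514_2538 = true := allTr_mk ck_2526 c_2514_2526 c_2527_2538

theorem c_2563_2587 : allTr (chkV P V lk) tr_2563_2587 = true := allTr_mk ck_2575 c_2563_2575 c_2576_2587

theorem c_2588_2612 : allTr (chkV P V lk) tr_2588_2612 = true := allTr_mk ck_2600 c_2588_2600 c_2601_2612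

theorem c_2613_2637 : allTr (chkV P V lk) tr_2613_2637 = true := allTr_mk ck_2625 c_2613_2625 c_2626_2637

theorem c_2662_2686 : allTr (chkV P V lk) tr_2662_2686 = true := allTr_mk ck_2674 c_2662_2674 c_2675_2686

theorem c_2711_2735 : allTr (chkV P V lk) tr_2711_2735 = true := allTr_mk ck_2723 c_2711_2723 c_2724_2735

theorem c_2760_2784 : allTr (chkV P V lk) tr_2760_2784 = true := allTr_mk ck_2772 c_2760_2772 c_2773_2784

theorem c_2785_2809 : allTr (chkV P V lk) tr_2785_2809 = true := allTr_mk ck_2797 c_2785_2797 c_2798_2809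

theorem c_2810_2834 : allTr (chkV P V lk) tr_2810_2834 = true := allTr_mk ck_2822 c_2810_2822 c_2823_2834

theorem c_2859_2883 : allTr (chkV P V lk) tr_2859_2883 = true := allTr_mk ck_2871 c_2859_2871 c_2872_2883

theorem c_2908_2932 : allTr (chkV P V lk) tr_2908_2932 = true := allTr_mk ck_2920 c_2908_2920 c_2921_2932

theorem c_2957_2981 : allTr (chkV P V lk) tr_2957_2981 = true := allTr_mk ck_2969 c_2957_2969 c_2970_2981

theorem c_2982_3006 : allTr (chkV P V lk) tr_2982_3006 = true := allTr_mk ck_2994 c_2982_2994 c_2995_3006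

theorem c_3007_3031 : allTr (chkV P V lk) tr_3007_3031 = true := allTr_mk ck_3019 c_3007_3019 c_3020_3031

theorem c_3056_3080 : allTr (chkV P V lk) tr_3056_3080 = true := allTr_mk ck_3068 c_3056_3068 c_3069_3080

theorem c_3105_3129 : allTr (chkV P V lk) tr_3105_3129 = true := allTr_mk ck_3117 c_3105_3117 c_3118_3129

theorem c_149_197 : allTr (chkV P V lk) tr_149_197 = true := allTr_mk ck_173 c_149_173 c_174_197

theorem c_248_296 : allTr (chkV P V lk) tr_248_296 = true := allTr_mk ck_272 c_248_272 c_273_296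

theorem c_297_345 : allTr (chkV P V lk) tr_297_345 = true := allTr_mk ck_321 c_297_321 c_322_345

theorem c_445_493 : allTr (chkV P V lk) tr_445_493 = true := allTr_mk ck_469 c_445_469 c_470_493

theorem c_494_542 : allTr (chkV P V lk) tr_494_542 = true := allTr_mk ck_518 c_494_518 c_519_542

theorem c_543_591 : allTr (chkV P V lk) tr_543_591 = true := allTr_mk ck_567 c_543_567 c_568_591

theorem c_642_690 : allTr (chkV P V lk) tr_642_690 = true := allTr_mk ck_666 c_642_666 c_667_690

theorem c_691_739 : allTr (chkV P V lk) tr_691_739 = true := allTr_mk ck_715 c_691_715 c_716_739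

theorem c_839_887 : allTr (chkV P V lk) tr_839_887 = true := allTr_mk ck_863 c_839_863 c_864_887

theorem c_937_985 : allTr (chkV P V lk) tr_937_985 = true := allTr_mk ck_961 c_937_961 c_962_985

theorem c_1085_1133 : allTr (chkV P V lk) tr_1085_1133 = true := allTr_mk ck_1109 c_1085_1109 c_1110_1133

theorem c_1134_1182 : allTr (chkV P V lk) tr_1134_1182 = true := allTr_mk ck_1158 c_1134_1158 c_1159_1182

theorem c_1233_1281 : allTr (chkV P V lk) tr_1233_1281 = true := allTr_mk ck_1257 c_1233_1257 c_1258_1281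

theorem c_1282_1330 : allTr (chkV P V lk) tr_1282_1330 = true := allTr_mk ck_1306 c_1282_1306 c_1307_1330

theorem c_1331_1379 : allTr (chkV P V lk) tr_1331_1379 = true := allTr_mk ck_1355 c_1331_1355 c_1356_1379

theorem c_1430_1478 : allTr (chkV P V lk) tr_1430_1478 = true := allTr_mk ck_1454 c_1430_1454 c_1455_1478

theorem c_1479_1527 : allTr (chkV P V lk) tr_1479_1527 = true := allTr_mk ck_1503 c_1479_1503 c_1504_1527

theorem c_1528_1576 : allTr (chkV P V lk) tr_1528_1576 = true := allTr_mk ck_1552 c_1528_1552 c_1553_1576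

theorem c_1627_1675 : allTr (chkV P V lk) tr_1627_1675 = true := allTr_mk ck_1651 c_1627_1651 c_1652_1675

theorem c_1726_1774 : allTr (chkV P V lk) tr_1726_1774 = true := allTr_mk ck_1750 c_1726_1750 c_1751_1774

theorem c_1825_1873 : allTr (chkV P V lk) tr_1825_1873 = true := allTr_mk ck_1849 c_1825_1849 c_1850_1873

theorem c_1874_1922 : allTr (chkV P V lk) tr_1874_1922 = true := allTr_mk ck_1898 c_1874_1898 c_1899_1922

theorem c_1923_1971 : allTr (chkV P V lk) tr_1923_1971 = true := allTr_mk ck_1947 c_1923_1947 c_1948_1971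

theorem c_2022_2070 : allTr (chkV P V lk) tr_2022_2070 = true := allTr_mk ck_2046 c_2022_2046 c_2047_2070

theorem c_2071_2119 : allTr (chkV P V lk) tr_2071_2119 = true := allTr_mk ck_2095 c_2071_2095 c_2096_2119

theorem c_2120_2168 : allTr (chkV P V lk) tr_2120_2168 = true := allTr_mk ck_2144 c_2120_2144 c_2145_2168

theorem c_2219_2267 : allTr (chkV P V lk) tr_2219_2267 = true := allTr_mk ck_2243 c_2219_2243 c_2244_2267

theorem c_2268_2316 : allTr (chkV P V lk) tr_2268_2316 = true := allTr_mk ck_2292 c_2268_2292 c_2293_2316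

theorem c_2317_2365 : allTr (chkV P V lk) tr_2317_2365 = true := allTr_mk ck_2341 c_2317_2341 c_2342_2365

theorem c_2416_2464 : allTr (chkV P V lk) tr_2416_2464 = true := allTr_mk ck_2440 c_2416_2440 c_2441_2464

theorem c_2465_2513 : allTr (chkV P V lk) tr_2465_2513 = true := allTr_mk ck_2489 c_2465_2489 c_2490_2513

theorem c_2514_2562 : allTr (chkV P V lk) tr_2514_2562 = true := allTr_mk ck_2538 c_2514_2538 c_2539_2562

theorem c_2613_2661 : allTr (chkV P V lk) tr_2613_2661 = true := allTr_mk ck_2637 c_2613_2637 c_2638_2661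

theorem c_2662_2710 : allTr (chkV P V lk) tr_2662_2710 = true := allTr_mk ck_2686 c_2662_2686 c_2687_2710

theorem c_2711_2759 : allTr (chkV P V lk) tr_2711_2759 = true := allTr_mk ck_2735 c_2711_2735 c_2736_2759

theorem c_2810_2858 : allTr (chkV P V lk) tr_2810_2858 = true := allTr_mk ck_2834 c_2810_2834 c_2835_2858

theorem c_2859_2907 : allTr (chkV P V lk) tr_2859_2907 = true := allTr_mk ck_2883 c_2859_2883 c_2884_2907

theorem c_2908_2956 : allTr (chkV P V lk) tr_2908_2956 = true := allTr_mk ck_2932 c_2908_2932 c_2933_2956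

theorem c_3007_3055 : allTr (chkV P V lk) tr_3007_3055 = true := allTr_mk ck_3031 c_3007_3031 c_3032_3055

theorem c_3056_3104 : allTr (chkV P V lk) tr_3056_3104 = true := allTr_mk ck_3080 c_3056_3080 c_3081_3104

theorem c_3105_3153 : allTr (chkV P V lk) tr_3105_3153 = true := allTr_mk ck_3129 c_3105_3129 c_3130_3153

theorem c_198_247 : allTr (chkV P V lk) tr_198_247 = true := allTr_mk ck_222 c_198_222 c_223_247

theorem c_395_444 : allTr (chkV P V lk) tr_395_444 = true := allTr_mk ck_419 c_395_419 c_420_444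

theorem c_592_641 : allTr (chkV P V lk) tr_592_641 = true := allTr_mk ck_616 c_592_616 c_617_641

theorem c_789_838 : allTr (chkV P V lk) tr_789_838 = true := allTr_mk ck_813 c_789_813 c_814_838

theorem c_986_1035 : allTr (chkV P V lk) tr_986_1035 = true := allTr_mk ck_1010 c_986_1010 c_1011_1035

theorem c_1380_1429 : allTr (chkV P V lk) tr_1380_1429 = true := allTr_mk ck_1404 c_1380_1404 c_1405_1429

theorem c_1577_1626 : allTr (chkV P V lk) tr_1577_1626 = true := allTr_mk ck_1601 c_1577_1601 c_1602_1626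

theorem c_1676_1725 : allTr (chkV P V lk) tr_1676_1725 = true := allTr_mk ck_1700 c_1676_1700 c_1701_1725

theorem c_1775_1824 : allTr (chkV P V lk) tr_1775_1824 = true := allTr_mk ck_1799 c_1775_1799 c_1800_1824

theorem c_1972_2021 : allTr (chkV P V lk) tr_1972_2021 = true := allTr_mk ck_1996 c_1972_1996 c_1997_2021

theorem c_2169_2218 : allTr (chkV P V lk) tr_2169_2218 = true := allTr_mk ck_2193 c_2169_2193 c_2194_2218

theorem c_2366_2415 : allTr (chkV P V lk) tr_2366_2415 = true := allTr_mk ck_2390 c_2366_2390 c_2391_2415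

theorem c_2563_2612 : allTr (chkV P V lk) tr_2563_2612 = true := allTr_mk ck_2587 c_2563_2587 c_2588_2612

theorem c_2760_2809 : allTr (chkV P V lk) tr_2760_2809 = true := allTr_mk ck_2784 c_2760_2784 c_2785_2809

theorem c_2957_3006 : allTr (chkV P V lk) tr_2957_3006 = true := allTr_mk ck_2981 c_2957_2981 c_2982_3006

theorem c_297_394 : allTr (chkV P V lk) tr_297_394 = true := allTr_mk ck_345 c_297_345 c_346_394

theorem c_494_591 : allTr (chkV P V lk) tr_494_591 = true := allTr_mk ck_542 c_494_542 c_543_591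

theorem c_691_788 : allTr (chkV P V lk) tr_691_788 = true := allTr_mk ck_739 c_691_739 c_740_788

theorem c_888_985 : allTr (chkV P V lk) tr_888_985 = true := allTr_mk ck_936 c_888_936 c_937_985

theorem c_1085_1182 : allTr (chkV P V lk) tr_1085_1182 = true := allTr_mk ck_1133 c_1085_1133 c_1134_1182

theorem c_1282_1379 : allTr (chkV P V lk) tr_1282_1379 = true := allTr_mk ck_1330 c_1282_1330 c_1331_1379

theorem c_1479_1576 : allTr (chkV P V lk) tr_1479_1576 = true := allTr_mk ck_1527 c_1479_1527 c_1528_1576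

theorem c_1874_1971 : allTr (chkV P V lk) tr_1874_1971 = true := allTr_mk ck_1922 c_1874_1922 c_1923_1971

theorem c_2071_2168 : allTr (chkV P V lk) tr_2071_2168 = true := allTr_mk ck_2119 c_2071_2119 c_2120_2168

theorem c_2268_2365 : allTr (chkV P V lk) tr_2268_2365 = true := allTr_mk ck_2316 c_2268_2316 c_2317_2365

theorem c_2465_2562 : allTr (chkV P V lk) tr_2465_2562 = true := allTr_mk ck_2513 c_2465_2513 c_2514_2562

theorem c_2662_2759 : allTr (chkV P V lk) tr_2662_2759 = true := allTr_mk ck_2710 c_2662_2710 c_2711_2759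

theorem c_2859_2956 : allTr (chkV P V lk) tr_2859_2956 = true := allTr_mk ck_2907 c_2859_2907 c_2908_2956

theorem c_3056_3153 : allTr (chkV P V lk) tr_3056_3153 = true := allTr_mk ck_3104 c_3056_3104 c_3105_3153

theorem c_0_98 : allTr (chkV P V lk) tr_0_98 = true := allTr_mk ck_49 c_0_49 c_50_98

theorem c_99_197 : allTr (chkV P V lk) tr_99_197 = true := allTr_mk ck_148 c_99_148 c_149_197

theorem c_198_296 : allTr (chkV P V lk) tr_198_296 = true := allTr_mk ck_247 c_198_247 c_248_296

theorem c_395_493 : allTr (chkV P V lk) tr_395_493 = true := allTr_mk ck_444 c_395_444 c_445_493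

theorem c_592_690 : allTr (chkV P V lk) tr_592_690 = true := allTr_mk ck_641 c_592_641 c_642_690

theorem c_789_887 : allTr (chkV P V lk) tr_789_887 = true := allTr_mk ck_838 c_789_838 c_839_887

theorem c_986_1084 : allTr (chkV P V lk) tr_986_1084 = true := allTr_mk ck_1035 c_986_1035 c_1036_1084

theorem c_1183_1281 : allTr (chkV P V lk) tr_1183_1281 = true := allTr_mk ck_1232 c_1183_1232 c_1233_1281

theorem c_1380_1478 : allTr (chkV P V lk) tr_1380_1478 = true := allTr_mk ck_1429 c_1380_1429 c_1430_1478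

theorem c_1577_1675 : allTr (chkV P V lk) tr_1577_1675 = true := allTr_mk ck_1626 c_1577_1626 c_1627_1675

theorem c_1676_1774 : allTr (chkV P V lk) tr_1676_1774 = true := allTr_mk ck_1725 c_1676_1725 c_1726_1774

theorem c_1775_1873 : allTr (chkV P V lk) tr_1775_1873 = true := allTr_mk ck_1824 c_1775_1824 c_1825_1873

theorem c_1972_2070 : allTr (chkV P V lk) tr_1972_2070 = true := allTr_mk ck_2021 c_1972_2021 c_2022_2070

theorem c_2169_2267 : allTr (chkV P V lk) tr_2169_2267 = true := allTr_mk ck_2218 c_2169_2218 c_2219_2267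

theorem c_2366_2464 : allTr (chkV P V lk) tr_2366_2464 = true := allTr_mk ck_2415 c_2366_2415 c_2416_2464

theorem c_2563_2661 : allTr (chkV P V lk) tr_2563_2661 = true := allTr_mk ck_2612 c_2563_2612 c_2613_2661

theorem c_2760_2858 : allTr (chkV P V lk) tr_2760_2858 = true := allTr_mk ck_2809 c_2760_2809 c_2810_2858

theorem c_2957_3055 : allTr (chkV P V lk) tr_2957_3055 = true := allTr_mk ck_3006 c_2957_3006 c_3007_3055

theorem c_198_394 : allTr (chkV P V lk) tr_198_394 = true := allTr_mk ck_296 c_198_296 c_297_394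

theorem c_395_591 : allTr (chkV P V lk) tr_395_591 = true := allTr_mk ck_493 c_395_493 c_494_591

theorem c_592_788 : allTr (chkV P V lk) tr_592_788 = true := allTr_mk ck_690 c_592_690 c_691_788

theorem c_789_985 : allTr (chkV P V lk) tr_789_985 = true := allTr_mk ck_887 c_789_887 c_888_985

theorem c_986_1182 : allTr (chkV P V lk) tr_986_1182 = true := allTr_mk ck_1084 c_986_1084 c_1085_1182

theorem c_1183_1379 : allTr (chkV P V lk) tr_1183_1379 = true := allTr_mk ck_1281 c_1183_1281 c_1282_1379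

theorem c_1380_1576 : allTr (chkV P V lk) tr_1380_1576 = true := allTr_mk ck_1478 c_1380_1478 c_1479_1576

theorem c_1775_1971 : allTr (chkV P V lk) tr_1775_1971 = true := allTr_mk ck_1873 c_1775_1873 c_1874_1971

theorem c_1972_2168 : allTr (chkV P V lk) tr_1972_2168 = true := allTr_mk ck_2070 c_1972_2070 c_2071_2168

theorem c_2169_2365 : allTr (chkV P V lk) tr_2169_2365 = true := allTr_mk ck_2267 c_2169_2267 c_2268_2365

theorem c_2366_2562 : allTr (chkV P V lk) tr_2366_2562 = true := allTr_mk ck_2464 c_2366_2464 c_2465_2562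

theorem c_2563_2759 : allTr (chkV P V lk) tr_2563_2759 = true := allTr_mk ck_2661 c_2563_2661 c_2662_2759

theorem c_2760_2956 : allTr (chkV P V lk) tr_2760_2956 = true := allTr_mk ck_2858 c_2760_2858 c_2859_2956

theorem c_2957_3153 : allTr (chkV P V lk) tr_2957_3153 = true := allTr_mk ck_3055 c_2957_3055 c_3056_3153

theorem c_0_197 : allTr (chkV P V lk) tr_0_197 = true := allTr_mk ck_98 c_0_98 c_99_197

theorem c_1577_1774 : allTr (chkV P V lk) tr_1577_1774 = true := allTr_mk ck_1675 c_1577_1675 c_1676_1774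

theorem c_395_788 : allTr (chkV P V lk) tr_395_788 = true := allTr_mk ck_591 c_395_591 c_592_788

theorem c_789_1182 : allTr (chkV P V lk) tr_789_1182 = true := allTr_mk ck_985 c_789_985 c_986_1182

theorem c_1183_1576 : allTr (chkV P V lk) tr_1183_1576 = true := allTr_mk ck_1379 c_1183_1379 c_1380_1576

theorem c_1972_2365 : allTr (chkV P V lk) tr_1972_2365 = true := allTr_mk ck_2168 c_1972_2168 c_2169_2365

theorem c_2366_2759 : allTr (chkV P V lk) tr_2366_2759 = true := allTr_mk ck_2562 c_2366_2562 c_2563_2759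

theorem c_2760_3153 : allTr (chkV P V lk) tr_2760_3153 = true := allTr_mk ck_2956 c_2760_2956 c_2957_3153

theorem c_0_394 : allTr (chkV P V lk) tr_0_394 = true := allTr_mk ck_197 c_0_197 c_198_394

theorem c_1577_1971 : allTr (chkV P V lk) tr_1577_1971 = true := allTr_mk ck_1774 c_1577_1774 c_1775_1971

theorem c_789_1576 : allTr (chkV P V lk) tr_789_1576 = true := allTr_mk ck_1182 c_789_1182 c_1183_1576

theorem c_2366_3153 : allTr (chkV P V lk) tr_2366_3153 = true := allTr_mk ck_2759 c_2366_2759 c_2760_3153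

theorem c_0_788 : allTr (chkV P V lk) tr_0_788 = true := allTr_mk ck_394 c_0_394 c_395_788

theorem c_1577_2365 : allTr (chkV P V lk) tr_1577_2365 = true := allTr_mk ck_1971 c_1577_1971 c_1972_2365

theorem c_0_1576 : allTr (chkV P V lk) tr_0_1576 = true := allTr_mk ck_788 c_0_788 c_789_1576

theorem c_1577_3153 : allTr (chkV P V lk) tr_1577_3153 = true := allTr_mk ck_2365 c_1577_2365 c_2366_3153

theorem c_0_3153 : allTr (chkV P V lk) tr_0_3153 = true := allTr_mk ck_1576 c_0_1576 c_1577_3153

theorem o_1908_1910 : allTr oF tr_1908_1910 = true := allTr_mk ok_1909 o_1908_1909 rfl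

theorem o_2084_2086 : allTr oF tr_2084_2086 = true := allTr_mk ok_2085 o_2084_2085 rfl

theorem o_2117_2119 : allTr oF tr_2117_2119 = true := allTr_mk ok_2118 o_2117_2118 rfl

theorem o_2302_2304 : allTr oF tr_2302_2304 = true := allTr_mk ok_2303 o_2302_2303 rfl

theorem o_2986_2988 : allTr oF tr_2986_2988 = true := allTr_mk ok_2987 o_2986_2987 rfl

theorem o_3011_3013 : allTr oF tr_3011_3013 = true := allTr_mk ok_3012 o_3011_3012 rfl

theorem o_3014_3016 : allTr oF tr_3014_3016 = true := allTr_mk ok_3015 o_3014_3015 rfl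

theorem o_3017_3019 : allTr oF tr_3017_3019 = true := allTr_mk ok_3018 o_3017_3018 rfl

theorem o_3020_3022 : allTr oF tr_3020_3022 = true := allTr_mk ok_3021 o_3020_3021 rfl

theorem o_3023_3025 : allTr oF tr_3023_3025 = true := allTr_mk ok_3024 o_3023_3024 rfl

theorem o_3026_3028 : allTr oF tr_3026_3028 = true := allTr_mk ok_3027 o_3026_3027 rfl

theorem o_3029_3031 : allTr oF tr_3029_3031 = true := allTr_mk ok_3030 o_3029_3030 rfl

theorem o_3032_3034 : allTr oF tr_3032_3034 = true := allTr_mk ok_3033 o_3032_3033 rfl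

theorem o_3035_3037 : allTr oF tr_3035_3037 = true := allTr_mk ok_3036 o_3035_3036 rfl

theorem o_3038_3040 : allTr oF tr_3038_3040 = true := allTr_mk ok_3039 o_3038_3039 rfl

theorem o_3041_3043 : allTr oF tr_3041_3043 = true := allTr_mk ok_3042 o_3041_3042 rfl

theorem o_3044_3046 : allTr oF tr_3044_3046 = true := allTr_mk ok_3045 o_3044_3045 rfl

theorem o_3047_3049 : allTr oF tr_3047_3049 = true := allTr_mk ok_3048 o_3047_3048 rfl

theorem o_3050_3052 : allTr oF tr_3050_3052 = true := allTr_mk ok_3051 o_3050_3051 rfl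

theorem o_3053_3055 : allTr oF tr_3053_3055 = true := allTr_mk ok_3054 o_3053_3054 rfl

theorem o_3060_3062 : allTr oF tr_3060_3062 = true := allTr_mk ok_3061 o_3060_3061 rfl

theorem o_3063_3065 : allTr oF tr_3063_3065 = true := allTr_mk ok_3064 o_3063_3064 rfl

theorem o_3066_3068 : allTr oF tr_3066_3068 = true := allTr_mk ok_3067 o_3066_3067 rfl

theorem o_3069_3071 : allTr oF tr_3069_3071 = true := allTr_mk ok_3070 o_3069_3070 rfl

theorem o_3072_3074 : allTr oF tr_3072_3074 = true := allTr_mk ok_3073 o_3072_3073 rfl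

theorem o_3075_3077 : allTr oF tr_3075_3077 = true := allTr_mk ok_3076 o_3075_3076 rfl

theorem o_3078_3080 : allTr oF tr_3078_3080 = true := allTr_mk ok_3079 o_3078_3079 rfl

theorem o_3081_3083 : allTr oF tr_3081_3083 = true := allTr_mk ok_3082 o_3081_3082 rfl

theorem o_3084_3086 : allTr oF tr_3084_3086 = true := allTr_mk ok_3085 o_3084_3085 rfl

theorem o_3087_3089 : allTr oF tr_3087_3089 = true := allTr_mk ok_3088 o_3087_3088 rfl

theorem o_3090_3092 : allTr oF tr_3090_3092 = true := allTr_mk ok_3091 o_3090_3091 rfl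

theorem o_3093_3095 : allTr oF tr_3093_3095 = true := allTr_mk ok_3094 o_3093_3094 rfl

theorem o_3096_3098 : allTr oF tr_3096_3098 = true := allTr_mk ok_3097 o_3096_3097 rfl

theorem o_3099_3101 : allTr oF tr_3099_3101 = true := allTr_mk ok_3100 o_3099_3100 rfl

theorem o_3102_3104 : allTr oF tr_3102_3104 = true := allTr_mk ok_3103 o_3102_3103 rfl

theorem o_3109_3111 : allTr oF tr_3109_3111 = true := allTr_mk ok_3110 o_3109_3110 rfl

theorem o_3112_3114 : allTr oF tr_3112_3114 = true := allTr_mk ok_3113 o_3112_3113 rfl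

theorem o_3115_3117 : allTr oF tr_3115_3117 = true := allTr_mk ok_3116 o_3115_3116 rfl

theorem o_3118_3120 : allTr oF tr_3118_3120 = true := allTr_mk ok_3119 o_3118_3119 rfl

theorem o_3121_3123 : allTr oF tr_3121_3123 = true := allTr_mk ok_3122 o_3121_3122 rfl

theorem o_3124_3126 : allTr oF tr_3124_3126 = true := allTr_mk ok_3125 o_3124_3125 rfl

theorem o_3127_3129 : allTr oF tr_3127_3129 = true := allTr_mk ok_3128 o_3127_3128 rfl

theorem o_3130_3132 : allTr oF tr_3130_3132 = true := allTr_mk ok_3131 o_3130_3131 rfl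

theorem o_3133_3135 : allTr oF tr_3133_3135 = true := allTr_mk ok_3134 o_3133_3134 rfl

theorem o_3136_3138 : allTr oF tr_3136_3138 = true := allTr_mk ok_3137 o_3136_3137 rfl

theorem o_3139_3141 : allTr oF tr_3139_3141 = true := allTr_mk ok_3140 o_3139_3140 rfl

theorem o_3142_3144 : allTr oF tr_3142_3144 = true := allTr_mk ok_3143 o_3142_3143 rfl

theorem o_3145_3147 : allTr oF tr_3145_3147 = true := allTr_mk ok_3146 o_3145_3146 rfl

theorem o_3148_3150 : allTr oF tr_3148_3150 = true := allTr_mk ok_3149 o_3148_3149 rfl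

theorem o_3151_3153 : allTr oF tr_3151_3153 = true := allTr_mk ok_3152 o_3151_3152 rfl

theorem o_2071_2074 : allTr oF tr_2071_2074 = true := allTr_mk ok_2072 o_2071_2072 o_2073_2074

theorem o_2120_2123 : allTr oF tr_2120_2123 = true := allTr_mk ok_2121 o_2120_2121 o_2122_2123

theorem o_2169_2172 : allTr oF tr_2169_2172 = true := allTr_mk ok_2170 o_2169_2170 o_2171_2172

theorem o_2194_2197 : allTr oF tr_2194_2197 = true := allTr_mk ok_2195 o_2194_2195 o_2196_2197

theorem o_2219_2222 : allTr oF tr_2219_2222 = true := allTr_mk ok_2220 o_2219_2220 o_2221_2222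

theorem o_2366_2369 : allTr oF tr_2366_2369 = true := allTr_mk ok_2367 o_2366_2367 o_2368_2369

theorem o_2563_2566 : allTr oF tr_2563_2566 = true := allTr_mk ok_2564 o_2563_2564 o_2565_2566

theorem o_2859_2862 : allTr oF tr_2859_2862 = true := allTr_mk ok_2860 o_2859_2860 o_2861_2862

theorem o_2957_2960 : allTr oF tr_2957_2960 = true := allTr_mk ok_2958 o_2957_2958 o_2959_2960

theorem o_3056_3059 : allTr oF tr_3056_3059 = true := allTr_mk ok_3057 o_3056_3057 o_3058_3059

theorem o_3105_3108 : allTr oF tr_3105_3108 = true := allTr_mk ok_3106 o_3105_3106 o_3107_3108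

theorem o_192_197 : allTr oF tr_192_197 = true := allTr_mk ok_194 o_192_194 o_195_197

theorem o_236_241 : allTr oF tr_236_241 = true := allTr_mk ok_238 o_236_238 o_239_241

theorem o_310_315 : allTr oF tr_310_315 = true := allTr_mk ok_312 o_310_312 o_313_315

theorem o_802_807 : allTr oF tr_802_807 = true := allTr_mk ok_804 o_802_804 o_805_807

theorem o_1492_1497 : allTr oF tr_1492_1497 = true := allTr_mk ok_1494 o_1492_1494 o_1495_1497

theorem o_1498_1503 : allTr oF tr_1498_1503 = true := allTr_mk ok_1500 o_1498_1500 o_1501_1503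

theorem o_1621_1626 : allTr oF tr_1621_1626 = true := allTr_mk ok_1623 o_1621_1623 o_1624_1626

theorem o_1634_1639 : allTr oF tr_1634_1639 = true := allTr_mk ok_1636 o_1634_1636 o_1637_1639

theorem o_1658_1663 : allTr oF tr_1658_1663 = true := allTr_mk ok_1660 o_1658_1660 o_1661_1663

theorem o_1733_1738 : allTr oF tr_1733_1738 = true := allTr_mk ok_1735 o_1733_1735 o_1736_1738

theorem o_1813_1818 : allTr oF tr_1813_1818 = true := allTr_mk ok_1815 o_1813_1815 o_1816_1818

theorem o_1832_1837 : allTr oF tr_1832_1837 = true := allTr_mk ok_1834 o_1832_1834 o_1835_1837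

theorem o_1905_1910 : allTr oF tr_1905_1910 = true := allTr_mk ok_1907 o_1905_1907 o_1908_1910

theorem o_1954_1959 : allTr oF tr_1954_1959 = true := allTr_mk ok_1956 o_1954_1956 o_1957_1959

theorem o_2010_2015 : allTr oF tr_2010_2015 = true := allTr_mk ok_2012 o_2010_2012 o_2013_2015

theorem o_2053_2058 : allTr oF tr_2053_2058 = true := allTr_mk ok_2055 o_2053_2055 o_2056_2058

theorem o_2059_2064 : allTr oF tr_2059_2064 = true := allTr_mk ok_2061 o_2059_2061 o_2062_2064

theorem o_2065_2070 : allTr oF tr_2065_2070 = true := allTr_mk ok_2067 o_2065_2067 o_2068_2070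

theorem o_2078_2083 : allTr oF tr_2078_2083 = true := allTr_mk ok_2080 o_2078_2080 o_2081_2083

theorem o_2084_2089 : allTr oF tr_2084_2089 = true := allTr_mk ok_2086 o_2084_2086 o_2087_2089

theorem o_2090_2095 : allTr oF tr_2090_2095 = true := allTr_mk ok_2092 o_2090_2092 o_2093_2095

theorem o_2096_2101 : allTr oF tr_2096_2101 = true := allTr_mk ok_2098 o_2096_2098 o_2099_2101

theorem o_2102_2107 : allTr oF tr_2102_2107 = true := allTr_mk ok_2104 o_2102_2104 o_2105_2107

theorem o_2108_2113 : allTr oF tr_2108_2113 = true := allTr_mk ok_2110 o_2108_2110 o_2111_2113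

theorem o_2114_2119 : allTr oF tr_2114_2119 = true := allTr_mk ok_2116 o_2114_2116 o_2117_2119

theorem o_2127_2132 : allTr oF tr_2127_2132 = true := allTr_mk ok_2129 o_2127_2129 o_2130_2132

theorem o_2133_2138 : allTr oF tr_2133_2138 = true := allTr_mk ok_2135 o_2133_2135 o_2136_2138

theorem o_2139_2144 : allTr oF tr_2139_2144 = true := allTr_mk ok_2141 o_2139_2141 o_2142_2144

theorem o_2145_2150 : allTr oF tr_2145_2150 = true := allTr_mk ok_2147 o_2145_2147 o_2148_2150

theorem o_2151_2156 : allTr oF tr_2151_2156 = true := allTr_mk ok_2153 o_2151_2153 o_2154_2156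

theorem o_2157_2162 : allTr oF tr_2157_2162 = true := allTr_mk ok_2159 o_2157_2159 o_2160_2162

theorem o_2163_2168 : allTr oF tr_2163_2168 = true := allTr_mk ok_2165 o_2163_2165 o_2166_2168

theorem o_2176_2181 : allTr oF tr_2176_2181 = true := allTr_mk ok_2178 o_2176_2178 o_2179_2181

theorem o_2182_2187 : allTr oF tr_2182_2187 = true := allTr_mk ok_2184 o_2182_2184 o_2185_2187

theorem o_2188_2193 : allTr oF tr_2188_2193 = true := allTr_mk ok_2190 o_2188_2190 o_2191_2193

theorem o_2201_2206 : allTr oF tr_2201_2206 = true := allTr_mk ok_2203 o_2201_2203 o_2204_2206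

theorem o_2207_2212 : allTr oF tr_2207_2212 = true := allTr_mk ok_2209 o_2207_2209 o_2210_2212

theorem o_2213_2218 : allTr oF tr_2213_2218 = true := allTr_mk ok_2215 o_2213_2215 o_2216_2218

theorem o_2226_2231 : allTr oF tr_2226_2231 = true := allTr_mk ok_2228 o_2226_2228 o_2229_2231

theorem o_2232_2237 : allTr oF tr_2232_2237 = true := allTr_mk ok_2234 o_2232_2234 o_2235_2237

theorem o_2238_2243 : allTr oF tr_2238_2243 = true := allTr_mk ok_2240 o_2238_2240 o_2241_2243

theorem o_2244_2249 : allTr oF tr_2244_2249 = true := allTr_mk ok_2246 o_2244_2246 o_2247_2249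

theorem o_2250_2255 : allTr oF tr_2250_2255 = true := allTr_mk ok_2252 o_2250_2252 o_2253_2255

theorem o_2256_2261 : allTr oF tr_2256_2261 = true := allTr_mk ok_2258 o_2256_2258 o_2259_2261

theorem o_2262_2267 : allTr oF tr_2262_2267 = true := allTr_mk ok_2264 o_2262_2264 o_2265_2267

theorem o_2275_2280 : allTr oF tr_2275_2280 = true := allTr_mk ok_2277 o_2275_2277 o_2278_2280

theorem o_2299_2304 : allTr oF tr_2299_2304 = true := allTr_mk ok_2301 o_2299_2301 o_2302_2304

theorem o_2305_2310 : allTr oF tr_2305_2310 = true := allTr_mk ok_2307 o_2305_2307 o_2308_2310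

theorem o_2311_2316 : allTr oF tr_2311_2316 = true := allTr_mk ok_2313 o_2311_2313 o_2314_2316

theorem o_2324_2329 : allTr oF tr_2324_2329 = true := allTr_mk ok_2326 o_2324_2326 o_2327_2329

theorem o_2330_2335 : allTr oF tr_2330_2335 = true := allTr_mk ok_2332 o_2330_2332 o_2333_2335

theorem o_2336_2341 : allTr oF tr_2336_2341 = true := allTr_mk ok_2338 o_2336_2338 o_2339_2341

theorem o_2342_2347 : allTr oF tr_2342_2347 = true := allTr_mk ok_2344 o_2342_2344 o_2345_2347

theorem o_2348_2353 : allTr oF tr_2348_2353 = true := allTr_mk ok_2350 o_2348_2350 o_2351_2353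

theorem o_2354_2359 : allTr oF tr_2354_2359 = true := allTr_mk ok_2356 o_2354_2356 o_2357_2359

theorem o_2360_2365 : allTr oF tr_2360_2365 = true := allTr_mk ok_2362 o_2360_2362 o_2363_2365

theorem o_2373_2378 : allTr oF tr_2373_2378 = true := allTr_mk ok_2375 o_2373_2375 o_2376_2378

theorem o_2379_2384 : allTr oF tr_2379_2384 = true := allTr_mk ok_2381 o_2379_2381 o_2382_2384

theorem o_2385_2390 : allTr oF tr_2385_2390 = true := allTr_mk ok_2387 o_2385_2387 o_2388_2390

theorem o_2398_2403 : allTr oF tr_2398_2403 = true := allTr_mk ok_2400 o_2398_2400 o_2401_2403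

theorem o_2404_2409 : allTr oF tr_2404_2409 = true := allTr_mk ok_2406 o_2404_2406 o_2407_2409

theorem o_2410_2415 : allTr oF tr_2410_2415 = true := allTr_mk ok_2412 o_2410_2412 o_2413_2415

theorem o_2423_2428 : allTr oF tr_2423_2428 = true := allTr_mk ok_2425 o_2423_2425 o_2426_2428

theorem o_2429_2434 : allTr oF tr_2429_2434 = true := allTr_mk ok_2431 o_2429_2431 o_2432_2434

theorem o_2435_2440 : allTr oF tr_2435_2440 = true := allTr_mk ok_2437 o_2435_2437 o_2438_2440

theorem o_2441_2446 : allTr oF tr_2441_2446 = true := allTr_mk ok_2443 o_2441_2443 o_2444_2446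

theorem o_2447_2452 : allTr oF tr_2447_2452 = true := allTr_mk ok_2449 o_2447_2449 o_2450_2452

theorem o_2453_2458 : allTr oF tr_2453_2458 = true := allTr_mk ok_2455 o_2453_2455 o_2456_2458

theorem o_2459_2464 : allTr oF tr_2459_2464 = true := allTr_mk ok_2461 o_2459_2461 o_2462_2464

theorem o_2472_2477 : allTr oF tr_2472_2477 = true := allTr_mk ok_2474 o_2472_2474 o_2475_2477

theorem o_2478_2483 : allTr oF tr_2478_2483 = true := allTr_mk ok_2480 o_2478_2480 o_2481_2483

theorem o_2484_2489 : allTr oF tr_2484_2489 = true := allTr_mk ok_2486 o_2484_2486 o_2487_2489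

theorem o_2490_2495 : allTr oF tr_2490_2495 = true := allTr_mk ok_2492 o_2490_2492 o_2493_2495

theorem o_2496_2501 : allTr oF tr_2496_2501 = true := allTr_mk ok_2498 o_2496_2498 o_2499_2501

theorem o_2502_2507 : allTr oF tr_2502_2507 = true := allTr_mk ok_2504 o_2502_2504 o_2505_2507

theorem o_2508_2513 : allTr oF tr_2508_2513 = true := allTr_mk ok_2510 o_2508_2510 o_2511_2513

theorem o_2521_2526 : allTr oF tr_2521_2526 = true := allTr_mk ok_2523 o_2521_2523 o_2524_2526

theorem o_2527_2532 : allTr oF tr_2527_2532 = true := allTr_mk ok_2529 o_2527_2529 o_2530_2532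

theorem o_2533_2538 : allTr oF tr_2533_2538 = true := allTr_mk ok_2535 o_2533_2535 o_2536_2538

theorem o_2539_2544 : allTr oF tr_2539_2544 = true := allTr_mk ok_2541 o_2539_2541 o_2542_2544

theorem o_2545_2550 : allTr oF tr_2545_2550 = true := allTr_mk ok_2547 o_2545_2547 o_2548_2550

theorem o_2551_2556 : allTr oF tr_2551_2556 = true := allTr_mk ok_2553 o_2551_2553 o_2554_2556

theorem o_2557_2562 : allTr oF tr_2557_2562 = true := allTr_mk ok_2559 o_2557_2559 o_2560_2562

theorem o_2570_2575 : allTr oF tr_2570_2575 = true := allTr_mk ok_2572 o_2570_2572 o_2573_2575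

theorem o_2576_2581 : allTr oF tr_2576_2581 = true := allTr_mk ok_2578 o_2576_2578 o_2579_2581

theorem o_2582_2587 : allTr oF tr_2582_2587 = true := allTr_mk ok_2584 o_2582_2584 o_2585_2587

theorem o_2595_2600 : allTr oF tr_2595_2600 = true := allTr_mk ok_2597 o_2595_2597 o_2598_2600

theorem o_2601_2606 : allTr oF tr_2601_2606 = true := allTr_mk ok_2603 o_2601_2603 o_2604_2606

theorem o_2607_2612 : allTr oF tr_2607_2612 = true := allTr_mk ok_2609 o_2607_2609 o_2610_2612

theorem o_2620_2625 : allTr oF tr_2620_2625 = true := allTr_mk ok_2622 o_2620_2622 o_2623_2625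

theorem o_2626_2631 : allTr oF tr_2626_2631 = true := allTr_mk ok_2628 o_2626_2628 o_2629_2631

theorem o_2632_2637 : allTr oF tr_2632_2637 = true := allTr_mk ok_2634 o_2632_2634 o_2635_2637

theorem o_2638_2643 : allTr oF tr_2638_2643 = true := allTr_mk ok_2640 o_2638_2640 o_2641_2643

theorem o_2644_2649 : allTr oF tr_2644_2649 = true := allTr_mk ok_2646 o_2644_2646 o_2647_2649

theorem o_2650_2655 : allTr oF tr_2650_2655 = true := allTr_mk ok_2652 o_2650_2652 o_2653_2655

theorem o_2656_2661 : allTr oF tr_2656_2661 = true := allTr_mk ok_2658 o_2656_2658 o_2659_2661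

theorem o_2669_2674 : allTr oF tr_2669_2674 = true := allTr_mk ok_2671 o_2669_2671 o_2672_2674

theorem o_2675_2680 : allTr oF tr_2675_2680 = true := allTr_mk ok_2677 o_2675_2677 o_2678_2680

theorem o_2681_2686 : allTr oF tr_2681_2686 = true := allTr_mk ok_2683 o_2681_2683 o_2684_2686

theorem o_2687_2692 : allTr oF tr_2687_2692 = true := allTr_mk ok_2689 o_2687_2689 o_2690_2692

theorem o_2693_2698 : allTr oF tr_2693_2698 = true := allTr_mk ok_2695 o_2693_2695 o_2696_2698

theorem o_2699_2704 : allTr oF tr_2699_2704 = true := allTr_mk ok_2701 o_2699_2701 o_2702_2704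

theorem o_2705_2710 : allTr oF tr_2705_2710 = true := allTr_mk ok_2707 o_2705_2707 o_2708_2710

theorem o_2718_2723 : allTr oF tr_2718_2723 = true := allTr_mk ok_2720 o_2718_2720 o_2721_2723

theorem o_2724_2729 : allTr oF tr_2724_2729 = true := allTr_mk ok_2726 o_2724_2726 o_2727_2729

theorem o_2730_2735 : allTr oF tr_2730_2735 = true := allTr_mk ok_2732 o_2730_2732 o_2733_2735

theorem o_2736_2741 : allTr oF tr_2736_2741 = true := allTr_mk ok_2738 o_2736_2738 o_2739_2741

theorem o_2742_2747 : allTr oF tr_2742_2747 = true := allTr_mk ok_2744 o_2742_2744 o_2745_2747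

theorem o_2748_2753 : allTr oF tr_2748_2753 = true := allTr_mk ok_2750 o_2748_2750 o_2751_2753

theorem o_2754_2759 : allTr oF tr_2754_2759 = true := allTr_mk ok_2756 o_2754_2756 o_2757_2759

theorem o_2767_2772 : allTr oF tr_2767_2772 = true := allTr_mk ok_2769 o_2767_2769 o_2770_2772

theorem o_2773_2778 : allTr oF tr_2773_2778 = true := allTr_mk ok_2775 o_2773_2775 o_2776_2778

theorem o_2779_2784 : allTr oF tr_2779_2784 = true := allTr_mk ok_2781 o_2779_2781 o_2782_2784

theorem o_2792_2797 : allTr oF tr_2792_2797 = true := allTr_mk ok_2794 o_2792_2794 o_2795_2797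

theorem o_2798_2803 : allTr oF tr_2798_2803 = true := allTr_mk ok_2800 o_2798_2800 o_2801_2803

theorem o_2804_2809 : allTr oF tr_2804_2809 = true := allTr_mk ok_2806 o_2804_2806 o_2807_2809

theorem o_2817_2822 : allTr oF tr_2817_2822 = true := allTr_mk ok_2819 o_2817_2819 o_2820_2822

theorem o_2823_2828 : allTr oF tr_2823_2828 = true := allTr_mk ok_2825 o_2823_2825 o_2826_2828

theorem o_2829_2834 : allTr oF tr_2829_2834 = true := allTr_mk ok_2831 o_2829_2831 o_2832_2834

theorem o_2835_2840 : allTr oF tr_2835_2840 = true := allTr_mk ok_2837 o_2835_2837 o_2838_2840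

theorem o_2841_2846 : allTr oF tr_2841_2846 = true := allTr_mk ok_2843 o_2841_2843 o_2844_2846

theorem o_2847_2852 : allTr oF tr_2847_2852 = true := allTr_mk ok_2849 o_2847_2849 o_2850_2852

theorem o_2853_2858 : allTr oF tr_2853_2858 = true := allTr_mk ok_2855 o_2853_2855 o_2856_2858

theorem o_2866_2871 : allTr oF tr_2866_2871 = true := allTr_mk ok_2868 o_2866_2868 o_2869_2871

theorem o_2872_2877 : allTr oF tr_2872_2877 = true := allTr_mk ok_2874 o_2872_2874 o_2875_2877

theorem o_2878_2883 : allTr oF tr_2878_2883 = true := allTr_mk ok_2880 o_2878_2880 o_2881_2883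

theorem o_2884_2889 : allTr oF tr_2884_2889 = true := allTr_mk ok_2886 o_2884_2886 o_2887_2889

theorem o_2890_2895 : allTr oF tr_2890_2895 = true := allTr_mk ok_2892 o_2890_2892 o_2893_2895

theorem o_2896_2901 : allTr oF tr_2896_2901 = true := allTr_mk ok_2898 o_2896_2898 o_2899_2901

theorem o_2902_2907 : allTr oF tr_2902_2907 = true := allTr_mk ok_2904 o_2902_2904 o_2905_2907

theorem o_2915_2920 : allTr oF tr_2915_2920 = true := allTr_mk ok_2917 o_2915_2917 o_2918_2920

theorem o_2921_2926 : allTr oF tr_2921_2926 = true := allTr_mk ok_2923 o_2921_2923 o_2924_2926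

theorem o_2927_2932 : allTr oF tr_2927_2932 = true := allTr_mk ok_2929 o_2927_2929 o_2930_2932

theorem o_2933_2938 : allTr oF tr_2933_2938 = true := allTr_mk ok_2935 o_2933_2935 o_2936_2938

theorem o_2939_2944 : allTr oF tr_2939_2944 = true := allTr_mk ok_2941 o_2939_2941 o_2942_2944

theorem o_2945_2950 : allTr oF tr_2945_2950 = true := allTr_mk ok_2947 o_2945_2947 o_2948_2950

theorem o_2951_2956 : allTr oF tr_2951_2956 = true := allTr_mk ok_2953 o_2951_2953 o_2954_2956

theorem o_2964_2969 : allTr oF tr_2964_2969 = true := allTr_mk ok_2966 o_2964_2966 o_2967_2969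

theorem o_2970_2975 : allTr oF tr_2970_2975 = true := allTr_mk ok_2972 o_2970_2972 o_2973_2975

theorem o_2976_2981 : allTr oF tr_2976_2981 = true := allTr_mk ok_2978 o_2976_2978 o_2979_2981

theorem o_2989_2994 : allTr oF tr_2989_2994 = true := allTr_mk ok_2991 o_2989_2991 o_2992_2994

theorem o_2995_3000 : allTr oF tr_2995_3000 = true := allTr_mk ok_2997 o_2995_2997 o_2998_3000

theorem o_3001_3006 : allTr oF tr_3001_3006 = true := allTr_mk ok_3003 o_3001_3003 o_3004_3006

theorem o_3014_3019 : allTr oF tr_3014_3019 = true := allTr_mk ok_3016 o_3014_3016 o_3017_3019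

theorem o_3020_3025 : allTr oF tr_3020_3025 = true := allTr_mk ok_3022 o_3020_3022 o_3023_3025

theorem o_3026_3031 : allTr oF tr_3026_3031 = true := allTr_mk ok_3028 o_3026_3028 o_3029_3031

theorem o_3032_3037 : allTr oF tr_3032_3037 = true := allTr_mk ok_3034 o_3032_3034 o_3035_3037

theorem o_3038_3043 : allTr oF tr_3038_3043 = true := allTr_mk ok_3040 o_3038_3040 o_3041_3043

theorem o_3044_3049 : allTr oF tr_3044_3049 = true := allTr_mk ok_3046 o_3044_3046 o_3047_3049

theorem o_3050_3055 : allTr oF tr_3050_3055 = true := allTr_mk ok_3052 o_3050_3052 o_3053_3055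

theorem o_3063_3068 : allTr oF tr_3063_3068 = true := allTr_mk ok_3065 o_3063_3065 o_3066_3068

theorem o_3069_3074 : allTr oF tr_3069_3074 = true := allTr_mk ok_3071 o_3069_3071 o_3072_3074

theorem o_3075_3080 : allTr oF tr_3075_3080 = true := allTr_mk ok_3077 o_3075_3077 o_3078_3080

theorem o_3081_3086 : allTr oF tr_3081_3086 = true := allTr_mk ok_3083 o_3081_3083 o_3084_3086

theorem o_3087_3092 : allTr oF tr_3087_3092 = true := allTr_mk ok_3089 o_3087_3089 o_3090_3092

theorem o_3093_3098 : allTr oF tr_3093_3098 = true := allTr_mk ok_3095 o_3093_3095 o_3096_3098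

theorem o_3099_3104 : allTr oF tr_3099_3104 = true := allTr_mk ok_3101 o_3099_3101 o_3102_3104

theorem o_3112_3117 : allTr oF tr_3112_3117 = true := allTr_mk ok_3114 o_3112_3114 o_3115_3117

theorem o_3118_3123 : allTr oF tr_3118_3123 = true := allTr_mk ok_3120 o_3118_3120 o_3121_3123

theorem o_3124_3129 : allTr oF tr_3124_3129 = true := allTr_mk ok_3126 o_3124_3126 o_3127_3129

theorem o_3130_3135 : allTr oF tr_3130_3135 = true := allTr_mk ok_3132 o_3130_3132 o_3133_3135

theorem o_3136_3141 : allTr oF tr_3136_3141 = true := allTr_mk ok_3138 o_3136_3138 o_3139_3141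

theorem o_3142_3147 : allTr oF tr_3142_3147 = true := allTr_mk ok_3144 o_3142_3144 o_3145_3147

theorem o_3148_3153 : allTr oF tr_3148_3153 = true := allTr_mk ok_3150 o_3148_3150 o_3151_3153

theorem o_1430_1436 : allTr oF tr_1430_1436 = true := allTr_mk ok_1433 o_1430_1433 o_1434_1436

theorem o_1577_1583 : allTr oF tr_1577_1583 = true := allTr_mk ok_1580 o_1577_1580 o_1581_1583

theorem o_1800_1806 : allTr oF tr_1800_1806 = true := allTr_mk ok_1803 o_1800_1803 o_1804_1806

theorem o_2071_2077 : allTr oF tr_2071_2077 = true := allTr_mk ok_2074 o_2071_2074 o_2075_2077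

theorem o_2120_2126 : allTr oF tr_2120_2126 = true := allTr_mk ok_2123 o_2120_2123 o_2124_2126

theorem o_2169_2175 : allTr oF tr_2169_2175 = true := allTr_mk ok_2172 o_2169_2172 o_2173_2175

theorem o_2194_2200 : allTr oF tr_2194_2200 = true := allTr_mk ok_2197 o_2194_2197 o_2198_2200

theorem o_2219_2225 : allTr oF tr_2219_2225 = true := allTr_mk ok_2222 o_2219_2222 o_2223_2225

theorem o_2268_2274 : allTr oF tr_2268_2274 = true := allTr_mk ok_2271 o_2268_2271 o_2272_2274

theorem o_2317_2323 : allTr oF tr_2317_2323 = true := allTr_mk ok_2320 o_2317_2320 o_2321_2323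

theorem o_2366_2372 : allTr oF tr_2366_2372 = true := allTr_mk ok_2369 o_2366_2369 o_2370_2372

theorem o_2391_2397 : allTr oF tr_2391_2397 = true := allTr_mk ok_2394 o_2391_2394 o_2395_2397

theorem o_2416_2422 : allTr oF tr_2416_2422 = true := allTr_mk ok_2419 o_2416_2419 o_2420_2422

theorem o_2465_2471 : allTr oF tr_2465_2471 = true := allTr_mk ok_2468 o_2465_2468 o_2469_2471

theorem o_2514_2520 : allTr oF tr_2514_2520 = true := allTr_mk ok_2517 o_2514_2517 o_2518_2520

theorem o_2563_2569 : allTr oF tr_2563_2569 = true := allTr_mk ok_2566 o_2563_2566 o_2567_2569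

theorem o_2588_2594 : allTr oF tr_2588_2594 = true := allTr_mk ok_2591 o_2588_2591 o_2592_2594

theorem o_2613_2619 : allTr oF tr_2613_2619 = true := allTr_mk ok_2616 o_2613_2616 o_2617_2619

theorem o_2662_2668 : allTr oF tr_2662_2668 = true := allTr_mk ok_2665 o_2662_2665 o_2666_2668

theorem o_2711_2717 : allTr oF tr_2711_2717 = true := allTr_mk ok_2714 o_2711_2714 o_2715_2717

theorem o_2760_2766 : allTr oF tr_2760_2766 = true := allTr_mk ok_2763 o_2760_2763 o_2764_2766

theorem o_2785_2791 : allTr oF tr_2785_2791 = true := allTr_mk ok_2788 o_2785_2788 o_2789_2791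

theorem o_2810_2816 : allTr oF tr_2810_2816 = true := allTr_mk ok_2813 o_2810_2813 o_2814_2816

theorem o_2859_2865 : allTr oF tr_2859_2865 = true := allTr_mk ok_2862 o_2859_2862 o_2863_2865

theorem o_2908_2914 : allTr oF tr_2908_2914 = true := allTr_mk ok_2911 o_2908_2911 o_2912_2914

theorem o_2957_2963 : allTr oF tr_2957_2963 = true := allTr_mk ok_2960 o_2957_2960 o_2961_2963

theorem o_2982_2988 : allTr oF tr_2982_2988 = true := allTr_mk ok_2985 o_2982_2985 o_2986_2988

theorem o_3007_3013 : allTr oF tr_3007_3013 = true := allTr_mk ok_3010 o_3007_3010 o_3011_3013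

theorem o_3056_3062 : allTr oF tr_3056_3062 = true := allTr_mk ok_3059 o_3056_3059 o_3060_3062

theorem o_3105_3111 : allTr oF tr_3105_3111 = true := allTr_mk ok_3108 o_3105_3108 o_3109_3111

theorem o_186_197 : allTr oF tr_186_197 = true := allTr_mk ok_191 o_186_191 o_192_197

theorem o_236_247 : allTr oF tr_236_247 = true := allTr_mk ok_241 o_236_241 o_242_247

theorem o_310_321 : allTr oF tr_310_321 = true := allTr_mk ok_315 o_310_315 o_316_321

theorem o_322_333 : allTr oF tr_322_333 = true := allTr_mk ok_327 o_322_327 o_328_333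

theorem o_433_444 : allTr oF tr_433_444 = true := allTr_mk ok_438 o_433_438 o_439_444

theorem o_458_469 : allTr oF tr_458_469 = true := allTr_mk ok_463 o_458_463 o_464_469

theorem o_519_530 : allTr oF tr_519_530 = true := allTr_mk ok_524 o_519_524 o_525_530

theorem o_531_542 : allTr oF tr_531_542 = true := allTr_mk ok_536 o_531_536 o_537_542

theorem o_556_567 : allTr oF tr_556_567 = true := allTr_mk ok_561 o_556_561 o_562_567

theorem o_568_579 : allTr oF tr_568_579 = true := allTr_mk ok_573 o_568_573 o_574_579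

theorem o_580_591 : allTr oF tr_580_591 = true := allTr_mk ok_585 o_580_585 o_586_591

theorem o_655_666 : allTr oF tr_655_666 = true := allTr_mk ok_660 o_655_660 o_661_666

theorem o_667_678 : allTr oF tr_667_678 = true := allTr_mk ok_672 o_667_672 o_673_678

theorem o_679_690 : allTr oF tr_679_690 = true := allTr_mk ok_684 o_679_684 o_685_690

theorem o_704_715 : allTr oF tr_704_715 = true := allTr_mk ok_709 o_704_709 o_710_715

theorem o_802_813 : allTr oF tr_802_813 = true := allTr_mk ok_807 o_802_807 o_808_813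

theorem o_827_838 : allTr oF tr_827_838 = true := allTr_mk ok_832 o_827_832 o_833_838

theorem o_950_961 : allTr oF tr_950_961 = true := allTr_mk ok_955 o_950_955 o_956_961

theorem o_962_973 : allTr oF tr_962_973 = true := allTr_mk ok_967 o_962_967 o_968_973

theorem o_1098_1109 : allTr oF tr_1098_1109 = true := allTr_mk ok_1103 o_1098_1103 o_1104_1109

theorem o_1110_1121 : allTr oF tr_1110_1121 = true := allTr_mk ok_1115 o_1110_1115 o_1116_1121

theorem o_1159_1170 : allTr oF tr_1159_1170 = true := allTr_mk ok_1164 o_1159_1164 o_1165_1170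

theorem o_1246_1257 : allTr oF tr_1246_1257 = true := allTr_mk ok_1251 o_1246_1251 o_1252_1257

theorem o_1258_1269 : allTr oF tr_1258_1269 = true := allTr_mk ok_1263 o_1258_1263 o_1264_1269

theorem o_1295_1306 : allTr oF tr_1295_1306 = true := allTr_mk ok_1300 o_1295_1300 o_1301_1306

theorem o_1307_1318 : allTr oF tr_1307_1318 = true := allTr_mk ok_1312 o_1307_1312 o_1313_1318

theorem o_1418_1429 : allTr oF tr_1418_1429 = true := allTr_mk ok_1423 o_1418_1423 o_1424_1429

theorem o_1443_1454 : allTr oF tr_1443_1454 = true := allTr_mk ok_1448 o_1443_1448 o_1449_1454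

theorem o_1455_1466 : allTr oF tr_1455_1466 = true := allTr_mk ok_1460 o_1455_1460 o_1461_1466

theorem o_1467_1478 : allTr oF tr_1467_1478 = true := allTr_mk ok_1472 o_1467_1472 o_1473_1478

theorem o_1492_1503 : allTr oF tr_1492_1503 = true := allTr_mk ok_1497 o_1492_1497 o_1498_1503

theorem o_1504_1515 : allTr oF tr_1504_1515 = true := allTr_mk ok_1509 o_1504_1509 o_1510_1515

theorem o_1615_1626 : allTr oF tr_1615_1626 = true := allTr_mk ok_1620 o_1615_1620 o_1621_1626

theorem o_1640_1651 : allTr oF tr_1640_1651 = true := allTr_mk ok_1645 o_1640_1645 o_1646_1651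

theorem o_1652_1663 : allTr oF tr_1652_1663 = true := allTr_mk ok_1657 o_1652_1657 o_1658_1663

theorem o_1739_1750 : allTr oF tr_1739_1750 = true := allTr_mk ok_1744 o_1739_1744 o_1745_1750

theorem o_1763_1774 : allTr oF tr_1763_1774 = true := allTr_mk ok_1768 o_1763_1768 o_1769_1774

theorem o_1788_1799 : allTr oF tr_1788_1799 = true := allTr_mk ok_1793 o_1788_1793 o_1794_1799

theorem o_1813_1824 : allTr oF tr_1813_1824 = true := allTr_mk ok_1818 o_1813_1818 o_1819_1824

theorem o_1899_1910 : allTr oF tr_1899_1910 = true := allTr_mk ok_1904 o_1899_1904 o_1905_1910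

theorem o_1911_1922 : allTr oF tr_1911_1922 = true := allTr_mk ok_1916 o_1911_1916 o_1917_1922

theorem o_1948_1959 : allTr oF tr_1948_1959 = true := allTr_mk ok_1953 o_1948_1953 o_1954_1959

theorem o_1960_1971 : allTr oF tr_1960_1971 = true := allTr_mk ok_1965 o_1960_1965 o_1966_1971

theorem o_2010_2021 : allTr oF tr_2010_2021 = true := allTr_mk ok_2015 o_2010_2015 o_2016_2021

theorem o_2047_2058 : allTr oF tr_2047_2058 = true := allTr_mk ok_2052 o_2047_2052 o_2053_2058

theorem o_2059_2070 : allTr oF tr_2059_2070 = true := allTr_mk ok_2064 o_2059_2064 o_2065_2070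

theorem o_2084_2095 : allTr oF tr_2084_2095 = true := allTr_mk ok_2089 o_2084_2089 o_2090_2095

theorem o_2096_2107 : allTr oF tr_2096_2107 = true := allTr_mk ok_2101 o_2096_2101 o_2102_2107

theorem o_2108_2119 : allTr oF tr_2108_2119 = true := allTr_mk ok_2113 o_2108_2113 o_2114_2119

theorem o_2133_2144 : allTr oF tr_2133_2144 = true := allTr_mk ok_2138 o_2133_2138 o_2139_2144

theorem o_2145_2156 : allTr oF tr_2145_2156 = true := allTr_mk ok_2150 o_2145_2150 o_2151_2156

theorem o_2157_2168 : allTr oF tr_2157_2168 = true := allTr_mk ok_2162 o_2157_2162 o_2163_2168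

theorem o_2182_2193 : allTr oF tr_2182_2193 = true := allTr_mk ok_2187 o_2182_2187 o_2188_2193

theorem o_2207_2218 : allTr oF tr_2207_2218 = true := allTr_mk ok_2212 o_2207_2212 o_2213_2218

theorem o_2232_2243 : allTr oF tr_2232_2243 = true := allTr_mk ok_2237 o_2232_2237 o_2238_2243

theorem o_2244_2255 : allTr oF tr_2244_2255 = true := allTr_mk ok_2249 o_2244_2249 o_2250_2255

theorem o_2256_2267 : allTr oF tr_2256_2267 = true := allTr_mk ok_2261 o_2256_2261 o_2262_2267

theorem o_2293_2304 : allTr oF tr_2293_2304 = true := allTr_mk ok_2298 o_2293_2298 o_2299_2304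

theorem o_2305_2316 : allTr oF tr_2305_2316 = true := allTr_mk ok_2310 o_2305_2310 o_2311_2316

theorem o_2330_2341 : allTr oF tr_2330_2341 = true := allTr_mk ok_2335 o_2330_2335 o_2336_2341

theorem o_2342_2353 : allTr oF tr_2342_2353 = true := allTr_mk ok_2347 o_2342_2347 o_2348_2353

theorem o_2354_2365 : allTr oF tr_2354_2365 = true := allTr_mk ok_2359 o_2354_2359 o_2360_2365

theorem o_2379_2390 : allTr oF tr_2379_2390 = true := allTr_mk ok_2384 o_2379_2384 o_2385_2390

theorem o_2404_2415 : allTr oF tr_2404_2415 = true := allTr_mk ok_2409 o_2404_2409 o_2410_2415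

theorem o_2429_2440 : allTr oF tr_2429_2440 = true := allTr_mk ok_2434 o_2429_2434 o_2435_2440

theorem o_2441_2452 : allTr oF tr_2441_2452 = true := allTr_mk ok_2446 o_2441_2446 o_2447_2452

theorem o_2453_2464 : allTr oF tr_2453_2464 = true := allTr_mk ok_2458 o_2453_2458 o_2459_2464

theorem o_2478_2489 : allTr oF tr_2478_2489 = true := allTr_mk ok_2483 o_2478_2483 o_2484_2489

theorem o_2490_2501 : allTr oF tr_2490_2501 = true := allTr_mk ok_2495 o_2490_2495 o_2496_2501

theorem o_2502_2513 : allTr oF tr_2502_2513 = true := allTr_mk ok_2507 o_2502_2507 o_2508_2513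

theorem o_2527_2538 : allTr oF tr_2527_2538 = true := allTr_mk ok_2532 o_2527_2532 o_2533_2538

theorem o_2539_2550 : allTr oF tr_2539_2550 = true := allTr_mk ok_2544 o_2539_2544 o_2545_2550

theorem o_2551_2562 : allTr oF tr_2551_2562 = true := allTr_mk ok_2556 o_2551_2556 o_2557_2562

theorem o_2576_2587 : allTr oF tr_2576_2587 = true := allTr_mk ok_2581 o_2576_2581 o_2582_2587

theorem o_2601_2612 : allTr oF tr_2601_2612 = true := allTr_mk ok_2606 o_2601_2606 o_2607_2612

theorem o_2626_2637 : allTr oF tr_2626_2637 = true := allTr_mk ok_2631 o_2626_2631 o_2632_2637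

theorem o_2638_2649 : allTr oF tr_2638_2649 = true := allTr_mk ok_2643 o_2638_2643 o_2644_2649

theorem o_2650_2661 : allTr oF tr_2650_2661 = true := allTr_mk ok_2655 o_2650_2655 o_2656_2661

theorem o_2675_2686 : allTr oF tr_2675_2686 = true := allTr_mk ok_2680 o_2675_2680 o_2681_2686

theorem o_2687_2698 : allTr oF tr_2687_2698 = true := allTr_mk ok_2692 o_2687_2692 o_2693_2698

theorem o_2699_2710 : allTr oF tr_2699_2710 = true := allTr_mk ok_2704 o_2699_2704 o_2705_2710

theorem o_2724_2735 : allTr oF tr_2724_2735 = true := allTr_mk ok_2729 o_2724_2729 o_2730_2735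

theorem o_2736_2747 : allTr oF tr_2736_2747 = true := allTr_mk ok_2741 o_2736_2741 o_2742_2747

theorem o_2748_2759 : allTr oF tr_2748_2759 = true := allTr_mk ok_2753 o_2748_2753 o_2754_2759

theorem o_2773_2784 : allTr oF tr_2773_2784 = true := allTr_mk ok_2778 o_2773_2778 o_2779_2784

theorem o_2798_2809 : allTr oF tr_2798_2809 = true := allTr_mk ok_2803 o_2798_2803 o_2804_2809

theorem o_2823_2834 : allTr oF tr_2823_2834 = true := allTr_mk ok_2828 o_2823_2828 o_2829_2834

theorem o_2835_2846 : allTr oF tr_2835_2846 = true := allTr_mk ok_2840 o_2835_2840 o_2841_2846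

theorem o_2847_2858 : allTr oF tr_2847_2858 = true := allTr_mk ok_2852 o_2847_2852 o_2853_2858

theorem o_2872_2883 : allTr oF tr_2872_2883 = true := allTr_mk ok_2877 o_2872_2877 o_2878_2883

theorem o_2884_2895 : allTr oF tr_2884_2895 = true := allTr_mk ok_2889 o_2884_2889 o_2890_2895

theorem o_2896_2907 : allTr oF tr_2896_2907 = true := allTr_mk ok_2901 o_2896_2901 o_2902_2907

theorem o_2921_2932 : allTr oF tr_2921_2932 = true := allTr_mk ok_2926 o_2921_2926 o_2927_2932

theorem o_2933_2944 : allTr oF tr_2933_2944 = true := allTr_mk ok_2938 o_2933_2938 o_2939_2944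

theorem o_2945_2956 : allTr oF tr_2945_2956 = true := allTr_mk ok_2950 o_2945_2950 o_2951_2956

theorem o_2970_2981 : allTr oF tr_2970_2981 = true := allTr_mk ok_2975 o_2970_2975 o_2976_2981

theorem o_2995_3006 : allTr oF tr_2995_3006 = true := allTr_mk ok_3000 o_2995_3000 o_3001_3006

theorem o_3020_3031 : allTr oF tr_3020_3031 = true := allTr_mk ok_3025 o_3020_3025 o_3026_3031

theorem o_3032_3043 : allTr oF tr_3032_3043 = true := allTr_mk ok_3037 o_3032_3037 o_3038_3043

theorem o_3044_3055 : allTr oF tr_3044_3055 = true := allTr_mk ok_3049 o_3044_3049 o_3050_3055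

theorem o_3069_3080 : allTr oF tr_3069_3080 = true := allTr_mk ok_3074 o_3069_3074 o_3075_3080

theorem o_3081_3092 : allTr oF tr_3081_3092 = true := allTr_mk ok_3086 o_3081_3086 o_3087_3092

theorem o_3093_3104 : allTr oF tr_3093_3104 = true := allTr_mk ok_3098 o_3093_3098 o_3099_3104

theorem o_3118_3129 : allTr oF tr_3118_3129 = true := allTr_mk ok_3123 o_3118_3123 o_3124_3129

theorem o_3130_3141 : allTr oF tr_3130_3141 = true := allTr_mk ok_3135 o_3130_3135 o_3136_3141

theorem o_3142_3153 : allTr oF tr_3142_3153 = true := allTr_mk ok_3147 o_3142_3147 o_3148_3153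

theorem o_420_432 : allTr oF tr_420_432 = true := allTr_mk ok_426 o_420_426 o_427_432

theorem o_445_457 : allTr oF tr_445_457 = true := allTr_mk ok_451 o_445_451 o_452_457

theorem o_543_555 : allTr oF tr_543_555 = true := allTr_mk ok_549 o_543_549 o_550_555

theorem o_691_703 : allTr oF tr_691_703 = true := allTr_mk ok_697 o_691_697 o_698_703

theorem o_789_801 : allTr oF tr_789_801 = true := allTr_mk ok_795 o_789_795 o_796_801

theorem o_814_826 : allTr oF tr_814_826 = true := allTr_mk ok_820 o_814_820 o_821_826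

theorem o_839_851 : allTr oF tr_839_851 = true := allTr_mk ok_845 o_839_845 o_846_851

theorem o_986_998 : allTr oF tr_986_998 = true := allTr_mk ok_992 o_986_992 o_993_998

theorem o_1085_1097 : allTr oF tr_1085_1097 = true := allTr_mk ok_1091 o_1085_1091 o_1092_1097

theorem o_1134_1146 : allTr oF tr_1134_1146 = true := allTr_mk ok_1140 o_1134_1140 o_1141_1146

theorem o_1282_1294 : allTr oF tr_1282_1294 = true := allTr_mk ok_1288 o_1282_1288 o_1289_1294

theorem o_1430_1442 : allTr oF tr_1430_1442 = true := allTr_mk ok_1436 o_1430_1436 o_1437_1442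

theorem o_1479_1491 : allTr oF tr_1479_1491 = true := allTr_mk ok_1485 o_1479_1485 o_1486_1491

theorem o_1577_1589 : allTr oF tr_1577_1589 = true := allTr_mk ok_1583 o_1577_1583 o_1584_1589

theorem o_1602_1614 : allTr oF tr_1602_1614 = true := allTr_mk ok_1608 o_1602_1608 o_1609_1614

theorem o_1627_1639 : allTr oF tr_1627_1639 = true := allTr_mk ok_1633 o_1627_1633 o_1634_1639

theorem o_1726_1738 : allTr oF tr_1726_1738 = true := allTr_mk ok_1732 o_1726_1732 o_1733_1738

theorem o_1800_1812 : allTr oF tr_1800_1812 = true := allTr_mk ok_1806 o_1800_1806 o_1807_1812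

theorem o_1825_1837 : allTr oF tr_1825_1837 = true := allTr_mk ok_1831 o_1825_1831 o_1832_1837

theorem o_1923_1935 : allTr oF tr_1923_1935 = true := allTr_mk ok_1929 o_1923_1929 o_1930_1935

theorem o_1972_1984 : allTr oF tr_1972_1984 = true := allTr_mk ok_1978 o_1972_1978 o_1979_1984

theorem o_2071_2083 : allTr oF tr_2071_2083 = true := allTr_mk ok_2077 o_2071_2077 o_2078_2083

theorem o_2120_2132 : allTr oF tr_2120_2132 = true := allTr_mk ok_2126 o_2120_2126 o_2127_2132

theorem o_2169_2181 : allTr oF tr_2169_2181 = true := allTr_mk ok_2175 o_2169_2175 o_2176_2181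

theorem o_2194_2206 : allTr oF tr_2194_2206 = true := allTr_mk ok_2200 o_2194_2200 o_2201_2206

theorem o_2219_2231 : allTr oF tr_2219_2231 = true := allTr_mk ok_2225 o_2219_2225 o_2226_2231

theorem o_2268_2280 : allTr oF tr_2268_2280 = true := allTr_mk ok_2274 o_2268_2274 o_2275_2280

theorem o_2317_2329 : allTr oF tr_2317_2329 = true := allTr_mk ok_2323 o_2317_2323 o_2324_2329

theorem o_2366_2378 : allTr oF tr_2366_2378 = true := allTr_mk ok_2372 o_2366_2372 o_2373_2378

theorem o_2391_2403 : allTr oF tr_2391_2403 = true := allTr_mk ok_2397 o_2391_2397 o_2398_2403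

theorem o_2416_2428 : allTr oF tr_2416_2428 = true := allTr_mk ok_2422 o_2416_2422 o_2423_2428

theorem o_2465_2477 : allTr oF tr_2465_2477 = true := allTr_mk ok_2471 o_2465_2471 o_2472_2477

theorem o_2514_2526 : allTr oF tr_2514_2526 = true := allTr_mk ok_2520 o_2514_2520 o_2521_2526

theorem o_2563_2575 : allTr oF tr_2563_2575 = true := allTr_mk ok_2569 o_2563_2569 o_2570_2575

theorem o_2588_2600 : allTr oF tr_2588_2600 = true := allTr_mk ok_2594 o_2588_2594 o_2595_2600

theorem o_2613_2625 : allTr oF tr_2613_2625 = true := allTr_mk ok_2619 o_2613_2619 o_2620_2625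

theorem o_2662_2674 : allTr oF tr_2662_2674 = true := allTr_mk ok_2668 o_2662_2668 o_2669_2674

theorem o_2711_2723 : allTr oF tr_2711_2723 = true := allTr_mk ok_2717 o_2711_2717 o_2718_2723

theorem o_2760_2772 : allTr oF tr_2760_2772 = true := allTr_mk ok_2766 o_2760_2766 o_2767_2772

theorem o_2785_2797 : allTr oF tr_2785_2797 = true := allTr_mk ok_2791 o_2785_2791 o_2792_2797

theorem o_2810_2822 : allTr oF tr_2810_2822 = true := allTr_mk ok_2816 o_2810_2816 o_2817_2822

theorem o_2859_2871 : allTr oF tr_2859_2871 = true := allTr_mk ok_2865 o_2859_2865 o_2866_2871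

theorem o_2908_2920 : allTr oF tr_2908_2920 = true := allTr_mk ok_2914 o_2908_2914 o_2915_2920

theorem o_2957_2969 : allTr oF tr_2957_2969 = true := allTr_mk ok_2963 o_2957_2963 o_2964_2969

theorem o_2982_2994 : allTr oF tr_2982_2994 = true := allTr_mk ok_2988 o_2982_2988 o_2989_2994

theorem o_3007_3019 : allTr oF tr_3007_3019 = true := allTr_mk ok_3013 o_3007_3013 o_3014_3019

theorem o_3056_3068 : allTr oF tr_3056_3068 = true := allTr_mk ok_3062 o_3056_3062 o_3063_3068

theorem o_3105_3117 : allTr oF tr_3105_3117 = true := allTr_mk ok_3111 o_3105_3111 o_3112_3117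

theorem o_174_197 : allTr oF tr_174_197 = true := allTr_mk ok_185 o_174_185 o_186_197

theorem o_322_345 : allTr oF tr_322_345 = true := allTr_mk ok_333 o_322_333 o_334_345

theorem o_519_542 : allTr oF tr_519_542 = true := allTr_mk ok_530 o_519_530 o_531_542

theorem o_568_591 : allTr oF tr_568_591 = true := allTr_mk ok_579 o_568_579 o_580_591

theorem o_667_690 : allTr oF tr_667_690 = true := allTr_mk ok_678 o_667_678 o_679_690

theorem o_716_739 : allTr oF tr_716_739 = true := allTr_mk ok_727 o_716_727 o_728_739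

theorem o_864_887 : allTr oF tr_864_887 = true := allTr_mk ok_875 o_864_875 o_876_887

theorem o_962_985 : allTr oF tr_962_985 = true := allTr_mk ok_973 o_962_973 o_974_985

theorem o_1110_1133 : allTr oF tr_1110_1133 = true := allTr_mk ok_1121 o_1110_1121 o_1122_1133

theorem o_1159_1182 : allTr oF tr_1159_1182 = true := allTr_mk ok_1170 o_1159_1170 o_1171_1182

theorem o_1258_1281 : allTr oF tr_1258_1281 = true := allTr_mk ok_1269 o_1258_1269 o_1270_1281

theorem o_1307_1330 : allTr oF tr_1307_1330 = true := allTr_mk ok_1318 o_1307_1318 o_1319_1330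

theorem o_1455_1478 : allTr oF tr_1455_1478 = true := allTr_mk ok_1466 o_1455_1466 o_1467_1478

theorem o_1504_1527 : allTr oF tr_1504_1527 = true := allTr_mk ok_1515 o_1504_1515 o_1516_1527

theorem o_1652_1675 : allTr oF tr_1652_1675 = true := allTr_mk ok_1663 o_1652_1663 o_1664_1675

theorem o_1751_1774 : allTr oF tr_1751_1774 = true := allTr_mk ok_1762 o_1751_1762 o_1763_1774

theorem o_1899_1922 : allTr oF tr_1899_1922 = true := allTr_mk ok_1910 o_1899_1910 o_1911_1922

theorem o_1948_1971 : allTr oF tr_1948_1971 = true := allTr_mk ok_1959 o_1948_1959 o_1960_1971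

theorem o_2047_2070 : allTr oF tr_2047_2070 = true := allTr_mk ok_2058 o_2047_2058 o_2059_2070

theorem o_2096_2119 : allTr oF tr_2096_2119 = true := allTr_mk ok_2107 o_2096_2107 o_2108_2119

theorem o_2145_2168 : allTr oF tr_2145_2168 = true := allTr_mk ok_2156 o_2145_2156 o_2157_2168

theorem o_2244_2267 : allTr oF tr_2244_2267 = true := allTr_mk ok_2255 o_2244_2255 o_2256_2267

theorem o_2293_2316 : allTr oF tr_2293_2316 = true := allTr_mk ok_2304 o_2293_2304 o_2305_2316

theorem o_2342_2365 : allTr oF tr_2342_2365 = true := allTr_mk ok_2353 o_2342_2353 o_2354_2365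

theorem o_2441_2464 : allTr oF tr_2441_2464 = true := allTr_mk ok_2452 o_2441_2452 o_2453_2464

theorem o_2490_2513 : allTr oF tr_2490_2513 = true := allTr_mk ok_2501 o_2490_2501 o_2502_2513

theorem o_2539_2562 : allTr oF tr_2539_2562 = true := allTr_mk ok_2550 o_2539_2550 o_2551_2562

theorem o_2638_2661 : allTr oF tr_2638_2661 = true := allTr_mk ok_2649 o_2638_2649 o_2650_2661

theorem o_2687_2710 : allTr oF tr_2687_2710 = true := allTr_mk ok_2698 o_2687_2698 o_2699_2710

theorem o_2736_2759 : allTr oF tr_2736_2759 = true := allTr_mk ok_2747 o_2736_2747 o_2748_2759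

theorem o_2835_2858 : allTr oF tr_2835_2858 = true := allTr_mk ok_2846 o_2835_2846 o_2847_2858

theorem o_2884_2907 : allTr oF tr_2884_2907 = true := allTr_mk ok_2895 o_2884_2895 o_2896_2907

theorem o_2933_2956 : allTr oF tr_2933_2956 = true := allTr_mk ok_2944 o_2933_2944 o_2945_2956

theorem o_3032_3055 : allTr oF tr_3032_3055 = true := allTr_mk ok_3043 o_3032_3043 o_3044_3055

theorem o_3081_3104 : allTr oF tr_3081_3104 = true := allTr_mk ok_3092 o_3081_3092 o_3093_3104

theorem o_3130_3153 : allTr oF tr_3130_3153 = true := allTr_mk ok_3141 o_3130_3141 o_3142_3153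

theorem o_223_247 : allTr oF tr_223_247 = true := allTr_mk ok_235 o_223_235 o_236_247

theorem o_297_321 : allTr oF tr_297_321 = true := allTr_mk ok_309 o_297_309 o_310_321

theorem o_420_444 : allTr oF tr_420_444 = true := allTr_mk ok_432 o_420_432 o_433_444

theorem o_445_469 : allTr oF tr_445_469 = true := allTr_mk ok_457 o_445_457 o_458_469

theorem o_543_567 : allTr oF tr_543_567 = true := allTr_mk ok_555 o_543_555 o_556_567

theorem o_642_666 : allTr oF tr_642_666 = true := allTr_mk ok_654 o_642_654 o_655_666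

theorem o_691_715 : allTr oF tr_691_715 = true := allTr_mk ok_703 o_691_703 o_704_715

theorem o_789_813 : allTr oF tr_789_813 = true := allTr_mk ok_801 o_789_801 o_802_813

theorem o_814_838 : allTr oF tr_814_838 = true := allTr_mk ok_826 o_814_826 o_827_838

theorem o_839_863 : allTr oF tr_839_863 = true := allTr_mk ok_851 o_839_851 o_852_863

theorem o_937_961 : allTr oF tr_937_961 = true := allTr_mk ok_949 o_937_949 o_950_961

theorem o_986_1010 : allTr oF tr_986_1010 = true := allTr_mk ok_998 o_986_998 o_999_1010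

theorem o_1011_1035 : allTr oF tr_1011_1035 = true := allTr_mk ok_1023 o_1011_1023 o_1024_1035

theorem o_1085_1109 : allTr oF tr_1085_1109 = true := allTr_mk ok_1097 o_1085_1097 o_1098_1109

theorem o_1134_1158 : allTr oF tr_1134_1158 = true := allTr_mk ok_1146 o_1134_1146 o_1147_1158

theorem o_1233_1257 : allTr oF tr_1233_1257 = true := allTr_mk ok_1245 o_1233_1245 o_1246_1257

theorem o_1282_1306 : allTr oF tr_1282_1306 = true := allTr_mk ok_1294 o_1282_1294 o_1295_1306

theorem o_1331_1355 : allTr oF tr_1331_1355 = true := allTr_mk ok_1343 o_1331_1343 o_1344_1355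

theorem o_1405_1429 : allTr oF tr_1405_1429 = true := allTr_mk ok_1417 o_1405_1417 o_1418_1429

theorem o_1430_1454 : allTr oF tr_1430_1454 = true := allTr_mk ok_1442 o_1430_1442 o_1443_1454

theorem o_1479_1503 : allTr oF tr_1479_1503 = true := allTr_mk ok_1491 o_1479_1491 o_1492_1503

theorem o_1528_1552 : allTr oF tr_1528_1552 = true := allTr_mk ok_1540 o_1528_1540 o_1541_1552

theorem o_1577_1601 : allTr oF tr_1577_1601 = true := allTr_mk ok_1589 o_1577_1589 o_1590_1601

theorem o_1602_1626 : allTr oF tr_1602_1626 = true := allTr_mk ok_1614 o_1602_1614 o_1615_1626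

theorem o_1627_1651 : allTr oF tr_1627_1651 = true := allTr_mk ok_1639 o_1627_1639 o_1640_1651

theorem o_1676_1700 : allTr oF tr_1676_1700 = true := allTr_mk ok_1688 o_1676_1688 o_1689_1700

theorem o_1726_1750 : allTr oF tr_1726_1750 = true := allTr_mk ok_1738 o_1726_1738 o_1739_1750

theorem o_1775_1799 : allTr oF tr_1775_1799 = true := allTr_mk ok_1787 o_1775_1787 o_1788_1799

theorem o_1800_1824 : allTr oF tr_1800_1824 = true := allTr_mk ok_1812 o_1800_1812 o_1813_1824

theorem o_1825_1849 : allTr oF tr_1825_1849 = true := allTr_mk ok_1837 o_1825_1837 o_1838_1849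

theorem o_1923_1947 : allTr oF tr_1923_1947 = true := allTr_mk ok_1935 o_1923_1935 o_1936_1947

theorem o_1972_1996 : allTr oF tr_1972_1996 = true := allTr_mk ok_1984 o_1972_1984 o_1985_1996

theorem o_1997_2021 : allTr oF tr_1997_2021 = true := allTr_mk ok_2009 o_1997_2009 o_2010_2021

theorem o_2071_2095 : allTr oF tr_2071_2095 = true := allTr_mk ok_2083 o_2071_2083 o_2084_2095

theorem o_2120_2144 : allTr oF tr_2120_2144 = true := allTr_mk ok_2132 o_2120_2132 o_2133_2144

theorem o_2169_2193 : allTr oF tr_2169_2193 = true := allTr_mk ok_2181 o_2169_2181 o_2182_2193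

theorem o_2194_2218 : allTr oF tr_2194_2218 = true := allTr_mk ok_2206 o_2194_2206 o_2207_2218

theorem o_2219_2243 : allTr oF tr_2219_2243 = true := allTr_mk ok_2231 o_2219_2231 o_2232_2243

theorem o_2268_2292 : allTr oF tr_2268_2292 = true := allTr_mk ok_2280 o_2268_2280 o_2281_2292

theorem o_2317_2341 : allTr oF tr_2317_2341 = true := allTr_mk ok_2329 o_2317_2329 o_2330_2341

theorem o_2366_2390 : allTr oF tr_2366_2390 = true := allTr_mk ok_2378 o_2366_2378 o_2379_2390

theorem o_2391_2415 : allTr oF tr_2391_2415 = true := allTr_mk ok_2403 o_2391_2403 o_2404_2415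

theorem o_2416_2440 : allTr oF tr_2416_2440 = true := allTr_mk ok_2428 o_2416_2428 o_2429_2440

theorem o_2465_2489 : allTr oF tr_2465_2489 = true := allTr_mk ok_2477 o_2465_2477 o_2478_2489

theorem o_2514_2538 : allTr oF tr_2514_2538 = true := allTr_mk ok_2526 o_2514_2526 o_2527_2538

theorem o_2563_2587 : allTr oF tr_2563_2587 = true := allTr_mk ok_2575 o_2563_2575 o_2576_2587

theorem o_2588_2612 : allTr oF tr_2588_2612 = true := allTr_mk ok_2600 o_2588_2600 o_2601_2612

theorem o_2613_2637 : allTr oF tr_2613_2637 = true := allTr_mk ok_2625 o_2613_2625 o_2626_2637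

theorem o_2662_2686 : allTr oF tr_2662_2686 = true := allTr_mk ok_2674 o_2662_2674 o_2675_2686

theorem o_2711_2735 : allTr oF tr_2711_2735 = true := allTr_mk ok_2723 o_2711_2723 o_2724_2735

theorem o_2760_2784 : allTr oF tr_2760_2784 = true := allTr_mk ok_2772 o_2760_2772 o_2773_2784

theorem o_2785_2809 : allTr oF tr_2785_2809 = true := allTr_mk ok_2797 o_2785_2797 o_2798_2809

theorem o_2810_2834 : allTr oF tr_2810_2834 = true := allTr_mk ok_2822 o_2810_2822 o_2823_2834

theorem o_2859_2883 : allTr oF tr_2859_2883 = true := allTr_mk ok_2871 o_2859_2871 o_2872_2883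

theorem o_2908_2932 : allTr oF tr_2908_2932 = true := allTr_mk ok_2920 o_2908_2920 o_2921_2932

theorem o_2957_2981 : allTr oF tr_2957_2981 = true := allTr_mk ok_2969 o_2957_2969 o_2970_2981

theorem o_2982_3006 : allTr oF tr_2982_3006 = true := allTr_mk ok_2994 o_2982_2994 o_2995_3006

theorem o_3007_3031 : allTr oF tr_3007_3031 = true := allTr_mk ok_3019 o_3007_3019 o_3020_3031

theorem o_3056_3080 : allTr oF tr_3056_3080 = true := allTr_mk ok_3068 o_3056_3068 o_3069_3080

theorem o_3105_3129 : allTr oF tr_3105_3129 = true := allTr_mk ok_3117 o_3105_3117 o_3118_3129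

theorem o_149_197 : allTr oF tr_149_197 = true := allTr_mk ok_173 o_149_173 o_174_197

theorem o_297_345 : allTr oF tr_297_345 = true := allTr_mk ok_321 o_297_321 o_322_345

theorem o_445_493 : allTr oF tr_445_493 = true := allTr_mk ok_469 o_445_469 o_470_493

theorem o_494_542 : allTr oF tr_494_542 = true := allTr_mk ok_518 o_494_518 o_519_542

theorem o_543_591 : allTr oF tr_543_591 = true := allTr_mk ok_567 o_543_567 o_568_591

theorem o_642_690 : allTr oF tr_642_690 = true := allTr_mk ok_666 o_642_666 o_667_690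

theorem o_691_739 : allTr oF tr_691_739 = true := allTr_mk ok_715 o_691_715 o_716_739

theorem o_839_887 : allTr oF tr_839_887 = true := allTr_mk ok_863 o_839_863 o_864_887

theorem o_937_985 : allTr oF tr_937_985 = true := allTr_mk ok_961 o_937_961 o_962_985

theorem o_1085_1133 : allTr oF tr_1085_1133 = true := allTr_mk ok_1109 o_1085_1109 o_1110_1133

theorem o_1134_1182 : allTr oF tr_1134_1182 = true := allTr_mk ok_1158 o_1134_1158 o_1159_1182

theorem o_1233_1281 : allTr oF tr_1233_1281 = true := allTr_mk ok_1257 o_1233_1257 o_1258_1281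

theorem o_1282_1330 : allTr oF tr_1282_1330 = true := allTr_mk ok_1306 o_1282_1306 o_1307_1330

theorem o_1331_1379 : allTr oF tr_1331_1379 = true := allTr_mk ok_1355 o_1331_1355 o_1356_1379

theorem o_1430_1478 : allTr oF tr_1430_1478 = true := allTr_mk ok_1454 o_1430_1454 o_1455_1478

theorem o_1479_1527 : allTr oF tr_1479_1527 = true := allTr_mk ok_1503 o_1479_1503 o_1504_1527

theorem o_1528_1576 : allTr oF tr_1528_1576 = true := allTr_mk ok_1552 o_1528_1552 o_1553_1576

theorem o_1627_1675 : allTr oF tr_1627_1675 = true := allTr_mk ok_1651 o_1627_1651 o_1652_1675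

theorem o_1726_1774 : allTr oF tr_1726_1774 = true := allTr_mk ok_1750 o_1726_1750 o_1751_1774

theorem o_1825_1873 : allTr oF tr_1825_1873 = true := allTr_mk ok_1849 o_1825_1849 o_1850_1873

theorem o_1874_1922 : allTr oF tr_1874_1922 = true := allTr_mk ok_1898 o_1874_1898 o_1899_1922

theorem o_1923_1971 : allTr oF tr_1923_1971 = true := allTr_mk ok_1947 o_1923_1947 o_1948_1971

theorem o_2022_2070 : allTr oF tr_2022_2070 = true := allTr_mk ok_2046 o_2022_2046 o_2047_2070

theorem o_2071_2119 : allTr oF tr_2071_2119 = true := allTr_mk ok_2095 o_2071_2095 o_2096_2119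

theorem o_2120_2168 : allTr oF tr_2120_2168 = true := allTr_mk ok_2144 o_2120_2144 o_2145_2168

theorem o_2219_2267 : allTr oF tr_2219_2267 = true := allTr_mk ok_2243 o_2219_2243 o_2244_2267

theorem o_2268_2316 : allTr oF tr_2268_2316 = true := allTr_mk ok_2292 o_2268_2292 o_2293_2316

theorem o_2317_2365 : allTr oF tr_2317_2365 = true := allTr_mk ok_2341 o_2317_2341 o_2342_2365

theorem o_2416_2464 : allTr oF tr_2416_2464 = true := allTr_mk ok_2440 o_2416_2440 o_2441_2464

theorem o_2465_2513 : allTr oF tr_2465_2513 = true := allTr_mk ok_2489 o_2465_2489 o_2490_2513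

theorem o_2514_2562 : allTr oF tr_2514_2562 = true := allTr_mk ok_2538 o_2514_2538 o_2539_2562

theorem o_2613_2661 : allTr oF tr_2613_2661 = true := allTr_mk ok_2637 o_2613_2637 o_2638_2661

theorem o_2662_2710 : allTr oF tr_2662_2710 = true := allTr_mk ok_2686 o_2662_2686 o_2687_2710

theorem o_2711_2759 : allTr oF tr_2711_2759 = true := allTr_mk ok_2735 o_2711_2735 o_2736_2759

theorem o_2810_2858 : allTr oF tr_2810_2858 = true := allTr_mk ok_2834 o_2810_2834 o_2835_2858

theorem o_2859_2907 : allTr oF tr_2859_2907 = true := allTr_mk ok_2883 o_2859_2883 o_2884_2907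

theorem o_2908_2956 : allTr oF tr_2908_2956 = true := allTr_mk ok_2932 o_2908_2932 o_2933_2956

theorem o_3007_3055 : allTr oF tr_3007_3055 = true := allTr_mk ok_3031 o_3007_3031 o_3032_3055

theorem o_3056_3104 : allTr oF tr_3056_3104 = true := allTr_mk ok_3080 o_3056_3080 o_3081_3104

theorem o_3105_3153 : allTr oF tr_3105_3153 = true := allTr_mk ok_3129 o_3105_3129 o_3130_3153

theorem o_198_247 : allTr oF tr_198_247 = true := allTr_mk ok_222 o_198_222 o_223_247

theorem o_395_444 : allTr oF tr_395_444 = true := allTr_mk ok_419 o_395_419 o_420_444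

theorem o_592_641 : allTr oF tr_592_641 = true := allTr_mk ok_616 o_592_616 o_617_641

theorem o_789_838 : allTr oF tr_789_838 = true := allTr_mk ok_813 o_789_813 o_814_838

theorem o_986_1035 : allTr oF tr_986_1035 = true := allTr_mk ok_1010 o_986_1010 o_1011_1035

theorem o_1380_1429 : allTr oF tr_1380_1429 = true := allTr_mk ok_1404 o_1380_1404 o_1405_1429

theorem o_1577_1626 : allTr oF tr_1577_1626 = true := allTr_mk ok_1601 o_1577_1601 o_1602_1626

theorem o_1676_1725 : allTr oF tr_1676_1725 = true := allTr_mk ok_1700 o_1676_1700 o_1701_1725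

theorem o_1775_1824 : allTr oF tr_1775_1824 = true := allTr_mk ok_1799 o_1775_1799 o_1800_1824

theorem o_1972_2021 : allTr oF tr_1972_2021 = true := allTr_mk ok_1996 o_1972_1996 o_1997_2021

theorem o_2169_2218 : allTr oF tr_2169_2218 = true := allTr_mk ok_2193 o_2169_2193 o_2194_2218

theorem o_2366_2415 : allTr oF tr_2366_2415 = true := allTr_mk ok_2390 o_2366_2390 o_2391_2415

theorem o_2563_2612 : allTr oF tr_2563_2612 = true := allTr_mk ok_2587 o_2563_2587 o_2588_2612

theorem o_2760_2809 : allTr oF tr_2760_2809 = true := allTr_mk ok_2784 o_2760_2784 o_2785_2809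

theorem o_2957_3006 : allTr oF tr_2957_3006 = true := allTr_mk ok_2981 o_2957_2981 o_2982_3006

theorem o_297_394 : allTr oF tr_297_394 = true := allTr_mk ok_345 o_297_345 o_346_394

theorem o_494_591 : allTr oF tr_494_591 = true := allTr_mk ok_542 o_494_542 o_543_591

theorem o_691_788 : allTr oF tr_691_788 = true := allTr_mk ok_739 o_691_739 o_740_788

theorem o_888_985 : allTr oF tr_888_985 = true := allTr_mk ok_936 o_888_936 o_937_985

theorem o_1085_1182 : allTr oF tr_1085_1182 = true := allTr_mk ok_1133 o_1085_1133 o_1134_1182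

theorem o_1282_1379 : allTr oF tr_1282_1379 = true := allTr_mk ok_1330 o_1282_1330 o_1331_1379

theorem o_1479_1576 : allTr oF tr_1479_1576 = true := allTr_mk ok_1527 o_1479_1527 o_1528_1576

theorem o_1874_1971 : allTr oF tr_1874_1971 = true := allTr_mk ok_1922 o_1874_1922 o_1923_1971

theorem o_2071_2168 : allTr oF tr_2071_2168 = true := allTr_mk ok_2119 o_2071_2119 o_2120_2168

theorem o_2268_2365 : allTr oF tr_2268_2365 = true := allTr_mk ok_2316 o_2268_2316 o_2317_2365

theorem o_2465_2562 : allTr oF tr_2465_2562 = true := allTr_mk ok_2513 o_2465_2513 o_2514_2562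

theorem o_2662_2759 : allTr oF tr_2662_2759 = true := allTr_mk ok_2710 o_2662_2710 o_2711_2759

theorem o_2859_2956 : allTr oF tr_2859_2956 = true := allTr_mk ok_2907 o_2859_2907 o_2908_2956

theorem o_3056_3153 : allTr oF tr_3056_3153 = true := allTr_mk ok_3104 o_3056_3104 o_3105_3153

theorem o_99_197 : allTr oF tr_99_197 = true := allTr_mk ok_148 o_99_148 o_149_197

theorem o_198_296 : allTr oF tr_198_296 = true := allTr_mk ok_247 o_198_247 o_248_296

theorem o_395_493 : allTr oF tr_395_493 = true := allTr_mk ok_444 o_395_444 o_445_493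

theorem o_592_690 : allTr oF tr_592_690 = true := allTr_mk ok_641 o_592_641 o_642_690

theorem o_789_887 : allTr oF tr_789_887 = true := allTr_mk ok_838 o_789_838 o_839_887

theorem o_986_1084 : allTr oF tr_986_1084 = true := allTr_mk ok_1035 o_986_1035 o_1036_1084

theorem o_1183_1281 : allTr oF tr_1183_1281 = true := allTr_mk ok_1232 o_1183_1232 o_1233_1281

theorem o_1380_1478 : allTr oF tr_1380_1478 = true := allTr_mk ok_1429 o_1380_1429 o_1430_1478

theorem o_1577_1675 : allTr oF tr_1577_1675 = true := allTr_mk ok_1626 o_1577_1626 o_1627_1675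

theorem o_1676_1774 : allTr oF tr_1676_1774 = true := allTr_mk ok_1725 o_1676_1725 o_1726_1774

theorem o_1775_1873 : allTr oF tr_1775_1873 = true := allTr_mk ok_1824 o_1775_1824 o_1825_1873

theorem o_1972_2070 : allTr oF tr_1972_2070 = true := allTr_mk ok_2021 o_1972_2021 o_2022_2070

theorem o_2169_2267 : allTr oF tr_2169_2267 = true := allTr_mk ok_2218 o_2169_2218 o_2219_2267

theorem o_2366_2464 : allTr oF tr_2366_2464 = true := allTr_mk ok_2415 o_2366_2415 o_2416_2464

theorem o_2563_2661 : allTr oF tr_2563_2661 = true := allTr_mk ok_2612 o_2563_2612 o_2613_2661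

theorem o_2760_2858 : allTr oF tr_2760_2858 = true := allTr_mk ok_2809 o_2760_2809 o_2810_2858

theorem o_2957_3055 : allTr oF tr_2957_3055 = true := allTr_mk ok_3006 o_2957_3006 o_3007_3055

theorem o_198_394 : allTr oF tr_198_394 = true := allTr_mk ok_296 o_198_296 o_297_394

theorem o_395_591 : allTr oF tr_395_591 = true := allTr_mk ok_493 o_395_493 o_494_591

theorem o_592_788 : allTr oF tr_592_788 = true := allTr_mk ok_690 o_592_690 o_691_788

theorem o_789_985 : allTr oF tr_789_985 = true := allTr_mk ok_887 o_789_887 o_888_985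

theorem o_986_1182 : allTr oF tr_986_1182 = true := allTr_mk ok_1084 o_986_1084 o_1085_1182

theorem o_1183_1379 : allTr oF tr_1183_1379 = true := allTr_mk ok_1281 o_1183_1281 o_1282_1379

theorem o_1380_1576 : allTr oF tr_1380_1576 = true := allTr_mk ok_1478 o_1380_1478 o_1479_1576

theorem o_1775_1971 : allTr oF tr_1775_1971 = true := allTr_mk ok_1873 o_1775_1873 o_1874_1971

theorem o_1972_2168 : allTr oF tr_1972_2168 = true := allTr_mk ok_2070 o_1972_2070 o_2071_2168

theorem o_2169_2365 : allTr oF tr_2169_2365 = true := allTr_mk ok_2267 o_2169_2267 o_2268_2365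

theorem o_2366_2562 : allTr oF tr_2366_2562 = true := allTr_mk ok_2464 o_2366_2464 o_2465_2562

theorem o_2563_2759 : allTr oF tr_2563_2759 = true := allTr_mk ok_2661 o_2563_2661 o_2662_2759

theorem o_2760_2956 : allTr oF tr_2760_2956 = true := allTr_mk ok_2858 o_2760_2858 o_2859_2956

theorem o_2957_3153 : allTr oF tr_2957_3153 = true := allTr_mk ok_3055 o_2957_3055 o_3056_3153

theorem o_0_197 : allTr oF tr_0_197 = true := allTr_mk ok_98 o_0_98 o_99_197

theorem o_1577_1774 : allTr oF tr_1577_1774 = true := allTr_mk ok_1675 o_1577_1675 o_1676_1774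

theorem o_395_788 : allTr oF tr_395_788 = true := allTr_mk ok_591 o_395_591 o_592_788

theorem o_789_1182 : allTr oF tr_789_1182 = true := allTr_mk ok_985 o_789_985 o_986_1182

theorem o_1183_1576 : allTr oF tr_1183_1576 = true := allTr_mk ok_1379 o_1183_1379 o_1380_1576

theorem o_1972_2365 : allTr oF tr_1972_2365 = true := allTr_mk ok_2168 o_1972_2168 o_2169_2365

theorem o_2366_2759 : allTr oF tr_2366_2759 = true := allTr_mk ok_2562 o_2366_2562 o_2563_2759

theorem o_2760_3153 : allTr oF tr_2760_3153 = true := allTr_mk ok_2956 o_2760_2956 o_2957_3153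

theorem o_0_394 : allTr oF tr_0_394 = true := allTr_mk ok_197 o_0_197 o_198_394

theorem o_1577_1971 : allTr oF tr_1577_1971 = true := allTr_mk ok_1774 o_1577_1774 o_1775_1971

theorem o_789_1576 : allTr oF tr_789_1576 = true := allTr_mk ok_1182 o_789_1182 o_1183_1576

theorem o_2366_3153 : allTr oF tr_2366_3153 = true := allTr_mk ok_2759 o_2366_2759 o_2760_3153

theorem o_0_788 : allTr oF tr_0_788 = true := allTr_mk ok_394 o_0_394 o_395_788

theorem o_1577_2365 : allTr oF tr_1577_2365 = true := allTr_mk ok_1971 o_1577_1971 o_1972_2365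

theorem o_0_1576 : allTr oF tr_0_1576 = true := allTr_mk ok_788 o_0_788 o_789_1576

theorem o_1577_3153 : allTr oF tr_1577_3153 = true := allTr_mk ok_2365 o_1577_2365 o_2366_3153

theorem o_0_3153 : allTr oF tr_0_3153 = true := allTr_mk ok_1576 o_0_1576 o_1577_3153

/-- the sequence of types -/
noncomputable def y : ℕ → ℕ := gs T.M T.mul T.w

theorem y_isG : IsG T.γ T.M T.mul T.w y := gs_isG gp (by decide +kernel) t_w (by decide +kernel)

theorem hlk : ∀ ia ib ic ie t, lk ia ib ic ie t = true → chkV P V lk t = true :=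
  fun _ _ _ _ _ h => memTr_spec c_0_3153 h

theorem hbf : ∀ i, i < P.M → bf Q i = bf Q 0 := by decide +kernel

theorem hout : ∀ ia ib ic ie t, ia < P.M → ib < P.M → ic < P.M → ie < P.M →
    lk ia ib ic ie t = true → chkOV P VO Q t ia ib ic ie = true :=
  fun _ _ _ _ _ ha hb hc he h => chkOV_one hbf ha hb hc he (memTr_spec o_0_3153 h)

theorem zero : ∃ t, chkV P V lk t = true ∧ Match P.n P.A P.B 16384 T.mul T.inv y T.vc t 0 0 0 0 := by
  refine ⟨0x10001000100080001000000000000400040004000400040004000400040004000400040004000, memTr_spec c_0_3153 (by decide +kernel), ?_⟩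
  apply match_zero gp y_isG.lt <;> decide +kernel

/-- `𝒜(s,12)` holds for all `s` above the threshold -/
theorem avoid (s : ℝ) (hs1 : 1 < s) (hs2 : (1 : ℝ) < (s - 1) * (7 + 1)) : Avoid s 12 := by
  have h := avoid_mainV chyp vok y_isG cert hlk hout zero act le_rfl vok' ohyp ocert s hs1
    (by
      have e1 : ((P.B : ℕ) : ℝ) = 1 := by norm_num [P]
      have e2 : ((P.A : ℕ) : ℝ) = 7 := by norm_num [P]
      rw [e1, e2]
      exact hs2)
  exact h

end MPbbea99G.E12
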